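import Mathlib

/-! Project FB3 (MP_f44088_al): every variety of A-groups of squarefree exponent and derived length <= 3 is
finitely based. Definitions and first facts. -/

set_option autoImplicit false

namespace Pool.Agent.Lib.MP_f44088_fb

/-- the group `G` satisfies all laws of `W` -/
def Sat (W : Set (FreeGroup ℕ)) (G : Type) [Group G] : Prop :=
  ∀ w ∈ W, ∀ f : ℕ → G, FreeGroup.lift f w = 1

/-- every law of `G₂` is a law of `G₁` -/
def InVar (G₁ : Type) [Group G₁] (G₂ : Type) [Group G₂] : Prop :=
  ∀ w : FreeGroup ℕ, (∀ f : ℕ → G₂, FreeGroup.lift f w = 1) → ∀ f : ℕ → G₁, FreeGroup.lift f w = 1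

theorem InVar.trans {G₁ G₂ G₃ : Type} [Group G₁] [Group G₂] [Group G₃] (h : InVar G₁ G₂)
    (h' : InVar G₂ G₃) : InVar G₁ G₃ := fun w hw => h w (h' w hw)

/-- a group which embeds in `G₂` -/
theorem inVar_of_injective {G₁ G₂ : Type} [Group G₁] [Group G₂] (φ : G₁ →* G₂)
    (h : Function.Injective φ) : InVar G₁ G₂ := by
  intro w hw f
  apply h
  have h1 := hw (fun i => φ (f i))
  have h2 : (FreeGroup.lift (fun i => φ (f i)) : FreeGroup ℕ →* G₂) =
      φ.comp (FreeGroup.lift f) := by
    ext i
    simp
  rw [h2] at h1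
  simpa using h1

/-- a quotient of `G₂` -/
theorem inVar_of_surjective {G₁ G₂ : Type} [Group G₁] [Group G₂] (φ : G₂ →* G₁)
    (h : Function.Surjective φ) : InVar G₁ G₂ := by
  intro w hw f
  choose g hg using fun i => h (f i)
  have h1 := hw g
  have h2 : (FreeGroup.lift f : FreeGroup ℕ →* G₁) = φ.comp (FreeGroup.lift g) := by
    ext i
    simp [hg]
  rw [h2]
  simp [h1]

/-- a bundled finite group -/
structure FGrp where
  /-- the carrier -/
  C : Type
  /-- the group structure -/
  grp : Group C
  /-- finiteness -/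
  fin : Finite C

attribute [instance] FGrp.grp FGrp.fin

/-- the class: exponent dividing `n`, derived length at most 3, all `p`-subgroups abelian -/
def Cls (n : ℕ) (G : Type) [Group G] : Prop :=
  (∀ x : G, x ^ n = 1) ∧ derivedSeries G 3 = ⊥ ∧
    ∀ p : ℕ, p.Prime → ∀ H : Subgroup G, IsPGroup p H → ∀ x ∈ H, ∀ y ∈ H, x * y = y * x

/-- monolithic: nontrivial, and two normal subgroups with trivial intersection are not both nontrivial -/
def Mono (G : Type) [Group G] : Prop :=
  Nontrivial G ∧ ∀ M N : Subgroup G, M.Normal → N.Normal → M ⊓ N = ⊥ → M = ⊥ ∨ N = ⊥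

/-- the group of all affine maps `v ↦ m + a * (v translated by x)` of the functions `K → k` -/
@[ext] structure Big (K k : Type) [Field k] where
  /-- the translation part -/
  m : K → k
  /-- the multiplier -/
  a : K → kˣ
  /-- the shift -/
  x : K

namespace Big

variable {K k : Type} [Field k] [AddCommGroup K]

instance : Mul (Big K k) :=
  ⟨fun u v => ⟨fun y => u.m y + (u.a y : k) * v.m (y + u.x), fun y => u.a y * v.a (y + u.x), u.x + v.x⟩⟩

instance : One (Big K k) := ⟨⟨0, 1, 0⟩⟩

instance : Inv (Big K k) :=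
  ⟨fun u => ⟨fun y => -(((u.a (y - u.x))⁻¹ : kˣ) : k) * u.m (y - u.x), fun y => (u.a (y - u.x))⁻¹, -u.x⟩⟩

theorem mul_m (u v : Big K k) (y : K) : (u * v).m y = u.m y + (u.a y : k) * v.m (y + u.x) := rfl
theorem mul_a (u v : Big K k) (y : K) : (u * v).a y = u.a y * v.a (y + u.x) := rfl
theorem mul_x (u v : Big K k) : (u * v).x = u.x + v.x := rfl
theorem one_m (y : K) : (1 : Big K k).m y = 0 := rfl
theorem one_a (y : K) : (1 : Big K k).a y = 1 := rfl
theorem one_x : (1 : Big K k).x = 0 := rfl
theorem inv_m (u : Big K k) (y : K) :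
    (u⁻¹).m y = -(((u.a (y - u.x))⁻¹ : kˣ) : k) * u.m (y - u.x) := rfl
theorem inv_a (u : Big K k) (y : K) : (u⁻¹).a y = (u.a (y - u.x))⁻¹ := rfl
theorem inv_x (u : Big K k) : (u⁻¹).x = -u.x := rfl

instance : Group (Big K k) :=
  Group.ofLeftAxioms
    (by
      intro u v w
      apply Big.ext
      · funext y
        simp only [mul_m, mul_a, mul_x, Units.val_mul, add_assoc]
        ring_nf
        try rfl
      · funext y
        simp only [mul_a, mul_x, add_assoc, mul_assoc]
      · simp only [mul_x, add_assoc])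
    (by
      intro u
      apply Big.ext
      · funext y
        simp [mul_m, one_m, one_a, one_x]
      · funext y
        simp [mul_a, one_a, one_x]
      · simp [mul_x, one_x])
    (by
      intro u
      apply Big.ext
      · funext y
        simp only [mul_m, inv_m, inv_a, inv_x, one_m, ← sub_eq_add_neg]
        ring
      · funext y
        simp only [mul_a, inv_a, inv_x, one_a, ← sub_eq_add_neg]
        simp
      · simp [mul_x, inv_x, one_x])

end Big

variable {K k : Type} [Field k] [AddCommGroup K]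

/-- the subgroup of the `u` all translates of whose multiplier lie in `A` -/
def GA (A : Subgroup (K → kˣ)) : Subgroup (Big K k) where
  carrier := {u | ∀ z : K, (fun y => u.a (y + z)) ∈ A}
  mul_mem' := by
    intro u v hu hv z
    have h := A.mul_mem (hu z) (hv (z + u.x))
    have e : (fun y => (u * v).a (y + z)) =
        (fun y => u.a (y + z)) * (fun y => v.a (y + (z + u.x))) := by
      funext y
      simp only [Big.mul_a, Pi.mul_apply, add_assoc]
    rw [e]
    exact h
  one_mem' := by
    intro z
    have e : (fun y : K => (1 : Big K k).a (y + z)) = 1 := by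
      funext y
      simp [Big.one_a]
    rw [e]
    exact A.one_mem
  inv_mem' := by
    intro u hu z
    have h := A.inv_mem (hu (z - u.x))
    have e : (fun y => (u⁻¹).a (y + z)) = (fun y => u.a (y + (z - u.x)))⁻¹ := by
      funext y
      simp only [Big.inv_a, Pi.inv_apply]
      congr 2
      abel
    rw [e]
    exact h

/-- the conditions on a code: `A` is a group of functions `K → kˣ` -/
structure IsCode (n : ℕ) (K k : Type) [Field k] [AddCommGroup K] (A : Subgroup (K → kˣ)) : Prop where
  /-- exponent of `K` -/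
  expK : ∀ x : K, n • x = 0
  /-- exponent of `A` -/
  expA : ∀ f ∈ A, ∀ y, f y ^ n = 1
  /-- translation invariance -/
  tr : ∀ f ∈ A, ∀ z : K, (fun y => f (y + z)) ∈ A
  /-- elements of order `r` commute -/
  ag : ∀ r : ℕ, r.Prime → ∀ f ∈ A, (∀ y, f y ^ r = 1) → ∀ x : K, r • x = 0 → ∀ y, f (y + x) = f y
  /-- faithfulness -/
  ff : ∀ x : K, (∀ f ∈ A, ∀ y, f (y + x) = f y) → x = 0

/-- `(K₁, A₁)` is below `(K₂, A₂)` -/
def Below {K₁ K₂ k : Type} [Field k] [AddCommGroup K₁] [AddCommGroup K₂]
    (A₁ : Subgroup (K₁ → kˣ)) (A₂ : Subgroup (K₂ → kˣ)) : Prop :=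
  ∃ φ : K₁ →+ K₂, Function.Injective φ ∧ ∀ f ∈ A₁, ∃ g ∈ A₂, ∀ y, f y = g (φ y)

/-- a bundled code over `k` -/
structure Code (n : ℕ) (k : Type) [Field k] where
  /-- the finite abelian group -/
  K : Type
  /-- its group structure -/
  grp : AddCommGroup K
  /-- finiteness -/
  fin : Finite K
  /-- the group of functions -/
  A : Subgroup (K → kˣ)
  /-- the conditions -/
  ok : IsCode n K k A

attribute [instance] Code.grp Code.fin

end Pool.Agent.Lib.MP_f44088_fb
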