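import Mathlib
import Pool.Agent.Lib.MP_f44088_al.FB3.Defs

/-! Project FB3 (MP_f44088_al), statements of the well quasi order part. Every docstring contains the complete proof. -/

set_option autoImplicit false

namespace Pool.Agent.Lib.MP_f44088_fb

/-! ## Part L: the lemma on coloured point sets (helper15) -/

/-- `Y` contains arbitrarily many points which are independent modulo `U q` in every active coordinate `q ∈ I` -/
def Rich {ι : Type} {F : ι → Type} [∀ q, Field (F q)] {X : ι → Type} [∀ q, AddCommGroup (X q)]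
    [∀ q, Module (F q) (X q)] (U : ∀ q, Submodule (F q) (X q)) (I : Set ι) (Y : Set (∀ q, X q)) : Prop :=
  ∀ N : ℕ, ∃ y : Fin N → ∀ q, X q, (∀ s, y s ∈ Y) ∧
    ∀ q ∈ I, LinearIndependent (F q) (fun s => (U q).mkQ (y s q))

/-- (RM) Rich is stable under finite dimensional enlargements. No hypotheses. PROOF. `d` = the sum over `q` of the
dimensions of `U' q` (finite). Given `N` take `N' = N + |ι| d` points `y` for `U`. Fix `q ∈ I`: the `N'` vectors
`y s q` are independent modulo `U q`; the dimension of their span modulo `U' q` is at least `N' - d` (the kernel of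
`X/U → X/U'` on the span has dimension at most `dim U' q ≤ d`), so some subset `S q` of `Fin N'` with at least `N' - d`
elements is independent modulo `U' q` (a maximal independent subset of a spanning family). The intersection of the
`S q`, `q ∈ I`, has at least `N' - |ι| d = N` elements; reindex `N` of them by `Fin N`. -/
def S_RM : Prop :=
  ∀ (ι : Type) [Finite ι] (F : ι → Type) [∀ q, Field (F q)] (X : ι → Type) [∀ q, AddCommGroup (X q)]
    [∀ q, Module (F q) (X q)] (U U' : ∀ q, Submodule (F q) (X q)) (I : Set ι) (Y : Set (∀ q, X q)),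
    Rich U I Y → (∀ q, U q ≤ U' q) → (∀ q, (U' q).FG) → Rich U' I Y

/-- (Str) Structure of an arbitrary set of points: it is a finite union of rich classes. Allowed hypothesis: `S_RM`.
PROOF. Show more generally, by induction on the number of elements of `J : Set ι`: for every finite dimensional `U0` and
every `v0` with `v0 q ∈ U0 q` for `q ∉ J`, the set `Z_(J,v0) = {z ∈ Z : z q = v0 q for q ∉ J}` has a structure as in the
statement with `U ≥ U0` and with all classes contained in it (i.e. `I t ⊆ J`, `v t q = v0 q` for `q ∉ J`), covering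
`Z_(J,v0)`. If `Z_(J,v0)` is rich modulo `U0` with active set `J`: one class `(J, v0)`, `U = U0`. (For `J = ∅` a nonempty
`Z_(J,v0)` is rich, and if it is empty take `T = Empty`.) Otherwise there is a largest `N` for which `N` points
`y 1 .. y N` of `Z_(J,v0)` are independent modulo `U0 q` for every `q ∈ J` (`N = 0` is possible). `U1 q = U0 q + span
(y s q)` for `q ∈ J`, `U1 q = U0 q` otherwise: finite dimensional, so finite (`F q` finite). Every `z ∈ Z_(J,v0)` has
`z q ∈ U1 q` for some `q ∈ J` (otherwise `y, z` would be `N + 1` points, independent for every `q ∈ J`). So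
`Z_(J,v0)` is the union over `q ∈ J` and `c ∈ U1 q` of the sets `Z_(J∖{q}, v0 updated at q by c)`; finitely many; by
induction each has a structure with some `U_(q,c) ≥ U1`. Let `U` be the sum of all of them, `T` the disjoint union
of the index types; richness is preserved by `S_RM`. Finally take `J = ⊤`, `U0 = ⊥`, `v0 = 0`. -/
def S_Str : Prop :=
  ∀ (ι : Type) [Finite ι] (F : ι → Type) [∀ q, Field (F q)] [∀ q, Finite (F q)] (X : ι → Type)
    [∀ q, AddCommGroup (X q)] [∀ q, Module (F q) (X q)] (Z : Set (∀ q, X q)),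
    ∃ (U : ∀ q, Submodule (F q) (X q)) (T : Type) (I : T → Set ι) (v : T → ∀ q, X q),
      (∀ q, (U q).FG) ∧ Finite T ∧ (∀ t, ∀ q, q ∉ I t → v t q ∈ U q) ∧
      (∀ z ∈ Z, ∃ t, ∀ q, q ∉ I t → z q = v t q) ∧
      ∀ t, Rich U (I t) {z | z ∈ Z ∧ ∀ q, q ∉ I t → z q = v t q}

/-- (Joint) Joint independence. Allowed hypothesis: `S_RM`. PROOF. Induction on the finite type `T` (or on a finite
subset of `T`, adding one class at a time): if the points `y` of the earlier classes are chosen, let
`U' q = U q + span of all their coordinates q`, finite dimensional; the new class is rich modulo `U'` by `S_RM`; take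
`N t` points independent modulo `U' q` for `q ∈ I t`. Together they are independent modulo `U q` (a relation modulo
`U q` gives first that the coefficients of the new points vanish, as they are independent modulo `U' q`, then the
others). -/
def S_Joint : Prop :=
  ∀ (ι : Type) [Finite ι] (F : ι → Type) [∀ q, Field (F q)] (X : ι → Type)
    [∀ q, AddCommGroup (X q)] [∀ q, Module (F q) (X q)] (U : ∀ q, Submodule (F q) (X q)),
    (∀ q, (U q).FG) → ∀ (T : Type) [Finite T] (I : T → Set ι) (Y : T → Set (∀ q, X q)),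
    (∀ t, Rich U (I t) (Y t)) → ∀ N : T → ℕ,
      ∃ y : (t : T) → Fin (N t) → ∀ q, X q, (∀ t s, y t s ∈ Y t) ∧
        ∀ q, LinearIndependent (F q)
          (fun s : {s : (Σ t : T, Fin (N t)) // q ∈ I s.1} => (U q).mkQ (y s.1.1 s.1.2 q))

/-- (Ger) Independent germs are independent almost everywhere. No hypotheses. PROOF. For each of the finitely many
`c : S → F`, `c ≠ 0` (`F`, `S` finite), the germ `∑ c s • x s` is not 0, so (ultrafilter) `∑ c s • x s i ≠ 0` for almost
all `i`; intersect finitely many conditions. -/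
def S_Ger : Prop :=
  ∀ (F : Type) [Field F] [Finite F] (E : Type) [AddCommGroup E] [Module F E] (S : Type) [Finite S]
    (x : S → ℕ → E),
    LinearIndependent F (fun s => ((x s : ℕ → E) : Filter.Germ (Filter.hyperfilter ℕ : Filter ℕ) E)) →
    ∀ᶠ i in (Filter.hyperfilter ℕ : Filter ℕ), LinearIndependent F (fun s => x s i)

/-- (LW) The lemma: finite coloured sets of points in products of vector spaces over finite fields are well quasi
ordered by linear images. Allowed hypotheses: `S_Str`, `S_RM`, `S_Joint`, `S_Ger`. PROOF. `𝒰 = hyperfilter ℕ`,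
`X q = Germ 𝒰 (E q)`, `Z* c` = the set of the `z` whose coordinates are germs of a sequence `ζ` with `ζ i ∈ Z i c`
for almost all `i`. For every colour `S_Str` gives `U^c, T^c, I, v`; let `U` be the sum of the `U^c`, `T = Σ c, T^c`
(finite); all classes are rich modulo `U` by `S_RM`. Choose bases `b q s` of `U q` (`s` in a finite type `β q`) and
representatives `b q s i ∈ E q`; for `q ∉ I t`, `v t q = ∑ coef · b q s`; put `v t q i = ∑ coef · b q s i`.
(A) For almost all `i`: for all `c` and `z ∈ Z i c` there is `t ∈ T^c` with `z q = v t q i` for all `q ∉ I t`. Otherwise,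
for some `c`, for almost all `i` there is a bad `z i ∈ Z i c`; its germ is in `Z* c`, so it lies in a class `t`, so
`z i q = v t q i` for `q ∉ I t` and almost all `i`: contradiction. (B) For almost all `i` the `b q s i` are
independent, for every `q` (`S_Ger`). Fix `i` with (A), (B). For `t ∈ T^c` let `z_(t,s)`, `s < N t`, be the elements of
`Z i c` of the class `t`. `S_Joint` gives points `y t s` of `{z ∈ Z* c : z q = v t q for q ∉ I t}` with representatives
`y t s j`. The family `(b q s) ∪ (y t s q)_(q ∈ I t)` is linearly independent in `X q`, so by `S_Ger` for almost all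
`j` the family `(b q s j) ∪ (y t s j q)` is independent in `E q`, and `y t s j ∈ Z j c`, and `y t s j q = v t q j` for
`q ∉ I t`. Take such a `j > i`. Let `π q : E q → E q` be linear with `b q s j ↦ b q s i`, `y t s j q ↦ z_(t,s) q`
(`q ∈ I t`). For `z ∈ Z i c` in the class `t`, `z = z_(t,s)`: `z' = y t s j` works (`q ∉ I t`: `z' q = v t q j ↦ v t q i
= z q`). -/
def S_LW : Prop :=
  ∀ (ι : Type) [Finite ι] (F : ι → Type) [∀ q, Field (F q)] [∀ q, Finite (F q)] (E : ι → Type)
    [∀ q, AddCommGroup (E q)] [∀ q, Module (F q) (E q)] (C : Type) [Finite C]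
    (Z : ℕ → C → Set (∀ q, E q)), (∀ i c, (Z i c).Finite) →
    ∃ i j, i < j ∧ ∃ π : ∀ q, E q →ₗ[F q] E q, ∀ c, ∀ z ∈ Z i c, ∃ z' ∈ Z j c, ∀ q, π q (z' q) = z q

/-! ## Part D: duality and Fourier transform -/

/-- (Dual) Linear maps between the duals come from a homomorphism. No hypotheses. PROOF. For `y ∈ K₁` and
`q ∈ n.primeFactors` the map `μ ↦ (π q μ) y` is a linear form on the finite dimensional space `K₂ →+ ZMod q`
(finite set), the dual of the `ZMod q`-space `K₂ / q K₂`; by the double dual it is the evaluation at some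
`y q ∈ K₂`. Chinese remainder: `φ y = ∑ c q • y q` with `c q ≡ 1 mod q`, `c q ≡ 0` modulo the other primes of `n`
satisfies `μ (φ y) = (π q μ) y` for all `q, μ : K₂ →+ ZMod q`. UNIQUE: if `μ z = 0` for all `q ∈ n.primeFactors` and all
`μ : K₂ →+ ZMod q` then `z ∈ q K₂` for all `q`, so (exponent `n` squarefree, `K₂` = direct sum of its `q`-parts, which
are vector spaces over `ZMod q`) `z = 0`. Hence `φ` is additive. -/
def S_Dual : Prop :=
  ∀ n : ℕ, Squarefree n → ∀ (K₁ K₂ : Type) [AddCommGroup K₁] [AddCommGroup K₂] [Finite K₁] [Finite K₂],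
    (∀ x : K₁, n • x = 0) → (∀ x : K₂, n • x = 0) →
    ∀ π : ∀ q : ℕ, (K₂ →+ ZMod q) →ₗ[ZMod q] (K₁ →+ ZMod q),
      ∃ φ : K₁ →+ K₂, ∀ q ∈ n.primeFactors, ∀ (μ : K₂ →+ ZMod q) (y : K₁), (π q μ) y = μ (φ y)

/-- a character with values in the field `F` -/
def IsChar {K F : Type} [AddCommGroup K] [Field F] (c : K → F) : Prop :=
  c 0 = 1 ∧ ∀ x y, c (x + y) = c x * c y

/-- (Ch) Logarithms of characters. No hypotheses. PROOF. For every prime `q ≠ r` let `ζ q ∈ F` be a primitive `q`-th root
of unity (`F` algebraically closed of characteristic `r ≠ q`), `E q t = (ζ q)^(t.val)` for such `q`, and `E q t = 1` for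
all other `q`. Let `c` be a character of `K`, `n • x = 0`. For `q ∈ n.primeFactors`, `q ≠ r`: choose `m q` (a multiple of
`n/q`) with `m q ≡ 1 mod q`, `m q ≡ 0` modulo the other primes of `n`. `c (m q • y)` is a `q`-th root of unity, so
`c (m q • y) = (ζ q)^(l)` with a unique `l = l q y ∈ ZMod q`, additive in `y`. `l q = 0` for all other `q`. `∑ m q ≡ 1 mod n`
(sum over the primes of `n`), so `c y = ∏_q c (m q • y)`; the factor of `q = r` is 1 (`c (m r • y)` is an `r`-th root of
unity in characteristic `r`). -/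
def S_Ch : Prop :=
  ∀ n : ℕ, Squarefree n → ∀ (r : ℕ), r.Prime → ∀ (F : Type) [Field F] [IsAlgClosed F] [CharP F r],
    ∃ E : ∀ q : ℕ, ZMod q → F, ∀ (K : Type) [AddCommGroup K] [Finite K], (∀ x : K, n • x = 0) →
      ∀ c : K → F, IsChar c → ∃ l : ∀ q : ℕ, K →+ ZMod q, ∀ y, c y = ∏ q ∈ n.primeFactors, E q (l q y)

/-- the characters in the `F`-span of `D` -/
def Lam {K F : Type} {r : ℕ} [AddCommGroup K] [Field F] [CharP F r] (D : AddSubgroup (K → ZMod r)) :
    Set (K → F) :=
  {c | IsChar c ∧ c ∈ Submodule.span F {g : K → F | ∃ f ∈ D, g = fun y => ZMod.castHom (dvd_refl r) F (f y)}}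

/-- (F1) Fourier transform. No hypotheses. PROOF. `V` = the span in the definition of `Lam`, a subspace of `K → F`,
invariant under the translations `T x`, `(T x g) y = g (y + x)`. `K = K_r ⊕ K'`, `K_r = {x : r • x = 0}`, `K'` of order
`m` prime to `r` (`n` squarefree: `K'` = multiples of `r`, or of `gcd(r, n)`). `T x` is the identity on `V` for `x ∈ K_r`;
for `x ∈ K'`, `(T x)^m = 1`, `m ≠ 0` in `F`, so `T x` is diagonalizable on `V` (`X^m - 1` is separable and splits). The
`T x` commute, so `V` is the sum of the common eigenspaces of all `T x` (induction, or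
`Module.End.iSup_iInf_maxGenEigenspace_eq_top_of_forall_mapsTo` and semisimplicity; or explicitly: for `g ∈ V` and a
character `c` of `K'`, `g_c = (1/m) ∑_(x ∈ K') c(-x) T x g` is an eigenvector and `∑_c g_c = g`). A common eigenvector
`g ≠ 0`: `g (y + x) = c x · g y`; `c` is a character of `K` (`g ≠ 0`), `g y = g 0 · c y`, so `c ∈ V`, `c ∈ Lam D`. So `V` is
the span of `Lam D`, and it contains the function of the statement. -/
def S_F1 : Prop :=
  ∀ n : ℕ, Squarefree n → ∀ (r : ℕ), r.Prime → ∀ (F : Type) [Field F] [IsAlgClosed F] [CharP F r]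
    (K : Type) [AddCommGroup K] [Finite K], (∀ x : K, n • x = 0) →
    ∀ D : AddSubgroup (K → ZMod r), (∀ f ∈ D, ∀ z : K, (fun y => f (y + z)) ∈ D) →
      (∀ f ∈ D, ∀ x : K, r • x = 0 → ∀ y, f (y + x) = f y) →
      ∀ f ∈ D, (fun y => ZMod.castHom (dvd_refl r) F (f y)) ∈ Submodule.span F (Lam (F := F) D)

/-- (F2) Comparison by characters. No hypotheses. PROOF. `P = {g ∘ φ : g ∈ D₂}`, an additive subgroup of
`K₁ → ZMod r`, so a `ZMod r`-subspace. Let `f ∈ D₁`. By the first hypothesis `cast ∘ f` is in the `F`-span of `Lam D₁`,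
by the second one every element of `Lam D₁` is `μ ∘ φ`, `μ` in the `F`-span of the `cast ∘ g`, `g ∈ D₂`; composition
with `φ` is linear, so `cast ∘ f` is in the `F`-span of the `cast ∘ h`, `h ∈ P`. If `f ∉ P`, there is a `ZMod r`-linear
form `∑_y a y h y` on `K₁ → ZMod r` (`K₁` finite) which is 0 on `P` and not 0 at `f`; the `F`-linear form with the
coefficients `cast (a y)` is 0 on the span and not 0 at `cast ∘ f` (the cast is injective, a ring homomorphism of
fields): contradiction. -/
def S_F2 : Prop :=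
  ∀ (r : ℕ), r.Prime → ∀ (F : Type) [Field F] [CharP F r]
    (K₁ K₂ : Type) [AddCommGroup K₁] [AddCommGroup K₂] [Finite K₁] [Finite K₂] (φ : K₁ →+ K₂)
    (D₁ : AddSubgroup (K₁ → ZMod r)) (D₂ : AddSubgroup (K₂ → ZMod r)),
    (∀ f ∈ D₁, (fun y => ZMod.castHom (dvd_refl r) F (f y)) ∈ Submodule.span F (Lam (F := F) D₁)) →
    (∀ c ∈ Lam (F := F) D₁, ∃ μ ∈ Lam (F := F) D₂, ∀ y, c y = μ (φ y)) →
    ∀ f ∈ D₁, ∃ g ∈ D₂, ∀ y, f y = g (φ y)

/-- the conditions on an additive code: for every prime `r ∈ Q` a group of functions `K → ZMod r` -/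
structure IsD (n : ℕ) (Q : Finset ℕ) (K : Type) [AddCommGroup K] (D : ∀ r : ℕ, AddSubgroup (K → ZMod r)) :
    Prop where
  expK : ∀ x : K, n • x = 0
  tr : ∀ r ∈ Q, ∀ f ∈ D r, ∀ z : K, (fun y => f (y + z)) ∈ D r
  rinv : ∀ r ∈ Q, ∀ f ∈ D r, ∀ x : K, r • x = 0 → ∀ y, f (y + x) = f y
  ff : ∀ x : K, (∀ r ∈ Q, ∀ f ∈ D r, ∀ y, f (y + x) = f y) → x = 0

/-- a bundled additive code -/
structure DCode (n : ℕ) (Q : Finset ℕ) where
  K : Type
  grp : AddCommGroup K
  fin : Finite K
  D : ∀ r : ℕ, AddSubgroup (K → ZMod r)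
  ok : IsD n Q K D

attribute [instance] DCode.grp DCode.fin

/-- (WD) Well quasi order of the additive codes. Allowed hypotheses: `S_LW`, `S_Dual`, `S_Ch`, `S_F1`, `S_F2`. PROOF.
`ι = {q // q ∈ n.primeFactors}`, fields `ZMod q`, `E q = ℕ →₀ ZMod q`, colours `C = {r // r ∈ Q}`. For `r ∈ Q` let
`F r = AlgebraicClosure (ZMod r)`, and `E' r q : ZMod q → F r` the functions of `S_Ch`. For the `i`-th code choose
injective linear maps `ε i q : (K_i →+ ZMod q) → E q` (finite dimensional space into an infinite dimensional one) and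
linear left inverses `ρ i q`. `Z i r` = the set of the points `(ε i q (l q))_q`, one for every character
`c ∈ Lam (D_i r)` (finitely many: `K_i` is finite and the values of characters are `n`-th roots of unity; or distinct
characters are linearly independent), `l` chosen for `c` by `S_Ch`. `S_LW`: `i < j` and `π q`.
`π' q = ρ i q ∘ π q ∘ ε j q`, and `π' q = 0` for `q` not a prime factor of `n`; `S_Dual` gives `φ : K_i →+ K_j`. For
`c ∈ Lam (D_i r)` with logarithm `l` there is `μ ∈ Lam (D_j r)` with logarithm `l'` and `π q (ε j q (l' q)) = ε i q (l q)`,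
so `π' q (l' q) = l q`, so `l q y = l' q (φ y)` and `c y = μ (φ y)` for all `y`. `S_F1` and `S_F2` give the last
conclusion. `φ` injective: if `φ x = 0` then `f (y + x) = g (φ y + φ x) = f y` for all `r, f`, so `x = 0` by `ff`. -/
def S_WD : Prop :=
  ∀ n : ℕ, Squarefree n → ∀ Q : Finset ℕ, Q ⊆ n.primeFactors → ∀ d : ℕ → DCode n Q,
    ∃ i j, i < j ∧ ∃ φ : (d i).K →+ (d j).K, Function.Injective φ ∧
      ∀ r ∈ Q, ∀ f ∈ (d i).D r, ∃ g ∈ (d j).D r, ∀ y, f y = g (φ y)

/-! ## Part T: translation of the codes -/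

/-- the functions `g : K → ZMod r` whose exponential lies in `A` -/
def Dof {K k : Type} [Field k] (e : ∀ r : ℕ, ZMod r →+ Additive kˣ) (A : Subgroup (K → kˣ)) (r : ℕ) :
    AddSubgroup (K → ZMod r) where
  carrier := {g | (fun y => Additive.toMul (e r (g y))) ∈ A}
  add_mem' := by
    intro a b ha hb
    have h := A.mul_mem ha hb
    have e1 : (fun y => Additive.toMul (e r ((a + b) y))) =
        (fun y => Additive.toMul (e r (a y))) * (fun y => Additive.toMul (e r (b y))) := by
      funext y
      simp [Pi.add_apply, map_add]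
    show (fun y => Additive.toMul (e r ((a + b) y))) ∈ A
    rw [e1]
    exact h
  zero_mem' := by
    show (fun y : K => Additive.toMul (e r ((0 : K → ZMod r) y))) ∈ A
    have e1 : (fun y : K => Additive.toMul (e r ((0 : K → ZMod r) y))) = 1 := by
      funext y
      simp
    rw [e1]
    exact A.one_mem
  neg_mem' := by
    intro a ha
    have h := A.inv_mem ha
    have e1 : (fun y => Additive.toMul (e r ((-a) y))) =
        (fun y => Additive.toMul (e r (a y)))⁻¹ := by
      funext y
      simp [Pi.neg_apply, map_neg]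
    show (fun y => Additive.toMul (e r ((-a) y))) ∈ A
    rw [e1]
    exact h

/-- the exponentials `ZMod r → kˣ` are isomorphisms onto the `r`-th roots of unity -/
def IsExp (n p : ℕ) (k : Type) [Field k] (e : ∀ r : ℕ, ZMod r →+ Additive kˣ) : Prop :=
  ∀ r ∈ n.primeFactors.erase p, Function.Injective (e r) ∧
    ∀ z : kˣ, z ^ r = 1 → ∃ t : ZMod r, Additive.toMul (e r t) = z

/-- (Tr1) The exponentials. No hypotheses. PROOF. For a prime `r ≠ p` there is a primitive `r`-th root of unity `ζ` in
`k` (algebraically closed of characteristic `p`); `e r` = the homomorphism `t ↦ ζ^t` (`ZMod.lift`), injective as `ζ`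
has order `r`; every `z` with `z^r = 1` is a power of `ζ`. For other `r` take 0. -/
def S_Tr1 : Prop :=
  ∀ n p : ℕ, p.Prime → ∀ (k : Type) [Field k] [IsAlgClosed k] [CharP k p],
    ∃ e : ∀ r : ℕ, ZMod r →+ Additive kˣ, IsExp n p k e

/-- (Tr2) The additive code of a code. No hypotheses. PROOF. `expK`: same. `tr`: from `tr` of `IsCode`. `rinv`: for
`g ∈ Dof e A r` the function `f = exp g` satisfies `f y ^ r = 1` (`r • t = 0` in `ZMod r`), so `f (y + x) = f y` by `ag`,
and `e r` is injective. `ff`: let `x` be such that `g (y + x) = g y` for all `r ∈ n.primeFactors.erase p`, `g ∈ Dof e A r`.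
Let `f ∈ A`. Integers `m r` (`r ∈ n.primeFactors`) with `m r ≡ 1 mod r`, `m r ≡ 0` modulo the other primes of `n`, so
`∑ m r ≡ 1 mod n` and `f = ∏ f^(m r)` (`expA`). `(f^(m r))^r = 1` (`n` divides `r m r`). For `r = p` in characteristic
`p`: `z^p = 1` implies `z = 1`, so `f^(m p) = 1`. For `r ≠ p`, `f^(m r) = exp g` with `g ∈ Dof e A r` (second part of
`IsExp`, pointwise), so it is invariant under the translation by `x`. So `f` is invariant, `x = 0` by `ff`. -/
def S_Tr2 : Prop :=
  ∀ n p : ℕ, Squarefree n → p.Prime → ∀ (k : Type) [Field k] [CharP k p]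
    (e : ∀ r : ℕ, ZMod r →+ Additive kˣ), IsExp n p k e →
    ∀ (K : Type) [AddCommGroup K] (A : Subgroup (K → kˣ)), IsCode n K k A →
      IsD n (n.primeFactors.erase p) K (Dof e A)

/-- (Tr3) Comparison. No hypotheses. PROOF. `f ∈ A₁`; `f = ∏ f^(m r)` as in (Tr2), `f^(m p) = 1`, and for `r ≠ p`
`f^(m r) = exp g_r`, `g_r ∈ Dof e A₁ r`, `g_r = h_r ∘ φ` with `h_r ∈ Dof e A₂ r`, so `f^(m r) = (exp h_r) ∘ φ`,
`exp h_r ∈ A₂`; the product of the `exp h_r` is the wanted element of `A₂`. -/
def S_Tr3 : Prop :=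
  ∀ n p : ℕ, Squarefree n → p.Prime → ∀ (k : Type) [Field k] [CharP k p]
    (e : ∀ r : ℕ, ZMod r →+ Additive kˣ), IsExp n p k e →
    ∀ (K₁ K₂ : Type) [AddCommGroup K₁] [AddCommGroup K₂] (A₁ : Subgroup (K₁ → kˣ)) (A₂ : Subgroup (K₂ → kˣ)),
      IsCode n K₁ k A₁ → IsCode n K₂ k A₂ → ∀ φ : K₁ →+ K₂, Function.Injective φ →
      (∀ r ∈ n.primeFactors.erase p, ∀ f ∈ Dof e A₁ r, ∃ g ∈ Dof e A₂ r, ∀ y, f y = g (φ y)) →
      Below A₁ A₂

/-- (WC) Well quasi order of the codes. Allowed hypotheses: `S_Tr1`, `S_Tr2`, `S_Tr3`, `S_WD`. PROOF. `e` from `S_Tr1`;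
the additive codes `⟨(c i).K, _, _, Dof e (c i).A, S_Tr2⟩`; `S_WD` with `Q = n.primeFactors.erase p`; `S_Tr3`. -/
def S_WC : Prop :=
  ∀ n : ℕ, Squarefree n → ∀ p : ℕ, p.Prime → ∀ (k : Type) [Field k] [IsAlgClosed k] [CharP k p]
    (c : ℕ → Code n k), ∃ i j, i < j ∧ Below (c i).A (c j).A

end Pool.Agent.Lib.MP_f44088_fb
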