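import Mathlib
import Pool.Agent.Lib.MP_f44088_al.FB3.Spec2

/-! Project FB3 (MP_f44088_al): logarithms of characters. -/

set_option autoImplicit false

namespace Pool.Agent.Lib.MP_f44088_fb

namespace ChAux

theorem char_nsmul {K F : Type} [AddCommGroup K] [Field F] {c : K → F} (hc : IsChar c) (m : ℕ) (y : K) :
    c (m • y) = c y ^ m := by
  induction m with
  | zero => simp [hc.1]
  | succ m ih => rw [succ_nsmul, hc.2, ih, pow_succ]

theorem char_sum {K F : Type} [AddCommGroup K] [Field F] {c : K → F} (hc : IsChar c)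
    (s : Finset ℕ) (m : ℕ → ℕ) (y : K) :
    c ((∑ q ∈ s, m q) • y) = ∏ q ∈ s, c (m q • y) := by
  simp only [char_nsmul hc]
  rw [Finset.prod_pow_eq_pow_sum]

/-- the numbers of the Chinese remainder theorem -/
theorem exists_m (n : ℕ) (hn : Squarefree n) :
    ∃ m : ℕ → ℕ, (∀ q ∈ n.primeFactors, n ∣ q * m q) ∧
      (∑ q ∈ n.primeFactors, m q) ≡ 1 [MOD n] := by
  have hn0 : n ≠ 0 := hn.ne_zero
  have key : ∀ q : ℕ, ∃ m : ℕ, q ∈ n.primeFactors → (n / q ∣ m ∧ m ≡ 1 [MOD q]) := by
    intro q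
    by_cases hq : q ∈ n.primeFactors
    · have hqp := Nat.prime_of_mem_primeFactors hq
      have hqd := Nat.dvd_of_mem_primeFactors hq
      have hcop : Nat.Coprime (n / q) q := by
        have h1 : q * (n / q) = n := Nat.mul_div_cancel' hqd
        have h2 : Squarefree (q * (n / q)) := by rw [h1]; exact hn
        exact (Nat.squarefree_mul_iff.mp h2).1.symm
      obtain ⟨m, hm⟩ := Nat.chineseRemainder hcop 0 1
      exact ⟨m, fun _ => ⟨(Nat.modEq_zero_iff_dvd).mp hm.1, hm.2⟩⟩
    · exact ⟨0, fun h => absurd h hq⟩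
  choose m hm using key
  refine ⟨m, ?_, ?_⟩
  · intro q hq
    have hqd := Nat.dvd_of_mem_primeFactors hq
    have h1 : q * (n / q) = n := Nat.mul_div_cancel' hqd
    calc n = q * (n / q) := h1.symm
      _ ∣ q * m q := Nat.mul_dvd_mul_left q (hm q hq).1
  · have hp : ∀ p ∈ n.primeFactors, (∑ q ∈ n.primeFactors, m q) ≡ 1 [MOD p] := by
      intro p hp
      have h1 : (∑ q ∈ n.primeFactors, m q) = m p + ∑ q ∈ n.primeFactors.erase p, m q :=
        (Finset.add_sum_erase _ _ hp).symm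
      have h2 : p ∣ ∑ q ∈ n.primeFactors.erase p, m q := by
        apply Finset.dvd_sum
        intro q hq
        have hqn := Finset.mem_of_mem_erase hq
        have hne := Finset.ne_of_mem_erase hq
        have hqp := Nat.prime_of_mem_primeFactors hqn
        have hqd := Nat.dvd_of_mem_primeFactors hqn
        have hpp := Nat.prime_of_mem_primeFactors hp
        have h3 : q * (n / q) = n := Nat.mul_div_cancel' hqd
        have h4 : p ∣ q * (n / q) := by rw [h3]; exact Nat.dvd_of_mem_primeFactors hp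
        have h5 : Nat.Coprime p q := (Nat.coprime_primes hpp hqp).mpr (Ne.symm hne)
        exact (h5.dvd_of_dvd_mul_left h4).trans (hm q hqn).1
      rw [h1]
      have h6 : m p + ∑ q ∈ n.primeFactors.erase p, m q ≡ 1 + 0 [MOD p] :=
        Nat.ModEq.add (hm p hp).2 ((Nat.modEq_zero_iff_dvd).mpr h2)
      simpa using h6
    have h7 : ((n : ℕ) : ℤ) ∣ ((∑ q ∈ n.primeFactors, m q : ℕ) : ℤ) - 1 := by
      have h8 : ((∏ p ∈ n.primeFactors, p : ℕ) : ℤ) ∣ ((∑ q ∈ n.primeFactors, m q : ℕ) : ℤ) - 1 := by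
        rw [Nat.cast_prod]
        apply Finset.prod_dvd_of_coprime
        · intro a ha b hb hab
          have ha' := Nat.prime_of_mem_primeFactors ha
          have hb' := Nat.prime_of_mem_primeFactors hb
          exact Nat.isCoprime_iff_coprime.mpr ((Nat.coprime_primes ha' hb').mpr hab)
        · intro p hpm
          have h9 := (Nat.modEq_iff_dvd.mp (hp p hpm).symm)
          simpa using h9
      rwa [Nat.prod_primeFactors_of_squarefree hn] at h8
    exact (Nat.modEq_iff_dvd.mpr (by simpa using h7)).symm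

/-- the logarithm of a family of `q`-th roots of unity -/
theorem exists_log {K F : Type} [AddCommGroup K] [Field F] {c : K → F} (hc : IsChar c) (q m : ℕ)
    (hq : q.Prime) (z : F) (hz : IsPrimitiveRoot z q) (hm : ∀ y, c (m • y) ^ q = 1) :
    ∃ l : K →+ ZMod q, ∀ y, c (m • y) = z ^ (l y).val := by
  have : NeZero q := ⟨hq.ne_zero⟩
  have h1 : ∀ y, ∃ i : ℕ, z ^ i = c (m • y) := by
    intro y
    obtain ⟨i, -, hi⟩ := hz.eq_pow_of_pow_eq_one (hm y)
    exact ⟨i, hi⟩
  choose i hi using h1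
  have hmod : ∀ a : ℕ, z ^ (a % q) = z ^ a := by
    intro a
    conv_rhs => rw [← Nat.mod_add_div a q]
    rw [pow_add, pow_mul, hz.pow_eq_one, one_pow, mul_one]
  have hinj : ∀ a b : ℕ, z ^ a = z ^ b → (a : ZMod q) = (b : ZMod q) := by
    intro a b hab
    have h2 : a % q = b % q :=
      hz.pow_inj (Nat.mod_lt _ hq.pos) (Nat.mod_lt _ hq.pos) (by rw [hmod, hmod, hab])
    exact (ZMod.natCast_eq_natCast_iff a b q).mpr h2
  have hval : ∀ a : ℕ, z ^ ((a : ZMod q)).val = z ^ a := by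
    intro a
    rw [ZMod.val_natCast, hmod]
  refine ⟨AddMonoidHom.mk' (fun y => ((i y : ℕ) : ZMod q)) ?_, ?_⟩
  · intro x y
    have h3 : z ^ i (x + y) = z ^ (i x + i y) := by
      rw [hi, pow_add, hi, hi, smul_add, hc.2]
    have h4 := hinj _ _ h3
    rw [h4]
    push_cast
    rfl
  · intro y
    change c (m • y) = z ^ (((i y : ℕ) : ZMod q)).val
    rw [hval, hi]

end ChAux

open ChAux in
theorem Ch : S_Ch := by
  intro n hn r hr F _ _ _
  have hroot : ∀ q : ℕ, ∃ z : F, (q.Prime ∧ q ≠ r → IsPrimitiveRoot z q) ∧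
      (¬ (q.Prime ∧ q ≠ r) → z = 1) := by
    intro q
    by_cases h : q.Prime ∧ q ≠ r
    · have h1 : (q : F) ≠ 0 := by
        intro h0
        have h2 : r ∣ q := (CharP.cast_eq_zero_iff F r q).mp h0
        exact h.2 ((Nat.prime_dvd_prime_iff_eq hr h.1).mp h2).symm
      have : NeZero (q : F) := ⟨h1⟩
      obtain ⟨z, hz⟩ := HasEnoughRootsOfUnity.exists_primitiveRoot F q
      exact ⟨z, fun _ => hz, fun h' => absurd h h'⟩
    · exact ⟨1, fun h' => absurd h' h, fun _ => rfl⟩
  choose z hz hz1 using hroot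
  refine ⟨fun q t => z q ^ t.val, ?_⟩
  intro K _ _ hK c hc
  obtain ⟨m, hm1, hm2⟩ := exists_m n hn
  have hpow : ∀ q ∈ n.primeFactors, ∀ y, c (m q • y) ^ q = 1 := by
    intro q hq y
    rw [← char_nsmul hc, smul_smul]
    obtain ⟨k, hk⟩ := hm1 q hq
    rw [hk, mul_comm, mul_smul, hK, smul_zero, hc.1]
  have hl : ∀ q : ℕ, ∃ l : K →+ ZMod q, q ∈ n.primeFactors → ∀ y, c (m q • y) = z q ^ (l y).val := by
    intro q
    by_cases hq : q ∈ n.primeFactors
    · have hqp := Nat.prime_of_mem_primeFactors hq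
      by_cases hqr : q = r
      · refine ⟨0, fun _ y => ?_⟩
        rw [hz1 q (fun h => h.2 hqr), one_pow]
        have : Fact r.Prime := ⟨hr⟩
        have h1 := hpow q hq y
        rw [hqr] at h1 ⊢
        have h2 : (c (m r • y) - 1) ^ r = 0 := by
          rw [sub_pow_char, h1, one_pow, sub_self]
        exact sub_eq_zero.mp (pow_eq_zero_iff hr.ne_zero |>.mp h2)
      · obtain ⟨l, hl⟩ := exists_log hc q (m q) hqp (z q) (hz q ⟨hqp, hqr⟩) (hpow q hq)
        exact ⟨l, fun _ => hl⟩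
    · exact ⟨0, fun h => absurd h hq⟩
  choose l hl using hl
  refine ⟨l, fun y => ?_⟩
  have h3 : (∑ q ∈ n.primeFactors, m q) • y = y := by
    have h4 : ((∑ q ∈ n.primeFactors, m q : ℕ) : ℤ) • y = (1 : ℤ) • y := by
      have h5 := Nat.modEq_iff_dvd.mp hm2.symm
      obtain ⟨k, hk⟩ := h5
      have h6 : ((∑ q ∈ n.primeFactors, m q : ℕ) : ℤ) = 1 + k * (n : ℤ) := by
        push_cast at hk ⊢
        linarith
      rw [h6, add_smul, mul_smul, natCast_zsmul, hK, smul_zero, add_zero]
    rwa [one_smul, natCast_zsmul] at h4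
  calc c y = c ((∑ q ∈ n.primeFactors, m q) • y) := by rw [h3]
    _ = ∏ q ∈ n.primeFactors, c (m q • y) := char_sum hc _ _ _
    _ = ∏ q ∈ n.primeFactors, z q ^ (l q y).val :=
        Finset.prod_congr rfl (fun q hq => hl q hq y)

end Pool.Agent.Lib.MP_f44088_fb
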