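import Mathlib
import Pool.Agent.Lib.MP_f44088_al.FB3.Defs

/-! Project FB3 (MP_f44088_al), statements. Every docstring contains the complete proof. -/

set_option autoImplicit false

namespace Pool.Agent.Lib.MP_f44088_fb

/-! ## Part V: varieties -/

/-- the hypothesis on the set of laws `W` -/
def Hyp (n : ℕ) (W : Set (FreeGroup ℕ)) : Prop :=
  ∀ (G : Type) [Group G], Sat W G →
    (∀ s : Finset G, Finite (Subgroup.closure (s : Set G))) ∧
    (∀ p : ℕ, p.Prime → ∀ P : Sylow p G, ∀ x ∈ P, ∀ y ∈ P, x * y = y * x) ∧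
    (∀ x : G, x ^ n = 1) ∧ derivedSeries G 3 = ⊥

/-- (FgF) A finitely generated soluble group of finite exponent is finite. No hypotheses. PROOF. Induction on `m`.
`m = 0`: trivial group. `m + 1`: `G' = commutator G`; `G/G'` is abelian, finitely generated, of exponent dividing
`n`: finite (a finitely generated torsion abelian group: it is the image of `(Z/n)^s`). So `G'` has finite
index, hence is finitely generated (Schreier, `Subgroup.fg_of_index_ne_zero`), has exponent dividing `n` and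
`derivedSeries G' m = ⊥` (`derivedSeries G (m+1)` is the image of `derivedSeries G' m`): finite by induction
(for the group `↥G'`). So `G` is finite. -/
def S_FgF : Prop :=
  ∀ (m n : ℕ), 0 < n → ∀ (G : Type) [Group G], Group.FG G → (∀ x : G, x ^ n = 1) →
    derivedSeries G m = ⊥ → Finite G

/-- (D3) The law of derived length 3. No hypotheses. PROOF. `d0(x) = x`, `d1(x,y) = [x,y]`,
`d2 = [d1(x0,x1), d1(x2,x3)]`, `w = d3 = [d2(x0..x3), d2(x4..x7)]` in `FreeGroup ℕ`. If `G''' = 1` then all values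
are 1 (values of `dj` lie in `derivedSeries G j`). Conversely: the set `Vj` of values of `dj` in `G` is invariant
under conjugation, and `derivedSeries G j` is the subgroup generated by `Vj`, by induction: the subgroup generated
by the `[a,b]`, `a, b ∈ Vj`, is normal, and modulo it the elements of `Vj` commute with each other, so the subgroup
`closure Vj = derivedSeries G j` is abelian modulo it, i.e. contains its commutator subgroup
`derivedSeries G (j+1)`. So if all values of `d3` are 1, `derivedSeries G 3 = closure {1} = ⊥`. -/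
def S_D3 : Prop :=
  ∃ w : FreeGroup ℕ, ∀ (G : Type) [Group G],
    (∀ f : ℕ → G, FreeGroup.lift f w = 1) ↔ derivedSeries G 3 = ⊥

/-- (Two) The two variable laws are finitely based. No hypotheses. PROOF. `F = FreeGroup (Fin 2)`, `U` = the
intersection of all normal subgroups `N` of `F` such that `F ⧸ N` satisfies `W`. `F ⧸ U` embeds in the product of
these `F ⧸ N`, so `Sat W (F ⧸ U)` (`Sat` passes to subgroups, products, quotients, isomorphic groups). By `Hyp`
the group `F ⧸ U` is locally finite, and it is generated by two elements: finite. So `U` has finite index in the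
finitely generated group `F`: `U` is finitely generated (`Subgroup.fg_of_index_ne_zero`), `U = closure S`, `S`
finite. `B` = the image of `S` under `FreeGroup.map (Fin.val : Fin 2 → ℕ)`. If `Sat W G` and `f : ℕ → G`, let `N` be
the kernel of `F → G`, `0, 1 ↦ f 0, f 1`; `F ⧸ N` embeds in `G`, satisfies `W`, so `U ≤ N` and the elements of `B`
are laws of `G`. If `Sat B G` and `x, y ∈ G`: the homomorphism `h : F → G`, `0 ↦ x`, `1 ↦ y` kills `S`, so
`U ≤ ker h`; its range is `closure {x, y}`, a quotient of `F ⧸ U`, so it satisfies `W`. -/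
def S_Two : Prop :=
  ∀ (n : ℕ) (W : Set (FreeGroup ℕ)), Hyp n W →
    ∃ B : Finset (FreeGroup ℕ),
      (∀ (G : Type) [Group G], Sat W G → Sat (B : Set (FreeGroup ℕ)) G) ∧
      ∀ (G : Type) [Group G], Sat (B : Set (FreeGroup ℕ)) G →
        ∀ x y : G, Sat W (Subgroup.closure ({x, y} : Set G))

/-- (Seq) Minimal counterexamples. Allowed hypotheses: `S_FgF`, `S_D3`, `S_Two`. PROOF. `w3` from `S_D3`, `B2` from
`S_Two`, `B0 = B2 ∪ {w3, (of 0)^n}`; every group with `Sat W` satisfies `B0`. `FreeGroup ℕ` is countable, let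
`e : ℕ → FreeGroup ℕ` be onto; `B_N = B0 ∪ {e i : i < N, e i ∈ W}`. Every `W`-group satisfies `B_N`, so by assumption
some group `G` satisfies `B_N` and not `W`: `lift f w ≠ 1`, `w ∈ W`. The subgroup generated by the finitely many
`f i`, `i` a letter of `w`, is finitely generated, satisfies `B_N` and not `W` (change `f` to 1 at the other
letters), and is finite by `S_FgF` (`m = 3`). Take a FINITE group `G_N` which satisfies `B_N` and not `W`, of
least order (`Type`-bundled `FGrp`; Nat.find on the order). `s N` = some index with `e (s N) ∈ W` not a law of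
`G_N`. `Mono G_N`: nontrivial (the trivial group satisfies `W`); if `M ⊓ N = ⊥`, `M, N ≠ ⊥` normal, then
`G ⧸ M`, `G ⧸ N` satisfy `B_N` and are smaller, so satisfy `W`, and `G` embeds in their product: contradiction.
`Cls n G_N`: exponent and derived length from `B0`; `x, y` in a `p`-subgroup: `closure {x, y}` satisfies `W` and is
a `p`-group, so it is its own Sylow subgroup and is abelian by `Hyp`. Choose `N_0 < N_1 < ...` with
`N_(i+1) > s(N_i)`; the sequence `G_(N_i)` works: for `i < j` the group `G_(N_j)` satisfies `e (s N_i)` (as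
`s N_i < N_(i+1) ≤ N_j`) and `G_(N_i)` does not. -/
def S_Seq : Prop :=
  ∀ (n : ℕ) (W : Set (FreeGroup ℕ)), 0 < n → Hyp n W →
    (∀ B : Finset (FreeGroup ℕ), ¬ ∀ (G : Type) [Group G], (Sat W G ↔ Sat (B : Set (FreeGroup ℕ)) G)) →
    ∃ G : ℕ → FGrp, (∀ i, Cls n (G i).C) ∧ (∀ i, Mono (G i).C) ∧
      ∀ i j, i < j → ¬ InVar (G i).C (G j).C

/-- (Main) well quasi order of the monolithic groups. Allowed hypotheses: `S_Cod`, `S_Sec`, `S_WC`. PROOF. By
`S_Cod` choose for every `i` a prime `p i ∈ n.primeFactors`; infinitely many `i` have the same `p`: pass to a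
subsequence (strictly increasing `s : ℕ → ℕ`). `k = AlgebraicClosure (ZMod p)` (`Fact p.Prime`), codes `c i` of
`G (s i)` over `k` from `S_Cod`. `S_WC` gives `i < j` with `Below (c i).A (c j).A`, and `S_Sec` (with `(c i).ok.tr`)
`InVar (GA (c i).A) (GA (c j).A)`; compose with the two `InVar` of `S_Cod`. -/
def S_Main : Prop :=
  ∀ n : ℕ, Squarefree n → ∀ G : ℕ → FGrp, (∀ i, Cls n (G i).C) → (∀ i, Mono (G i).C) →
    ∃ i j, i < j ∧ InVar (G i).C (G j).C

/-- (Fin) The theorem. Allowed hypotheses: `S_Seq`, `S_Main`. PROOF. `n > 0` since `n` is squarefree. If no finite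
`B` works, `S_Seq` contradicts `S_Main`. -/
def S_Fin : Prop :=
  ∀ (n : ℕ) (W : Set (FreeGroup ℕ)), Squarefree n → Hyp n W →
    ∃ B : Finset (FreeGroup ℕ), ∀ (G : Type) [Group G], (Sat W G ↔ Sat (B : Set (FreeGroup ℕ)) G)

/-! ## Part S: structure of the monolithic groups -/

/-- (Fa) The largest normal `p`-subgroup. No hypotheses. PROOF. Let `D` be the last nontrivial term of the derived
series: abelian, normal, `≠ ⊥`. `p` a prime dividing `Nat.card D`; `P = {x ∈ D : x^(p^j) = 1 for some j}` is a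
subgroup (`D` abelian), normal in `G`, a `p`-group, `≠ ⊥` (Cauchy). `F` = a normal `p`-subgroup of largest order; the
join of two normal `p`-subgroups is a normal `p`-subgroup (`IsPGroup.to_sup_of_normal_left` or similar), so `F`
contains all normal `p`-subgroups, in particular `P`, `F ≠ ⊥`. For a prime `q ≠ p` and a normal `q`-subgroup `N`:
`N ⊓ F = ⊥` (coprime orders), so `N = ⊥` by `Mono`. -/
def S_Fa : Prop :=
  ∀ (G : Type) [Group G] [Finite G], Mono G → derivedSeries G 3 = ⊥ →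
    ∃ p : ℕ, p.Prime ∧ ∃ F : Subgroup G, F.Normal ∧ F ≠ ⊥ ∧ IsPGroup p F ∧
      (∀ N : Subgroup G, N.Normal → IsPGroup p N → N ≤ F) ∧
      (∀ q : ℕ, q.Prime → q ≠ p → ∀ N : Subgroup G, N.Normal → IsPGroup q N → N = ⊥)

/-- (Fb) It is its own centralizer. No hypotheses. PROOF. `C` = centralizer of `F`, normal, contains `F`. Suppose
`C` is not contained in `F`. The derived series of `C` (as subgroups of `G`: normal in `G`) ends with `⊥ ≤ F`; let
`D` be its last term not contained in `F`: `D` normal in `G`, `D ≤ C`, `[D,D] ≤ F`, `x ∈ D`, `x ∉ F`. `E = D ⊔ F`,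
normal, `≤ C`, `[E,E] ≤ F` (`F` is centralized by `E`). Let `q` be a prime dividing the order of `x` modulo `F`, and
`Q = {g ∈ E : g^(q^j) ∈ F for some j}`: a subgroup since `E/F` is abelian, normal in `G`, contains `F`, and `≠ F`
(a power of `x` has order `q` modulo `F`). `q = p`: `Q` is a `p`-group, so `Q ≤ F`, contradiction. `q ≠ p`:
`N = {g ∈ Q : g^(q^j) = 1 for some j}`. `F` is central in `Q`, of order `c = Nat.card F` prime to `q`. `N` is a
subgroup: for `g, h ∈ Q` let `z = [g,h] ∈ F` (central), then `(gh)^m = g^m h^m z^(e)` for some `e` (class 2), so for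
`g, h ∈ N` and large `m = q^j` divisible by all orders, `(gh)^(m) ∈ F`, while also `z^m = [g^m, h] = 1` and `z` has
order prime to `q`: `z = 1`; so `g, h` commute and `gh ∈ N`. (Or: a complement of `F` in `Q` by Schur-Zassenhaus.)
`N` is normal in `G` (defined invariantly), a `q`-group, and `≠ ⊥`: for `g ∈ Q ∖ F`, `g^(q^j) ∈ F`, so
`(g^c)^(q^j) = 1`, and `g^c ≠ 1` because the order of `g` modulo `F` is a power of `q`, `≠ 1`, prime to `c`.
Contradiction to the last hypothesis. -/
def S_Fb : Prop :=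
  ∀ (G : Type) [Group G] [Finite G], derivedSeries G 3 = ⊥ →
    ∀ p : ℕ, p.Prime → ∀ F : Subgroup G, F.Normal → IsPGroup p F →
      (∀ x ∈ F, ∀ y ∈ F, x * y = y * x) →
      (∀ N : Subgroup G, N.Normal → IsPGroup p N → N ≤ F) →
      (∀ q : ℕ, q.Prime → q ≠ p → ∀ N : Subgroup G, N.Normal → IsPGroup q N → N = ⊥) →
      ∀ g : G, (∀ x ∈ F, g * x = x * g) → g ∈ F

/-- (Fit) The bottom layer. Allowed hypotheses: `S_Fa`, `S_Fb`. PROOF. `p, F` from `S_Fa`; `F` is abelian by
`Cls` (`p`-subgroup). `S_Fb` gives the centralizer. A Sylow `p`-subgroup `P` contains the normal `p`-subgroup `F`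
and is abelian by `Cls`, so `P` centralizes `F`, `P ≤ F`, `P = F`: `p` does not divide the index. `x ∈ F` has order
`p^j` dividing `n` squarefree, so `x^p = 1`. `F ≠ ⊥` has an element of order `p`, which divides `n`. -/
def S_Fit : Prop :=
  ∀ n : ℕ, Squarefree n → ∀ (G : Type) [Group G] [Finite G], Cls n G → Mono G →
    ∃ p : ℕ, p ∈ n.primeFactors ∧ ∃ F : Subgroup G, F.Normal ∧ F ≠ ⊥ ∧ IsPGroup p F ∧
      (∀ x ∈ F, ∀ y ∈ F, x * y = y * x) ∧ (∀ x ∈ F, x ^ p = 1) ∧
      (∀ g : G, (∀ x ∈ F, g * x = x * g) → g ∈ F) ∧ ¬ p ∣ F.index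

/-- (MinN) Maschke: `F` is a minimal normal subgroup. No hypotheses. PROOF. `N ≤ F` normal in `G`. `F` is an
elementary abelian `p`-group: there is a homomorphism `e : F → N` which is the identity on `N` (a linear projection
over `ZMod p`; module structure on `Additive F` by `AddCommGroup.zmodModule`). The index `m` of `F` is prime to
`p`; let `T` be a (left) transversal of `F` in `G` (or a complement `H` of `F`, `Subgroup.exists_right_complement'_of_coprime`).
`e'(f) = (∏_(t ∈ T) t e(t^(-1) f t) t^(-1))^(m')`, `m m' ≡ 1 mod p`: a homomorphism `F → N` (everything in the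
abelian group `F`), identity on `N`, and `e'(g f g^(-1)) = g e'(f) g^(-1)` for all `g ∈ G` (each factor depends
only on the coset `t F` because `F` is abelian). `N' = ker e'` is normal in `G`, `N ⊓ N' = ⊥`. By `Mono` `N = ⊥` or
`N' = ⊥`; in the second case `f e'(f)^(-1) ∈ N'` gives `f = e'(f) ∈ N` for all `f ∈ F`: `N = F`. -/
def S_MinN : Prop :=
  ∀ (G : Type) [Group G] [Finite G], Mono G → ∀ p : ℕ, p.Prime → ∀ F : Subgroup G, F.Normal →
    (∀ x ∈ F, ∀ y ∈ F, x * y = y * x) → (∀ x ∈ F, x ^ p = 1) → ¬ p ∣ F.index →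
    ∀ N : Subgroup G, N.Normal → N ≤ F → N = ⊥ ∨ N = F

/-- (Hm) The complement is metabelian. No hypotheses. PROOF. Let `H1, H2` be the images in `G` of
`derivedSeries H 1`, `derivedSeries H 2`. Suppose `H2 ≠ ⊥`. For `X ∈ {H, H1, H2}`: `⁅F, X⁆ ≤ F` is normal in `G`
(`X` is normalized by `H`, `F` is abelian and normal, `G = F H`), and not `⊥` (otherwise `X` centralizes `F`, so
`X ≤ F ⊓ H = ⊥`); so `⁅F, X⁆ = F`. `F = ⁅F, H⁆ ≤ D1 = derivedSeries G 1` and `H1 ≤ D1`; so `F = ⁅F, H1⁆ ≤ ⁅D1, D1⁆ = D2`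
and `H2 ≤ D2`; so `F = ⁅F, H2⁆ ≤ ⁅D2, D2⁆ = D3 = ⊥`, contradiction. -/
def S_Hm : Prop :=
  ∀ (G : Type) [Group G] [Finite G] (F H : Subgroup G), F.Normal → F ≠ ⊥ →
    (∀ x ∈ F, ∀ y ∈ F, x * y = y * x) → Subgroup.IsComplement' F H →
    (∀ N : Subgroup G, N.Normal → N ≤ F → N = ⊥ ∨ N = F) →
    (∀ g : G, (∀ x ∈ F, g * x = x * g) → g ∈ F) → derivedSeries G 3 = ⊥ →
    derivedSeries H 2 = ⊥

/-- (MaxA) A maximal abelian normal subgroup. No hypotheses. PROOF. `commutator H` is abelian (`H'' = 1`). Among the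
subgroups which contain `commutator H` and are abelian take one of largest order, `A`. If `g` centralizes `A`,
the subgroup generated by `A` and `g` is abelian, so it is `A`: `g ∈ A`. -/
def S_MaxA : Prop :=
  ∀ (H : Type) [Group H] [Finite H], derivedSeries H 2 = ⊥ →
    ∃ A : Subgroup H, commutator H ≤ A ∧ (∀ x ∈ A, ∀ y ∈ A, x * y = y * x) ∧
      ∀ g : H, (∀ x ∈ A, g * x = x * g) → g ∈ A

/-- (Conj) Conjugacy of complements, abelian case. No hypotheses. PROOF. For `u ∈ U` write `u = β(u) θ(u)`,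
`β(u) ∈ B`, `θ(u) ∈ U'` (unique); `θ` is a homomorphism (`U → E/B ← U'`). `β(uv) = u v θ(v)^(-1) θ(u)^(-1)
= β(u) · θ(u) β(v) θ(u)^(-1) = β(u) · u β(v) u^(-1)` (`B` abelian, `θ(u) = β(u)^(-1) u`). `c = ∏_(v ∈ U) β(v)`,
`m = |U|`: the product over `v` of the identity for `β(uv)` gives `c = β(u)^m · u c u^(-1)`. With `m m' ≡ 1` modulo
`|B|` and `d = c^(m')`: `β(u) = d · u d^(-1) u^(-1)`, so `θ(u) = β(u)^(-1) u = d^(-1) u d` (commute inside `B`).
`b = d^(-1)`. -/
def S_Conj : Prop :=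
  ∀ (E : Type) [Group E] [Finite E] (B U U' : Subgroup E), B.Normal →
    (∀ x ∈ B, ∀ y ∈ B, x * y = y * x) → Subgroup.IsComplement' B U → Subgroup.IsComplement' B U' →
    (Nat.card B).Coprime (Nat.card U) → ∃ b ∈ B, ∀ u ∈ U, b * u * b⁻¹ ∈ U'

/-- (EU) The `r'`-part modulo `A`. No hypotheses. PROOF. `A` is normal (contains the commutator subgroup), `H/A` is
abelian. `E = {g : g^m ∈ A for some m prime to r}`: a subgroup containing `A`, normal. `B = {x ∈ A : x^r = 1}`:
normal in `H`, `|B|` a power of `r`. Orders of elements divide `n`, squarefree. The index of `B` in `E` is prime to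
`r`: otherwise (Cauchy in `E/B`) there is `g ∈ E`, `g ∉ B`, `g^r ∈ B`; then `g^(r^2) = 1`, so `g^r = 1` (`n`
squarefree); as `g^m ∈ A` with `m` prime to `r`, `g ∈ A` (`g` is a power of `g^m`), `g ∈ B`, contradiction. Schur-
Zassenhaus in `↥E` (`Subgroup.exists_right_complement'_of_coprime`) gives `U`, of order prime to `r`. For `g ∈ H`:
if `r` divides `n`, `(g^r)^(n/r) = 1` and `n/r` is prime to `r`: `g^r ∈ E`; if `r` does not divide `n`, `g^n = 1`:
`g ∈ E`. -/
def S_EU : Prop :=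
  ∀ n : ℕ, Squarefree n → ∀ (H : Type) [Group H] [Finite H], (∀ x : H, x ^ n = 1) →
    ∀ A : Subgroup H, commutator H ≤ A → (∀ x ∈ A, ∀ y ∈ A, x * y = y * x) → ∀ r : ℕ, r.Prime →
    ∃ E U : Subgroup H, A ≤ E ∧ U ≤ E ∧ (∀ x ∈ A, x ^ r = 1 → x ∈ U → x = 1) ∧
      (∀ g ∈ E, ∃ b ∈ A, b ^ r = 1 ∧ ∃ u ∈ U, g = b * u) ∧ (Nat.card U).Coprime r ∧ ∀ g : H, g ^ r ∈ E

/-- (Lr) A complement of the `r`-part of `A` in `H`. Allowed hypotheses: `S_Conj`, `S_EU`. PROOF. `E, U` from
`S_EU`, `E` is normal (it contains `commutator H`). `B = {x ∈ A : x^r = 1}`, normal in `H`; `U` is a complement of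
`B` in `E`. `N` = normalizer of `U` in `H`. For `h ∈ H` the subgroup `h U h^(-1) ≤ E` is also a complement of `B` in
`E`, so by `S_Conj` in `↥E` there is `b ∈ B` with `b (h U h^(-1)) b^(-1) = U` (inclusion and equal finite orders):
`b h ∈ N`. So `H = B N`. `B0 = B ⊓ N`, normal in `N`. `N/U` is an `r`-group: `N ⊓ E = U B0`, and `g^r ∈ E` for all `g`, so
`g^(r^2) ∈ U` for `g ∈ N` (`g^r ∈ N ⊓ E = B0 U`, and `B0` is centralized by `U`: `[B0, U] ≤ B ⊓ U = ⊥`). Let `S` be a
Sylow `r`-subgroup of `N`: `N = U S`, `U ⊓ S = ⊥` (orders: `|U|` prime to `r`, `N/U` an `r`-group), `B0 ≤ S` (normal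
`r`-subgroup), `S` is abelian (hypothesis) of exponent `r` (`n` squarefree). Linear algebra over `ZMod r`: `S = B0 × S1`.
`L = U S1` (`U` is normal in `N`). If `u s1 ∈ B`, it is in `B ⊓ N = B0`, `u = b0 s1^(-1) ∈ S ⊓ U = ⊥`, so
`s1 = b0 ∈ B0 ⊓ S1 = ⊥`: `L ⊓ B = ⊥`. Every `h ∈ H` is `b n`, `n = u s = u b0 s1 = b0 u s1` (`B0` and `U` commute),
so `h ∈ B L`. -/
def S_Lr : Prop :=
  ∀ n : ℕ, Squarefree n → ∀ (H : Type) [Group H] [Finite H], (∀ x : H, x ^ n = 1) →
    (∀ p : ℕ, p.Prime → ∀ P : Subgroup H, IsPGroup p P → ∀ x ∈ P, ∀ y ∈ P, x * y = y * x) →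
    ∀ A : Subgroup H, commutator H ≤ A → (∀ x ∈ A, ∀ y ∈ A, x * y = y * x) → ∀ r : ℕ, r.Prime →
    ∃ L : Subgroup H, (∀ x ∈ A, x ^ r = 1 → x ∈ L → x = 1) ∧
      ∀ g : H, ∃ b ∈ A, b ^ r = 1 ∧ ∃ l ∈ L, g = b * l

/-- (Kin) A complement of `A`. No hypotheses. PROOF. `K` = intersection of the `L r`, `r ∈ n.primeFactors`.
`A_r = {x ∈ A : x^r = 1}`; `A` is the direct product of the `A_r` (`r ∈ n.primeFactors`; abelian of squarefree
exponent). `K ⊓ A = ⊥`: for `x ∈ K ⊓ A` the element `x^(n/r) ∈ A_r ⊓ L r = ⊥` for every `r`, and the `n/r` have gcd 1, so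
`x = 1`. The index of `L r` is `|A_r|`, so the index of `K` is at most `∏ |A_r| = |A|` (`Subgroup.index_iInf_le` or
`index_inf_le`). With `K ⊓ A = ⊥`: `|K| |A| ≤ |H|`, so `|K||A| = |H|` and `A, K` are complements
(`Subgroup.isComplement'_of_card_mul_and_disjoint`). (Another proof: induction on the set of primes.) -/
def S_Kin : Prop :=
  ∀ n : ℕ, Squarefree n → ∀ (H : Type) [Group H] [Finite H], (∀ x : H, x ^ n = 1) →
    ∀ A : Subgroup H, commutator H ≤ A → (∀ x ∈ A, ∀ y ∈ A, x * y = y * x) →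
    (∀ r : ℕ, r.Prime → ∃ L : Subgroup H, (∀ x ∈ A, x ^ r = 1 → x ∈ L → x = 1) ∧
      ∀ g : H, ∃ b ∈ A, b ^ r = 1 ∧ ∃ l ∈ L, g = b * l) →
    ∃ K : Subgroup H, Subgroup.IsComplement' A K

/-- (Spl) Splitting of a metabelian A-group of squarefree exponent. Allowed hypotheses: `S_MaxA`, `S_Lr`, `S_Kin`.
PROOF. `A` from `S_MaxA`, `K` from `S_Kin` (with `S_Lr`). `A` is normal since it contains the commutator subgroup.
`K` is abelian: commutators of elements of `K` lie in `commutator H ≤ A` and in `K`, and `A ⊓ K = ⊥`. -/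
def S_Spl : Prop :=
  ∀ n : ℕ, Squarefree n → ∀ (H : Type) [Group H] [Finite H], (∀ x : H, x ^ n = 1) →
    (∀ p : ℕ, p.Prime → ∀ P : Subgroup H, IsPGroup p P → ∀ x ∈ P, ∀ y ∈ P, x * y = y * x) →
    derivedSeries H 2 = ⊥ →
    ∃ A K : Subgroup H, A.Normal ∧ Subgroup.IsComplement' A K ∧ (∀ x ∈ A, ∀ y ∈ A, x * y = y * x) ∧
      (∀ x ∈ K, ∀ y ∈ K, x * y = y * x) ∧ ∀ g : H, (∀ x ∈ A, g * x = x * g) → g ∈ A

/-- the situation after the splitting: `G = F A K` -/
structure Setup (n p : ℕ) (G : Type) [Group G] (F A K : Subgroup G) : Prop where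
  normF : F.Normal
  neF : F ≠ ⊥
  abF : ∀ x ∈ F, ∀ y ∈ F, x * y = y * x
  expF : ∀ x ∈ F, x ^ p = 1
  minF : ∀ N : Subgroup G, N.Normal → N ≤ F → N = ⊥ ∨ N = F
  faith : ∀ g : G, (∀ x ∈ F, g * x = x * g) → g ∈ F
  abA : ∀ x ∈ A, ∀ y ∈ A, x * y = y * x
  abK : ∀ x ∈ K, ∀ y ∈ K, x * y = y * x
  nor : ∀ y ∈ K, ∀ a ∈ A, y * a * y⁻¹ ∈ A
  dec : ∀ g : G, ∃ x ∈ F, ∃ a ∈ A, ∃ y ∈ K, g = x * a * y
  uni : ∀ x ∈ F, ∀ a ∈ A, ∀ y ∈ K, x * a * y = 1 → x = 1 ∧ a = 1 ∧ y = 1
  selfc : ∀ y ∈ K, (∀ a ∈ A, y * a = a * y) → y = 1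
  expG : ∀ x : G, x ^ n = 1
  ag : ∀ r : ℕ, r.Prime → ∀ P : Subgroup G, IsPGroup r P → ∀ x ∈ P, ∀ y ∈ P, x * y = y * x

/-- the function `y ↦ χ (y a y⁻¹)` on `K` -/
def hat {G k : Type} [Group G] [Field k] (K : Subgroup G) (χ : G → kˣ) (a : G) : Additive K → kˣ :=
  fun y => χ ((Additive.toMul y : K) * a * ((Additive.toMul y : K) : G)⁻¹)

/-- the function `y ↦ ℓ (y x y⁻¹)` on `K` -/
def Theta {G k : Type} [Group G] (K : Subgroup G) (ℓ : G → k) (x : G) : Additive K → k :=
  fun y => ℓ ((Additive.toMul y : K) * x * ((Additive.toMul y : K) : G)⁻¹)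

/-- the properties of the eigenfunction: `ℓ` is additive on `F`, not 0, and an eigenvector of `A` with the
eigenvalue `χ` -/
structure Eigen (G k : Type) [Group G] [Field k] (F A : Subgroup G) (ℓ : G → k) (χ : G → kˣ) : Prop where
  add : ∀ x ∈ F, ∀ y ∈ F, ℓ (x * y) = ℓ x + ℓ y
  ne : ∃ x ∈ F, ℓ x ≠ 0
  eig : ∀ a ∈ A, ∀ x ∈ F, ℓ (a * x * a⁻¹) = (χ a : k) * ℓ x
  mul : ∀ a ∈ A, ∀ b ∈ A, χ (a * b) = χ a * χ b

/-- the instance of a commutative additive group on `Additive K`, `K` an abelian subgroup -/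
@[reducible] def addK {G : Type} [Group G] (K : Subgroup G) (h : ∀ x ∈ K, ∀ y ∈ K, x * y = y * x) :
    AddCommGroup (Additive K) :=
  { (inferInstance : AddGroup (Additive K)) with
    add_comm := fun x y => by
      apply Additive.toMul.injective
      apply Subtype.ext
      exact h _ (Additive.toMul x).2 _ (Additive.toMul y).2 }

/-- (Eig) A common eigenfunction. No hypotheses. PROOF. `V` = the `k`-space of the homomorphisms `F → k` (as
`Additive F →+ k`, `F` commutative): finite dimensional (finite `F`), not 0: `F ≠ ⊥` is a vector space over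
`ZMod p`, so there is a nonzero linear form `F → ZMod p → k` (`ZMod.castHom`, `CharP k p`). `A` acts on `V` by
`(a ℓ)(x) = ℓ (a x a^(-1))`, commuting invertible linear maps (`A` is abelian, `F` normal). Commuting linear maps
of a nonzero finite dimensional space over an algebraically closed field have a common eigenvector (induction on
the dimension: if some map is not a scalar, an eigenspace of it is invariant and smaller). Eigenvalues `χ a ≠ 0`;
`χ (a b) = χ a χ b` from `ℓ ≠ 0`; extend `ℓ` by 0 and `χ` by 1 outside of `F` resp. `A`. -/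
def S_Eig : Prop :=
  ∀ (n p : ℕ), p.Prime → ∀ (G : Type) [Group G] [Finite G] (F A K : Subgroup G), Setup n p G F A K →
    ∀ (k : Type) [Field k] [IsAlgClosed k] [CharP k p],
      ∃ (ℓ : G → k) (χ : G → kˣ), Eigen G k F A ℓ χ

/-- (Emb) The embedding. No hypotheses. PROOF. Define `ψ g = (Theta x, hat a, y)` for `g = x a y` (unique by
`dec`, `uni`). It is multiplicative: `(x a y)(x' a' y') = (x · a y x' y^(-1) a^(-1)) (a · y a' y^(-1)) (y y')`, and
`Theta (y x' y^(-1)) (z) = Theta x' (z + y)`, `Theta (a x a^(-1)) (z) = χ (z a z^(-1)) Theta x (z)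
= hat a (z) Theta x (z)` (`z a z^(-1) ∈ A`, `z x z^(-1) ∈ F`), `hat (y a y^(-1)) (z) = hat a (z + y)`, and `Theta`, `hat`
are additive, multiplicative on `F`, `A`. INJECTIVE: `{x ∈ F : Theta x = 0}` is a subgroup, normal in `G`
(invariant under `F` since `F` is abelian, under `A` and `K` by the formulas), not `F` as `ℓ ≠ 0` on `F`
(`z = 0`), so it is `⊥` by `minF`. If `ψ (x a y) = 1` then `y = 1`, `Theta x = 0`, so `x = 1`, and `hat a = 1`, so
`Theta (a x' a^(-1)) = Theta x'` for all `x' ∈ F`, so `a` centralizes `F`, `a ∈ F`, and `a = 1` by `uni`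
(`a^(-1) · a · 1 = 1`). -/
def S_Emb : Prop :=
  ∀ (n p : ℕ) (G : Type) [Group G] [Finite G] (F A K : Subgroup G) (hS : Setup n p G F A K)
    (k : Type) [Field k] (ℓ : G → k) (χ : G → kˣ), Eigen G k F A ℓ χ →
      letI := addK K hS.abK
      ∃ ψ : G →* Big (Additive K) k, Function.Injective ψ ∧
        ∀ x ∈ F, ∀ a ∈ A, ∀ y : K, ψ (x * a * y) = ⟨Theta K ℓ x, hat K χ a, Additive.ofMul y⟩

/-- (Lin) The translation part of a word is linear in the translation parts. No hypotheses. PROOF. Induction on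
`w` (`FreeGroup.induction_on`): `1`; generators and inverses of generators (`inv_m`); products by `mul_m`. `s` = a
finite set of letters. -/
def S_Lin : Prop :=
  ∀ (K k : Type) [Field k] [AddCommGroup K] (u : ℕ → Big K k) (w : FreeGroup ℕ),
    ∃ (T : (ℕ → K → k) →ₗ[k] (K → k)) (s : Finset ℕ),
      (∀ m : ℕ → K → k, (∀ i ∈ s, m i = 0) → T m = 0) ∧
      ∀ m : ℕ → K → k,
        (FreeGroup.lift (fun i => (⟨m i, (u i).a, (u i).x⟩ : Big K k)) w).m = T m ∧
        (FreeGroup.lift (fun i => (⟨m i, (u i).a, (u i).x⟩ : Big K k)) w).a = (FreeGroup.lift u w).a ∧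
        (FreeGroup.lift (fun i => (⟨m i, (u i).a, (u i).x⟩ : Big K k)) w).x = (FreeGroup.lift u w).x

/-- (Spn) An invariant subspace is everything. No hypotheses. PROOF. For `y ≠ y'` in `K` some `f ∈ A` has
`f y ≠ f y'` (otherwise by `tr`, `f (z + y) = f (z + y')` for all `z`, so `f (z + (y' - y)) = f z`, so `y' = y` by the
faithfulness). So the evaluations `f ↦ f y`, `A →* k`, are different for different `y`, hence linearly independent
(`linearIndependent_monoidHom`); therefore no nonzero functional `∑ c_y ev_y` vanishes on `A`, i.e. the `k`-span of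
`A` in `K → k` is everything (`K` finite). So `M` is closed under multiplication with all functions. `m ∈ M` with
`m y0 ≠ 0` gives the indicator function of `y0` in `M`, its translates are all indicator functions: `M = ⊤`. -/
def S_Spn : Prop :=
  ∀ (K k : Type) [Field k] [AddCommGroup K] [Finite K] (A : Subgroup (K → kˣ)),
    (∀ f ∈ A, ∀ z : K, (fun y => f (y + z)) ∈ A) →
    (∀ x : K, (∀ f ∈ A, ∀ y, f (y + x) = f y) → x = 0) →
    ∀ M : Submodule k (K → k), M ≠ ⊥ → (∀ m ∈ M, ∀ z : K, (fun y => m (y + z)) ∈ M) →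
      (∀ m ∈ M, ∀ f ∈ A, (fun y => (f y : k) * m y) ∈ M) → M = ⊤

/-- (Rep) The code of `G`. Allowed hypotheses: `S_Eig`, `S_Emb`, `S_Lin`, `S_Spn`. PROOF. `ℓ, χ` from `S_Eig`, `ψ`
from `S_Emb`. `Â = {hat a : a ∈ A}`, a subgroup (`hat a · hat b = hat (a b)`). `IsCode`: `expK` from `expG`; `expA`:
`χ (y a y^(-1))^n = χ (1) = 1`; `tr`: `hat a (y + z) = hat (z a z^(-1)) (y)`; `ag`: `f = hat a`, `f^r = 1`, so
`hat (a^r) = 1`, `a^r = 1` (`ψ` injective); `x ∈ K`, `x^r = 1`: the set `{b ∈ A : b^r = 1} · ⟨x⟩` is a subgroup (`A` abelian,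
normalized by `K`) of order a power of `r`, so abelian by `ag` of `Setup`: `x a x^(-1) = a`, `f (y + x) = f y`; `ff`:
`hat (x a x^(-1)) = hat a`, so `x a x^(-1) = a` for all `a ∈ A`, `x = 1` by `selfc`. `InVar G (GA Â)`: `ψ` maps into
`GA Â` and is injective. `InVar (GA Â) G`: `w` a law of `G`, `u : ℕ → GA Â`; `(u i).a = hat (a i)`, `(u i).x = y i`.
`T, s` from `S_Lin` for `u`. If all `m i` are `Theta (x i)`, `x i ∈ F`, the tuple is `ψ (x i · a i · y i)`, so the
value of the word is `ψ 1 = 1`: `T m = 0`, and the other two components of `lift u w` are 1 and 0. So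
`T (Pi.single i (Theta x)) = 0` (`Theta 1 = 0`), and by linearity `T (Pi.single i m) = 0` for `m` in the span `M` of
the `Theta x`, `x ∈ F`; `M = ⊤` by `S_Spn` (invariant: `Theta x (· + z) = Theta (z x z^(-1))`,
`hat a · Theta x = Theta (a x a^(-1))`; `M ≠ ⊥`). So `T = 0` on tuples with support in `s`, hence `T = 0`, and
`(lift u w).m = T (fun i => (u i).m) = 0`. -/
def S_Rep : Prop :=
  ∀ (n p : ℕ), p.Prime → ∀ (G : Type) [Group G] [Finite G] (F A K : Subgroup G), Setup n p G F A K →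
    ∀ (k : Type) [Field k] [IsAlgClosed k] [CharP k p],
      ∃ c : Code n k, InVar G (GA c.A) ∧ InVar (GA c.A) G

/-- (Cod) Codes of monolithic groups. Allowed hypotheses: `S_Fit`, `S_MinN`, `S_Hm`, `S_Spl`, `S_Rep`. PROOF. `p, F` from
`S_Fit`; `Nat.card F` is a power of `p`, prime to the index: Schur-Zassenhaus
(`Subgroup.exists_right_complement'_of_coprime`) gives a complement `H`. `S_MinN`: `F` is minimal normal. `S_Hm`:
`derivedSeries H 2 = ⊥`. `S_Spl` for `↥H` (exponent `n`, `p`-subgroups abelian: map to `G`): `A, K ≤ H`; their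
images in `G` with `F` form a `Setup` (`faith` for `F`; `selfc`: `y ∈ K` centralizes `A`, so `y ∈ A ⊓ K = ⊥`; `dec`, `uni`
from the two complements). `S_Rep`. -/
def S_Cod : Prop :=
  ∀ n : ℕ, Squarefree n → ∀ (G : Type) [Group G] [Finite G], Cls n G → Mono G →
    ∃ p ∈ n.primeFactors, ∀ (k : Type) [Field k] [IsAlgClosed k] [CharP k p],
      ∃ c : Code n k, InVar G (GA c.A) ∧ InVar (GA c.A) G

/-- (Sec) Below implies section. No hypotheses. PROOF. `φ : K₁ → K₂`. `S = {u ∈ GA A₂ : u.x ∈ range φ and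
(fun y => u.a (φ (y + z))) ∈ A₁ for all z ∈ K₁}`, a subgroup of `GA A₂`; the map `u ↦ (u.m ∘ φ, u.a ∘ φ, φ^(-1) (u.x))`
is a homomorphism `S → GA A₁` (`φ` injective; `u.a · v.a (· + u.x)` composed with `φ`). It is onto: for
`(m, f, x₁) ∈ GA A₁` we have `f ∈ A₁` (`z = 0`), take `g ∈ A₂` with `f = g ∘ φ`; `g (· + z) ∈ A₂` by the translation
invariance, so `(m', g, φ x₁) ∈ S` where `m'` extends `m` (`Function.extend φ m 0`). So `GA A₁` is a quotient of a
subgroup of `GA A₂` (`inVar_of_surjective`, `inVar_of_injective`, `InVar.trans`). -/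
def S_Sec : Prop :=
  ∀ (k K₁ K₂ : Type) [Field k] [AddCommGroup K₁] [AddCommGroup K₂] (A₁ : Subgroup (K₁ → kˣ))
    (A₂ : Subgroup (K₂ → kˣ)), (∀ f ∈ A₂, ∀ z : K₂, (fun y => f (y + z)) ∈ A₂) → Below A₁ A₂ →
    InVar (GA A₁) (GA A₂)

end Pool.Agent.Lib.MP_f44088_fb
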