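import Mathlib
import Pool.Agent.Lib.MP_f44088_al.FB3.Spec

/-! Project FB3 (MP_f44088_al): codes of monolithic groups. -/

set_option autoImplicit false

namespace Pool.Agent.Lib.MP_f44088_fb

namespace CodAux

/-- the decomposition `G = F A K` of a group in two steps -/
theorem setup_of {n p : ℕ} {G : Type} [Group G] {F H : Subgroup G} {A K : Subgroup H}
    (hFn : F.Normal) (hFne : F ≠ ⊥) (hFab : ∀ x ∈ F, ∀ y ∈ F, x * y = y * x)
    (hFe : ∀ x ∈ F, x ^ p = 1) (hmin : ∀ N : Subgroup G, N.Normal → N ≤ F → N = ⊥ ∨ N = F)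
    (hFc : ∀ g : G, (∀ x ∈ F, g * x = x * g) → g ∈ F) (hH : Subgroup.IsComplement' F H)
    (hAn : A.Normal) (hAK : Subgroup.IsComplement' A K) (hAab : ∀ x ∈ A, ∀ y ∈ A, x * y = y * x)
    (hKab : ∀ x ∈ K, ∀ y ∈ K, x * y = y * x)
    (hAs : ∀ g : H, (∀ x ∈ A, g * x = x * g) → g ∈ A) (hC : Cls n G) :
    Setup n p G F (A.map H.subtype) (K.map H.subtype) where
  normF := hFn
  neF := hFne
  abF := hFab
  expF := hFe
  minF := hmin
  faith := hFc
  abA := by
    rintro _ ⟨x, hx, rfl⟩ _ ⟨y, hy, rfl⟩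
    exact congrArg H.subtype (hAab x hx y hy)
  abK := by
    rintro _ ⟨x, hx, rfl⟩ _ ⟨y, hy, rfl⟩
    exact congrArg H.subtype (hKab x hx y hy)
  nor := by
    rintro _ ⟨y, _, rfl⟩ _ ⟨a, ha, rfl⟩
    exact ⟨y * a * y⁻¹, hAn.conj_mem a ha y, rfl⟩
  dec := by
    intro g
    obtain ⟨⟨x, h⟩, hxh⟩ := hH.2 g
    obtain ⟨⟨a, y⟩, hay⟩ := hAK.2 ⟨h, h.2⟩
    refine ⟨x, x.2, H.subtype a, ⟨a, a.2, rfl⟩, H.subtype y, ⟨y, y.2, rfl⟩, ?_⟩
    have h1 : ((a : H) : G) * ((y : H) : G) = h := congrArg H.subtype hay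
    have h2 : (x : G) * (h : G) = g := hxh
    rw [← h2, ← h1]
    simp only [Subgroup.coe_subtype, mul_assoc]
  uni := by
    rintro x hx _ ⟨a, ha, rfl⟩ _ ⟨y, hy, rfl⟩ h
    have h0 : x * ((a * y : H) : G) = 1 := by
      rw [← h]
      simp [mul_assoc]
    have h1 : ((a * y : H) : G) ∈ F := by
      have : ((a * y : H) : G) = x⁻¹ := (eq_inv_of_mul_eq_one_right h0)
      rw [this]
      exact F.inv_mem hx
    have h2 : ((a * y : H) : G) = 1 := by
      have h3 := hH.disjoint.le_bot (show ((a * y : H) : G) ∈ F ⊓ H from ⟨h1, (a * y : H).2⟩)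
      simpa using h3
    have h4 : a * y = 1 := by
      apply Subtype.ext
      exact h2
    have h5 : a = 1 := by
      have h6 : a ∈ K := by
        rw [eq_inv_of_mul_eq_one_left h4]
        exact K.inv_mem hy
      have h7 := hAK.disjoint.le_bot (show a ∈ A ⊓ K from ⟨ha, h6⟩)
      simpa using h7
    have h8 : y = 1 := by
      rw [h5, one_mul] at h4
      exact h4
    refine ⟨?_, ?_, ?_⟩
    · rw [h2, mul_one] at h0
      exact h0
    · rw [h5]
      simp
    · rw [h8]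
      simp
  selfc := by
    rintro _ ⟨y, hy, rfl⟩ h
    have h1 : y ∈ A := by
      apply hAs
      intro x hx
      apply Subtype.ext
      exact h (H.subtype x) ⟨x, hx, rfl⟩
    have h2 := hAK.disjoint.le_bot (show y ∈ A ⊓ K from ⟨h1, hy⟩)
    have h3 : y = 1 := by simpa using h2
    rw [h3]
    simp
  expG := hC.1
  ag := hC.2.2

end CodAux

theorem Cod : S_Fit → S_MinN → S_Hm → S_Spl → S_Rep → S_Cod := by
  intro hFit hMinN hHm hSpl hRep n hn G _ _ hC hM
  obtain ⟨p, hp, F, hFn, hFne, hFp, hFab, hFe, hFc, hFi⟩ := hFit n hn G hC hM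
  have hpp : p.Prime := Nat.prime_of_mem_primeFactors hp
  refine ⟨p, hp, ?_⟩
  intro k _ _ _
  have hcop : (Nat.card F).Coprime F.index := by
    haveI : Fact p.Prime := ⟨hpp⟩
    obtain ⟨j, hj⟩ := IsPGroup.iff_card.1 hFp
    rw [hj]
    exact Nat.Coprime.pow_left _ ((Nat.Prime.coprime_iff_not_dvd hpp).2 hFi)
  haveI := hFn
  obtain ⟨H, hH⟩ := Subgroup.exists_right_complement'_of_coprime hcop
  have hmin := hMinN G hM p hpp F hFn hFab hFe hFi
  have hder : derivedSeries H 2 = ⊥ := hHm G F H hFn hFne hFab hH hmin hFc hC.2.1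
  have hexp : ∀ x : H, x ^ n = 1 := by
    intro x
    apply Subtype.ext
    exact hC.1 x
  have hag : ∀ q : ℕ, q.Prime → ∀ P : Subgroup H, IsPGroup q P → ∀ x ∈ P, ∀ y ∈ P,
      x * y = y * x := by
    intro q hq P hP x hx y hy
    apply Subtype.ext
    exact hC.2.2 q hq (P.map H.subtype) (hP.map _) x ⟨x, hx, rfl⟩ y ⟨y, hy, rfl⟩
  obtain ⟨A, K, hAn, hAK, hAab, hKab, hAs⟩ := hSpl n hn H hexp hag hder
  exact hRep n p hpp G F _ _
    (CodAux.setup_of hFn hFne hFab hFe hmin hFc hH hAn hAK hAab hKab hAs hC) k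

end Pool.Agent.Lib.MP_f44088_fb
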