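import Mathlib
import Pool.Agent.Lib.MP_f44088_al.FB3.Spec

/-! Project FB3 (MP_f44088_al), piece D3: the law of derived length 3. -/

set_option autoImplicit false

open scoped commutatorElement

namespace Pool.Agent.Lib.MP_f44088_fb

namespace D3Aux

/-- the commutators of the elements of `V` -/
def comm {G : Type} [Group G] (V : Set G) : Set G := {g | ∃ a ∈ V, ∃ b ∈ V, ⁅a, b⁆ = g}

/-- invariance under conjugation -/
def CInv {G : Type} [Group G] (V : Set G) : Prop := ∀ g : G, ∀ a ∈ V, g * a * g⁻¹ ∈ V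

theorem inv_comm {G : Type} [Group G] {V : Set G} (h : CInv V) : CInv (comm V) := by
  rintro g _ ⟨a, ha, b, hb, rfl⟩
  refine ⟨g * a * g⁻¹, h g a ha, g * b * g⁻¹, h g b hb, ?_⟩
  simp only [commutatorElement_def]
  group

theorem normal_closure {G : Type} [Group G] {V : Set G} (h : CInv V) :
    (Subgroup.closure V).Normal := by
  constructor
  intro n hn g
  have h1 : Subgroup.closure V ≤ (Subgroup.closure V).comap (MulAut.conj g).toMonoidHom := by
    rw [Subgroup.closure_le]
    intro a ha
    simp only [Subgroup.coe_comap, Set.mem_preimage, SetLike.mem_coe]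
    exact Subgroup.subset_closure (h g a ha)
  exact h1 hn

theorem closure_comm {G : Type} [Group G] {V : Set G} (h : CInv V) :
    Subgroup.closure (comm V) = ⁅Subgroup.closure V, Subgroup.closure V⁆ := by
  apply le_antisymm
  · rw [Subgroup.closure_le]
    rintro _ ⟨a, ha, b, hb, rfl⟩
    exact Subgroup.commutator_mem_commutator (Subgroup.subset_closure ha)
      (Subgroup.subset_closure hb)
  · have := normal_closure (inv_comm h)
    have key : ∀ a b : G, ⁅a, b⁆ ∈ Subgroup.closure (comm V) ↔
        Commute (QuotientGroup.mk' (Subgroup.closure (comm V)) a)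
          (QuotientGroup.mk' (Subgroup.closure (comm V)) b) := by
      intro a b
      rw [← commutatorElement_eq_one_iff_commute, ← map_commutatorElement]
      exact (QuotientGroup.eq_one_iff _).symm
    have h1 : ∀ a ∈ V, ∀ b ∈ Subgroup.closure V,
        Commute (QuotientGroup.mk' (Subgroup.closure (comm V)) a)
          (QuotientGroup.mk' (Subgroup.closure (comm V)) b) := by
      intro a ha b hb
      induction hb using Subgroup.closure_induction with
      | mem x hx => exact (key a x).1 (Subgroup.subset_closure ⟨a, ha, x, hx, rfl⟩)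
      | one => rw [map_one]; exact Commute.one_right _
      | mul x y _ _ hx hy => rw [map_mul]; exact hx.mul_right hy
      | inv x _ hx => rw [map_inv]; exact hx.inv_right
    rw [Subgroup.commutator_le]
    intro a ha b hb
    rw [key]
    induction ha using Subgroup.closure_induction with
    | mem x hx => exact h1 x hx b hb
    | one => rw [map_one]; exact Commute.one_left _
    | mul x y _ _ hx hy => rw [map_mul]; exact hx.mul_left hy
    | inv x _ hx => rw [map_inv]; exact hx.inv_left

/-- the values of the `j`-th commutator word -/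
def V (G : Type) [Group G] : ℕ → Set G
  | 0 => Set.univ
  | j + 1 => comm (V G j)

theorem inv_V (G : Type) [Group G] : ∀ j, CInv (V G j)
  | 0 => fun _ _ _ => Set.mem_univ _
  | j + 1 => inv_comm (inv_V G j)

theorem closure_V (G : Type) [Group G] : ∀ j, Subgroup.closure (V G j) = derivedSeries G j
  | 0 => by
    rw [derivedSeries_zero]
    exact Subgroup.closure_univ
  | j + 1 => by
    rw [derivedSeries_succ, ← closure_V G j]
    exact closure_comm (inv_V G j)

/-- the word -/
def w : FreeGroup ℕ :=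
  ⁅⁅⁅FreeGroup.of 0, FreeGroup.of 1⁆, ⁅FreeGroup.of 2, FreeGroup.of 3⁆⁆,
    ⁅⁅FreeGroup.of 4, FreeGroup.of 5⁆, ⁅FreeGroup.of 6, FreeGroup.of 7⁆⁆⁆

theorem lift_w {G : Type} [Group G] (f : ℕ → G) :
    FreeGroup.lift f w = ⁅⁅⁅f 0, f 1⁆, ⁅f 2, f 3⁆⁆, ⁅⁅f 4, f 5⁆, ⁅f 6, f 7⁆⁆⁆ := by
  simp only [w, map_commutatorElement, FreeGroup.lift_apply_of]

end D3Aux

open D3Aux in
theorem D3 : S_D3 := by
  refine ⟨w, ?_⟩
  intro G _
  rw [← closure_V G 3, Subgroup.closure_eq_bot_iff]
  constructor
  · intro h g hg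
    obtain ⟨a, ⟨a1, ⟨x0, _, x1, _, rfl⟩, a2, ⟨x2, _, x3, _, rfl⟩, rfl⟩,
      b, ⟨b1, ⟨x4, _, x5, _, rfl⟩, b2, ⟨x6, _, x7, _, rfl⟩, rfl⟩, rfl⟩ := hg
    have h1 := h (fun i => if i = 0 then x0 else if i = 1 then x1 else if i = 2 then x2 else
      if i = 3 then x3 else if i = 4 then x4 else if i = 5 then x5 else if i = 6 then x6 else x7)
    rw [lift_w] at h1
    simpa using h1
  · intro h f
    rw [lift_w]
    apply h
    exact ⟨_, ⟨_, ⟨f 0, trivial, f 1, trivial, rfl⟩, _, ⟨f 2, trivial, f 3, trivial, rfl⟩, rfl⟩,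
      _, ⟨_, ⟨f 4, trivial, f 5, trivial, rfl⟩, _, ⟨f 6, trivial, f 7, trivial, rfl⟩, rfl⟩, rfl⟩

end Pool.Agent.Lib.MP_f44088_fb
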