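import Pool.Agent.Lib.MP_f44088_al.FB3.Spec2
import Mathlib

/-! Project FB3 (MP_f44088_al), module Dual. -/

set_option autoImplicit false

namespace Pool.Agent.Lib.MP_f44088_fb

namespace DualAux

theorem exists_eval (q : ℕ) (hq : q.Prime) (K : Type) [AddCommGroup K] [Finite K]
    (L : (K →+ ZMod q) →ₗ[ZMod q] ZMod q) : ∃ x : K, ∀ μ : K →+ ZMod q, L μ = μ x := by
  have : Fact q.Prime := ⟨hq⟩
  have : NeZero q := ⟨hq.ne_zero⟩
  have : Finite (K →+ ZMod q) :=
    Finite.of_injective (fun f : K →+ ZMod q => (f : K → ZMod q)) DFunLike.coe_injective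
  have : Module.Finite (ZMod q) (K →+ ZMod q) := Module.Finite.of_finite
  let ev : K →+ Module.Dual (ZMod q) (K →+ ZMod q) :=
    { toFun := fun x =>
        { toFun := fun μ => μ x
          map_add' := fun a b => rfl
          map_smul' := fun c a => rfl }
      map_zero' := by
        ext μ
        exact map_zero μ
      map_add' := fun x y => by
        ext μ
        exact map_add μ x y }
  have hev : ∀ (x : K) (μ : K →+ ZMod q), ev x μ = μ x := fun x μ => rfl
  set W : Submodule (ZMod q) (Module.Dual (ZMod q) (K →+ ZMod q)) :=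
    AddSubgroup.toZModSubmodule q ev.range with hW
  have hmem : ∀ x, ev x ∈ W := by
    intro x
    rw [hW, AddSubgroup.mem_toZModSubmodule]
    exact ⟨x, rfl⟩
  have htop : W = ⊤ := by
    by_contra hne
    obtain ⟨f, hf0, hf⟩ := Submodule.exists_le_ker_of_lt_top W (lt_top_iff_ne_top.mpr hne)
    apply hf0
    have h1 : (Module.evalEquiv (ZMod q) (K →+ ZMod q)).symm f = 0 := by
      apply AddMonoidHom.ext
      intro x
      have h2 : f (ev x) = 0 := hf (hmem x)
      rw [← Module.apply_evalEquiv_symm_apply] at h2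
      rw [hev] at h2
      simpa using h2
    have h3 := (Module.evalEquiv (ZMod q) (K →+ ZMod q)).apply_symm_apply f
    rw [h1, map_zero] at h3
    exact h3.symm
  have hL : L ∈ W := by
    rw [htop]
    trivial
  rw [hW, AddSubgroup.mem_toZModSubmodule] at hL
  obtain ⟨x, hx⟩ := hL
  exact ⟨x, fun μ => by rw [← hx, hev]⟩

theorem exists_coef (n : ℕ) (hn : Squarefree n) :
    ∃ c : ℕ → ℕ, ∀ q ∈ n.primeFactors, ((c q : ℕ) : ZMod q) = 1 ∧
      ∀ q' ∈ n.primeFactors, q' ≠ q → ((c q : ℕ) : ZMod q') = 0 := by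
  have key : ∀ q : ℕ, ∃ c : ℕ, q ∈ n.primeFactors → ((c : ℕ) : ZMod q) = 1 ∧
      ∀ q' ∈ n.primeFactors, q' ≠ q → ((c : ℕ) : ZMod q') = 0 := by
    intro q
    by_cases hq : q ∈ n.primeFactors
    · have hqp := Nat.prime_of_mem_primeFactors hq
      have hqd := Nat.dvd_of_mem_primeFactors hq
      have hmul : q * (n / q) = n := Nat.mul_div_cancel' hqd
      have hco : Nat.Coprime q (n / q) := by
        apply Nat.coprime_of_squarefree_mul
        rw [hmul]
        exact hn
      refine ⟨(Nat.chineseRemainder hco 1 0 : ℕ), fun _ => ⟨?_, ?_⟩⟩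
      · have h := (Nat.chineseRemainder hco 1 0).2.1
        have h2 := (ZMod.natCast_eq_natCast_iff _ _ q).2 h
        simpa using h2
      · intro q' hq' hne
        have hq'p := Nat.prime_of_mem_primeFactors hq'
        have hq'd := Nat.dvd_of_mem_primeFactors hq'
        have h := (Nat.chineseRemainder hco 1 0).2.2
        have hdv : q' ∣ n / q := by
          rw [← hmul] at hq'd
          rcases (Nat.Prime.dvd_mul hq'p).1 hq'd with h1 | h1
          · exact absurd ((Nat.prime_dvd_prime_iff_eq hq'p hqp).1 h1) hne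
          · exact h1
        rw [ZMod.natCast_eq_zero_iff]
        exact hdv.trans ((Nat.modEq_zero_iff_dvd).1 h)
    · exact ⟨0, fun h => absurd h hq⟩
  choose c hc using key
  exact ⟨c, hc⟩

theorem exists_functional' (q : ℕ) [Fact q.Prime] (T : Type) [AddCommGroup T]
    [Module (ZMod q) T] (w : T) (hw : w ≠ 0) : ∃ f : T →+ ZMod q, f w ≠ 0 := by
  by_contra hcon
  push Not at hcon
  apply hw
  rw [← Module.forall_dual_apply_eq_zero_iff (ZMod q) w]
  intro f
  exact hcon f.toAddMonoidHom

theorem exists_functional (q : ℕ) [Fact q.Prime] (T : Type) [AddCommGroup T]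
    (hT : ∀ x : T, q • x = 0) (w : T) (hw : w ≠ 0) : ∃ f : T →+ ZMod q, f w ≠ 0 :=
  @exists_functional' q _ T _ (AddCommGroup.zmodModule hT) w hw

theorem eq_zero (n : ℕ) (hn : Squarefree n) (K : Type) [AddCommGroup K]
    (hK : ∀ x : K, n • x = 0) (z : K)
    (hz : ∀ q ∈ n.primeFactors, ∀ μ : K →+ ZMod q, μ z = 0) : z = 0 := by
  by_contra hne
  have hord : addOrderOf z ∣ n := addOrderOf_dvd_of_nsmul_eq_zero (hK z)
  have hn0 : n ≠ 0 := hn.ne_zero
  have hord1 : addOrderOf z ≠ 1 := fun h => hne (AddMonoid.addOrderOf_eq_one_iff.1 h)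
  obtain ⟨q, hqp, hqd⟩ := Nat.exists_prime_and_dvd hord1
  have hqn : q ∣ n := hqd.trans hord
  have hmem : q ∈ n.primeFactors := Nat.mem_primeFactors.2 ⟨hqp, hqn, hn0⟩
  have hmul : q * (n / q) = n := Nat.mul_div_cancel' hqn
  have hw : (n / q) • z ≠ 0 := by
    intro h
    have h1 : addOrderOf z ∣ n / q := addOrderOf_dvd_of_nsmul_eq_zero h
    have h2 : q * q ∣ n := by
      rw [← hmul]
      exact Nat.mul_dvd_mul_left q (hqd.trans h1)
    have h3 := hn q h2
    exact hqp.not_isUnit h3
  have : Fact q.Prime := ⟨hqp⟩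
  let T : AddSubgroup K := (nsmulAddMonoidHom q : K →+ K).ker
  have hT : ∀ x : T, q • x = 0 := by
    intro x
    apply Subtype.ext
    exact x.2
  let P : K →+ T := (nsmulAddMonoidHom (n / q) : K →+ K).codRestrict T (by
    intro x
    show q • ((n / q) • x) = 0
    rw [← mul_nsmul', hmul]
    exact hK x)
  have hPz : P z ≠ 0 := by
    intro h
    exact hw (congrArg Subtype.val h)
  obtain ⟨f, hf⟩ := exists_functional q T hT (P z) hPz
  exact hf (hz q hmem (f.comp P))

end DualAux

theorem Dual : S_Dual := by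
  intro n hn K₁ K₂ _ _ _ _ h1 h2 π
  obtain ⟨c, hc⟩ := DualAux.exists_coef n hn
  have ex : ∀ y : K₁, ∃ x : K₂, ∀ q ∈ n.primeFactors, ∀ μ : K₂ →+ ZMod q, (π q μ) y = μ x := by
    intro y
    have ex1 : ∀ q : ℕ, ∃ x : K₂, q ∈ n.primeFactors → ∀ μ : K₂ →+ ZMod q, (π q μ) y = μ x := by
      intro q
      by_cases hq : q ∈ n.primeFactors
      · let L : (K₂ →+ ZMod q) →ₗ[ZMod q] ZMod q :=
          { toFun := fun μ => (π q μ) y
            map_add' := fun a b => by
              rw [map_add]
              rfl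
            map_smul' := fun a b => by
              rw [map_smul]
              rfl }
        obtain ⟨x, hx⟩ := DualAux.exists_eval q (Nat.prime_of_mem_primeFactors hq) K₂ L
        exact ⟨x, fun _ μ => hx μ⟩
      · exact ⟨0, fun h => absurd h hq⟩
    choose x hx using ex1
    refine ⟨∑ q ∈ n.primeFactors, c q • x q, ?_⟩
    intro q hq μ
    rw [map_sum, Finset.sum_eq_single q]
    · rw [map_nsmul, nsmul_eq_mul, (hc q hq).1, one_mul]
      exact hx q hq μ
    · intro q' hq' hne
      rw [map_nsmul, nsmul_eq_mul, (hc q' hq').2 q hq hne.symm, zero_mul]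
    · intro h
      exact absurd hq h
  choose φ hφ using ex
  refine ⟨AddMonoidHom.mk' φ ?_, ?_⟩
  · intro a b
    have h := DualAux.eq_zero n hn K₂ h2 (φ (a + b) - (φ a + φ b)) (by
      intro q hq μ
      rw [map_sub, map_add, ← hφ (a + b) q hq, ← hφ a q hq, ← hφ b q hq, map_add, sub_self])
    exact sub_eq_zero.1 h
  · intro q hq μ y
    exact hφ y q hq μ

end Pool.Agent.Lib.MP_f44088_fb
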