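import Pool.Agent.Lib.MP_f44088_al.FB3.Spec

/-! Project FB3: a common eigenfunction. -/

set_option autoImplicit false

namespace Pool.Agent.Lib.MP_f44088_fb

namespace EigAux

/-- the operator of conjugation by `a` on functions -/
def T (k : Type) [Field k] {G : Type} [Group G] (a : G) : (G → k) →ₗ[k] (G → k) :=
  LinearMap.funLeft k k (fun x => a * x * a⁻¹)

theorem T_apply {k : Type} [Field k] {G : Type} [Group G] (a : G) (f : G → k) (x : G) :
    T k a f x = f (a * x * a⁻¹) := rfl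

theorem T_comm {k : Type} [Field k] {G : Type} [Group G] (a b : G) (h : a * b = b * a) (f : G → k) :
    T k a (T k b f) = T k b (T k a f) := by
  funext x
  rw [T_apply, T_apply, T_apply, T_apply]
  congr 1
  calc b * (a * x * a⁻¹) * b⁻¹ = (b * a) * x * (b * a)⁻¹ := by group
    _ = (a * b) * x * (a * b)⁻¹ := by rw [h]
    _ = a * (b * x * b⁻¹) * a⁻¹ := by group

/-- the additive functions on `F`, extended by 0 -/
def V (k : Type) [Field k] {G : Type} [Group G] (F : Subgroup G) : Submodule k (G → k) where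
  carrier := {f | (∀ x ∈ F, ∀ y ∈ F, f (x * y) = f x + f y) ∧ ∀ x, x ∉ F → f x = 0}
  add_mem' := by
    rintro f g ⟨hf1, hf2⟩ ⟨hg1, hg2⟩
    refine ⟨fun x hx y hy => ?_, fun x hx => ?_⟩
    · rw [Pi.add_apply, Pi.add_apply, Pi.add_apply, hf1 x hx y hy, hg1 x hx y hy]
      ring
    · rw [Pi.add_apply, hf2 x hx, hg2 x hx, add_zero]
  zero_mem' := ⟨fun _ _ _ _ => (add_zero (0 : k)).symm, fun _ _ => rfl⟩
  smul_mem' := by
    rintro c f ⟨hf1, hf2⟩
    refine ⟨fun x hx y hy => ?_, fun x hx => ?_⟩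
    · rw [Pi.smul_apply, Pi.smul_apply, Pi.smul_apply, hf1 x hx y hy, smul_add]
    · rw [Pi.smul_apply, hf2 x hx, smul_zero]

theorem T_mem {k : Type} [Field k] {G : Type} [Group G] {F : Subgroup G} (hF : F.Normal) (a : G)
    {f : G → k} (hf : f ∈ V k F) : T k a f ∈ V k F := by
  obtain ⟨h1, h2⟩ := hf
  refine ⟨fun x hx y hy => ?_, fun x hx => ?_⟩
  · rw [T_apply, T_apply, T_apply, ← h1 _ (hF.conj_mem x hx a) _ (hF.conj_mem y hy a)]
    congr 1
    group
  · rw [T_apply]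
    refine h2 _ fun h => hx ?_
    have h3 := hF.conj_mem _ h a⁻¹
    have h4 : a⁻¹ * (a * x * a⁻¹) * a⁻¹⁻¹ = x := by group
    rwa [h4] at h3

theorem exists_form {k : Type} [Field k] {B : Type} [AddCommGroup B] {p : ℕ} (hp : p.Prime)
    [CharP k p] (hz : ∀ x : B, p • x = 0) {x0 : B} (hx0 : x0 ≠ 0) :
    ∃ f : B → k, (∀ x y, f (x + y) = f x + f y) ∧ f x0 ≠ 0 := by
  have hpf : Fact p.Prime := ⟨hp⟩
  have iM : Module (ZMod p) B := AddCommGroup.zmodModule hz
  obtain ⟨φ, hφ⟩ : ∃ φ : B →ₗ[ZMod p] ZMod p, φ x0 ≠ 0 := by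
    by_contra hcon
    push Not at hcon
    exact hx0 ((Module.forall_dual_apply_eq_zero_iff (ZMod p) x0).1 hcon)
  have hinj : Function.Injective (ZMod.castHom (dvd_refl p) k) := RingHom.injective _
  refine ⟨fun x => ZMod.castHom (dvd_refl p) k (φ x), fun x y => ?_, fun h => hφ (hinj ?_)⟩
  · change ZMod.castHom (dvd_refl p) k (φ (x + y)) =
      ZMod.castHom (dvd_refl p) k (φ x) + ZMod.castHom (dvd_refl p) k (φ y)
    rw [map_add, map_add]
  · rw [map_zero]
    exact h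

theorem V_ne {k : Type} [Field k] {G : Type} [Group G] {F : Subgroup G} {p : ℕ} (hp : p.Prime)
    [CharP k p] (hF : F ≠ ⊥) (hab : ∀ x ∈ F, ∀ y ∈ F, x * y = y * x) (hexp : ∀ x ∈ F, x ^ p = 1) :
    V k F ≠ ⊥ := by
  classical
  let iA : AddCommGroup (Additive F) := addK F hab
  have hz : ∀ x : Additive F, p • x = 0 := by
    intro x
    apply Additive.toMul.injective
    exact Subtype.ext (hexp _ (Additive.toMul x).2)
  obtain ⟨x0, hx0, hne⟩ : ∃ x ∈ F, x ≠ 1 := by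
    by_contra hcon
    push Not at hcon
    exact hF ((Subgroup.eq_bot_iff_forall F).2 hcon)
  have hv : (Additive.ofMul (⟨x0, hx0⟩ : F) : Additive F) ≠ 0 := by
    intro h
    exact hne (congrArg Subtype.val (Additive.ofMul.injective h))
  obtain ⟨φ, hφ, hφ0⟩ := exists_form (k := k) hp hz hv
  obtain ⟨f, hf⟩ : ∃ f : G → k, f = fun x => if h : x ∈ F then φ (Additive.ofMul (⟨x, h⟩ : F)) else 0 :=
    ⟨_, rfl⟩
  have hfF : ∀ x (hx : x ∈ F), f x = φ (Additive.ofMul (⟨x, hx⟩ : F)) := by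
    intro x hx
    rw [hf]
    exact dif_pos hx
  have hfV : f ∈ V k F := by
    refine ⟨fun x hx y hy => ?_, fun x hx => ?_⟩
    · have e4 : (Additive.ofMul (⟨x * y, F.mul_mem hx hy⟩ : F) : Additive F) =
          Additive.ofMul (⟨x, hx⟩ : F) + Additive.ofMul (⟨y, hy⟩ : F) := rfl
      rw [hfF _ (F.mul_mem hx hy), hfF x hx, hfF y hy, e4, hφ]
    · rw [hf]
      exact dif_neg hx
  intro hbot
  have h0 : f = 0 := (Submodule.eq_bot_iff _).1 hbot f hfV
  refine hφ0 ?_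
  rw [← hfF x0 hx0, h0]
  rfl

theorem common {k : Type} [Field k] [IsAlgClosed k] {G : Type} [Group G] [Finite G] {F A : Subgroup G}
    (hF : F.Normal) (hA : ∀ x ∈ A, ∀ y ∈ A, x * y = y * x) (hV : V k F ≠ ⊥) :
    ∃ w ∈ V k F, w ≠ 0 ∧ ∀ a ∈ A, ∃ μ : k, T k a w = μ • w := by
  obtain ⟨W, ⟨hW1, hW2, hW3⟩, hmin⟩ := (measure (fun W : Submodule k (G → k) => Module.finrank k W)).wf.has_min
    {W | W ≠ ⊥ ∧ W ≤ V k F ∧ ∀ a ∈ A, ∀ f ∈ W, T k a f ∈ W}
    ⟨V k F, hV, le_rfl, fun a _ f hf => T_mem hF a hf⟩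
  have key : ∀ a ∈ A, ∃ μ : k, ∀ f ∈ W, T k a f = μ • f := by
    intro a ha
    have hn : Nontrivial W := Submodule.nontrivial_iff_ne_bot.2 hW1
    obtain ⟨μ, hμ⟩ := Module.End.exists_eigenvalue ((T k a).restrict (hW3 a ha))
    obtain ⟨v, hv⟩ := hμ.exists_hasEigenvector
    let E : Submodule k (G → k) := W ⊓ LinearMap.ker (T k a - μ • LinearMap.id)
    have hE : ∀ f, f ∈ E ↔ f ∈ W ∧ T k a f = μ • f := by
      intro f
      rw [Submodule.mem_inf, LinearMap.mem_ker, LinearMap.sub_apply, sub_eq_zero]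
      exact Iff.rfl
    have hvE : (v : G → k) ∈ E := by
      rw [hE]
      refine ⟨v.2, ?_⟩
      have h1 := hv.apply_eq_smul
      exact congrArg Subtype.val h1
    have hEne : E ≠ ⊥ := by
      intro hbot
      rw [hbot, Submodule.mem_bot] at hvE
      exact hv.2 (Subtype.ext hvE)
    have hEW : E ≤ W := inf_le_left
    have hEi : ∀ b ∈ A, ∀ f ∈ E, T k b f ∈ E := by
      intro b hb f hf
      rw [hE] at hf ⊢
      refine ⟨hW3 b hb f hf.1, ?_⟩
      rw [T_comm a b (hA a ha b hb), hf.2, map_smul]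
    have hle : ¬ (Module.finrank k E < Module.finrank k W) :=
      hmin E ⟨hEne, hEW.trans hW2, hEi⟩
    have hEq : E = W := Submodule.eq_of_le_of_finrank_le hEW (not_lt.1 hle)
    refine ⟨μ, fun f hf => ?_⟩
    rw [← hEq, hE] at hf
    exact hf.2
  obtain ⟨w, hw, hw0⟩ := Submodule.exists_mem_ne_zero_of_ne_bot hW1
  refine ⟨w, hW2 hw, hw0, fun a ha => ?_⟩
  obtain ⟨μ, hμ⟩ := key a ha
  exact ⟨μ, hμ w hw⟩

end EigAux

theorem Eig : S_Eig := by
  intro n p hp G _ _ F A K hS k _ _ _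
  classical
  obtain ⟨w, hw, hw0, hT⟩ := EigAux.common (k := k) (F := F) (A := A) hS.normF hS.abA
    (EigAux.V_ne hp hS.neF hS.abF hS.expF)
  obtain ⟨hadd, hout⟩ := hw
  obtain ⟨x0, hx0, hwx⟩ : ∃ x ∈ F, w x ≠ 0 := by
    by_contra hcon
    push Not at hcon
    refine hw0 (funext fun x => ?_)
    by_cases hx : x ∈ F
    · exact hcon x hx
    · exact hout x hx
  choose! μ hμ using hT
  have hμ' : ∀ a ∈ A, ∀ x, w (a * x * a⁻¹) = μ a * w x := fun a ha x => congrFun (hμ a ha) x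
  have hne : ∀ a ∈ A, μ a ≠ 0 := by
    intro a ha h0
    have h1 := hμ' a ha (a⁻¹ * x0 * a)
    have h2 : a * (a⁻¹ * x0 * a) * a⁻¹ = x0 := by group
    rw [h2, h0, zero_mul] at h1
    exact hwx h1
  refine ⟨w, fun a => if h : a ∈ A then Units.mk0 (μ a) (hne a h) else 1, hadd, ⟨x0, hx0, hwx⟩, ?_, ?_⟩
  · intro a ha x _
    rw [dif_pos ha, Units.val_mk0]
    exact hμ' a ha x
  · intro a ha b hb
    rw [dif_pos ha, dif_pos hb, dif_pos (A.mul_mem ha hb)]
    apply Units.ext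
    rw [Units.val_mk0, Units.val_mul, Units.val_mk0, Units.val_mk0]
    have h1 := hμ' (a * b) (A.mul_mem ha hb) x0
    have h2 : a * b * x0 * (a * b)⁻¹ = a * (b * x0 * b⁻¹) * a⁻¹ := by group
    rw [h2, hμ' a ha, hμ' b hb, ← mul_assoc] at h1
    exact (mul_right_cancel₀ hwx h1).symm

end Pool.Agent.Lib.MP_f44088_fb
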