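import Mathlib
import Pool.Agent.Lib.MP_f44088_al.FB3.Spec

/-! Project FB3 (MP_f44088_al), module Emb: the embedding of `G = F A K` into the affine group `Big`. -/

set_option autoImplicit false

namespace Pool.Agent.Lib.MP_f44088_fb

namespace EmbAux

variable {n p : ℕ} {G : Type} [Group G] {F A K : Subgroup G} {k : Type} [Field k]
  {ℓ : G → k} {χ : G → kˣ}

/-- uniqueness of the decomposition -/
theorem uniq (hS : Setup n p G F A K) {x x' a a' y y' : G} (hx : x ∈ F) (hx' : x' ∈ F)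
    (ha : a ∈ A) (ha' : a' ∈ A) (hy : y ∈ K) (hy' : y' ∈ K)
    (h : x * a * y = x' * a' * y') : x = x' ∧ a = a' ∧ y = y' := by
  have ht : y * y'⁻¹ ∈ K := K.mul_mem hy (K.inv_mem hy')
  have h1 := hS.uni (x'⁻¹ * x) (F.mul_mem (F.inv_mem hx') hx)
    (a * ((y * y'⁻¹) * a'⁻¹ * (y * y'⁻¹)⁻¹)) (A.mul_mem ha (hS.nor _ ht _ (A.inv_mem ha')))
    (y * y'⁻¹) ht (by
      have e : x'⁻¹ * x * (a * ((y * y'⁻¹) * a'⁻¹ * (y * y'⁻¹)⁻¹)) * (y * y'⁻¹) =
          x'⁻¹ * (x * a * y) * y'⁻¹ * a'⁻¹ := by group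
      rw [e, h]
      group)
  obtain ⟨h2, h3, h4⟩ := h1
  rw [h4] at h3
  refine ⟨(inv_mul_eq_one.mp h2).symm, ?_, mul_inv_eq_one.mp h4⟩
  have h5 : a * a'⁻¹ = 1 := by simpa using h3
  exact mul_inv_eq_one.mp h5

theorem l_one (hE : Eigen G k F A ℓ χ) : ℓ 1 = 0 := by
  have h := hE.add 1 F.one_mem 1 F.one_mem
  rw [mul_one] at h
  simpa using h

theorem l_inv (hE : Eigen G k F A ℓ χ) {x : G} (hx : x ∈ F) : ℓ x⁻¹ = -ℓ x := by
  have h := hE.add x hx x⁻¹ (F.inv_mem hx)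
  rw [mul_inv_cancel, l_one hE] at h
  exact (neg_eq_of_add_eq_zero_right h.symm).symm

theorem conjF (hS : Setup n p G F A K) (g : G) {x : G} (hx : x ∈ F) : g * x * g⁻¹ ∈ F :=
  hS.normF.conj_mem x hx g

/-- `ℓ` of a conjugate of a product -/
theorem l_mul (hS : Setup n p G F A K) (hE : Eigen G k F A ℓ χ) (z : G) {x x' : G} (hx : x ∈ F)
    (hx' : x' ∈ F) : ℓ (z * (x * x') * z⁻¹) = ℓ (z * x * z⁻¹) + ℓ (z * x' * z⁻¹) := by
  rw [← hE.add _ (conjF hS z hx) _ (conjF hS z hx')]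
  congr 1
  group

/-- `ℓ` of a conjugate by `z a` -/
theorem l_eig (hS : Setup n p G F A K) (hE : Eigen G k F A ℓ χ) {z : G} (hz : z ∈ K) {a x : G}
    (ha : a ∈ A) (hx : x ∈ F) :
    ℓ (z * (a * x * a⁻¹) * z⁻¹) = (χ (z * a * z⁻¹) : k) * ℓ (z * x * z⁻¹) := by
  rw [← hE.eig _ (hS.nor z hz a ha) _ (conjF hS z hx)]
  congr 1
  group

/-- `χ` of a conjugate of a product -/
theorem c_mul (hS : Setup n p G F A K) (hE : Eigen G k F A ℓ χ) {z : G} (hz : z ∈ K) {a b : G}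
    (ha : a ∈ A) (hb : b ∈ A) :
    χ (z * (a * b) * z⁻¹) = χ (z * a * z⁻¹) * χ (z * b * z⁻¹) := by
  rw [← hE.mul _ (hS.nor z hz a ha) _ (hS.nor z hz b hb)]
  congr 1
  group

/-- the kernel of `Theta` on `F` -/
def kerT (hS : Setup n p G F A K) (hE : Eigen G k F A ℓ χ) : Subgroup G where
  carrier := {x | x ∈ F ∧ ∀ z ∈ K, ℓ (z * x * z⁻¹) = 0}
  mul_mem' := by
    intro x x' hx hx'
    refine ⟨F.mul_mem hx.1 hx'.1, fun z hz => ?_⟩
    rw [l_mul hS hE z hx.1 hx'.1, hx.2 z hz, hx'.2 z hz, add_zero]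
  one_mem' := by
    refine ⟨F.one_mem, fun z _ => ?_⟩
    rw [mul_one, mul_inv_cancel, l_one hE]
  inv_mem' := by
    intro x hx
    refine ⟨F.inv_mem hx.1, fun z hz => ?_⟩
    have e : z * x⁻¹ * z⁻¹ = (z * x * z⁻¹)⁻¹ := by group
    rw [e, l_inv hE (conjF hS z hx.1), hx.2 z hz, neg_zero]

theorem mem_kerT (hS : Setup n p G F A K) (hE : Eigen G k F A ℓ χ) (x : G) :
    x ∈ kerT hS hE ↔ x ∈ F ∧ ∀ z ∈ K, ℓ (z * x * z⁻¹) = 0 := Iff.rfl

theorem kerT_normal (hS : Setup n p G F A K) (hE : Eigen G k F A ℓ χ) : (kerT hS hE).Normal := by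
  constructor
  intro m hm g
  obtain ⟨x, hx, a, ha, y, hy, rfl⟩ := hS.dec g
  have hm' := (mem_kerT hS hE m).mp hm
  have h1 : y * m * y⁻¹ ∈ F := conjF hS y hm'.1
  have h2 : a * (y * m * y⁻¹) * a⁻¹ ∈ F := conjF hS a h1
  have e : x * a * y * m * (x * a * y)⁻¹ = a * (y * m * y⁻¹) * a⁻¹ := by
    have e1 : x * a * y * m * (x * a * y)⁻¹ = x * (a * (y * m * y⁻¹) * a⁻¹) * x⁻¹ := by group
    rw [e1, hS.abF x hx _ h2, mul_inv_cancel_right]
  rw [e, mem_kerT]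
  refine ⟨h2, fun z hz => ?_⟩
  rw [l_eig hS hE hz ha h1]
  have e2 : z * (y * m * y⁻¹) * z⁻¹ = (z * y) * m * (z * y)⁻¹ := by group
  rw [e2, hm'.2 _ (K.mul_mem hz hy), mul_zero]

theorem kerT_bot (hS : Setup n p G F A K) (hE : Eigen G k F A ℓ χ) : kerT hS hE = ⊥ := by
  rcases hS.minF (kerT hS hE) (kerT_normal hS hE) (fun x hx => hx.1) with h | h
  · exact h
  · exfalso
    obtain ⟨x, hx, hx0⟩ := hE.ne
    have h1 : x ∈ kerT hS hE := by rw [h]; exact hx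
    have h2 := h1.2 1 K.one_mem
    apply hx0
    simpa using h2

/-- the value of the embedding on a triple -/
def tri (K : Subgroup G) (ℓ : G → k) (χ : G → kˣ) (x a : G) (y : K) : Big (Additive K) k :=
  ⟨Theta K ℓ x, hat K χ a, Additive.ofMul y⟩

theorem tri_mul (hS : Setup n p G F A K) (hE : Eigen G k F A ℓ χ) {x a x' a' : G} (y y' : K)
    (hx : x ∈ F) (ha : a ∈ A) (hx' : x' ∈ F) (ha' : a' ∈ A) :
    letI := addK K hS.abK
    tri K ℓ χ (x * (a * ((y : G) * x' * (y : G)⁻¹) * a⁻¹)) (a * ((y : G) * a' * (y : G)⁻¹)) (y * y') =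
      tri K ℓ χ x a y * tri K ℓ χ x' a' y' := by
  letI := addK K hS.abK
  have h1 : (y : G) * x' * (y : G)⁻¹ ∈ F := conjF hS y hx'
  have h2 : a * ((y : G) * x' * (y : G)⁻¹) * a⁻¹ ∈ F := conjF hS a h1
  apply Big.ext
  · funext z
    rw [Big.mul_m]
    change ℓ ((Additive.toMul z : K) * (x * (a * ((y : G) * x' * (y : G)⁻¹) * a⁻¹)) *
        ((Additive.toMul z : K) : G)⁻¹) =
      ℓ ((Additive.toMul z : K) * x * ((Additive.toMul z : K) : G)⁻¹) +
        (χ ((Additive.toMul z : K) * a * ((Additive.toMul z : K) : G)⁻¹) : k) *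
        ℓ ((((Additive.toMul z : K) * y : K) : G) * x' * (((Additive.toMul z : K) * y : K) : G)⁻¹)
    rw [l_mul hS hE _ hx h2, l_eig hS hE (Additive.toMul z : K).2 ha h1]
    congr 3
    rw [Subgroup.coe_mul]
    group
  · funext z
    rw [Big.mul_a]
    change χ ((Additive.toMul z : K) * (a * ((y : G) * a' * (y : G)⁻¹)) *
        ((Additive.toMul z : K) : G)⁻¹) =
      χ ((Additive.toMul z : K) * a * ((Additive.toMul z : K) : G)⁻¹) *
        χ ((((Additive.toMul z : K) * y : K) : G) * a' * (((Additive.toMul z : K) * y : K) : G)⁻¹)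
    rw [c_mul hS hE (Additive.toMul z : K).2 ha (hS.nor y y.2 a' ha')]
    congr 2
    rw [Subgroup.coe_mul]
    group
  · rfl

end EmbAux

open EmbAux in
theorem Emb : S_Emb := by
  intro n p G _ _ F A K hS k _ ℓ χ hE
  letI := addK K hS.abK
  choose cx hcx ca hca cy hcy hc using hS.dec
  let ψ0 : G → Big (Additive K) k := fun g => tri K ℓ χ (cx g) (ca g) ⟨cy g, hcy g⟩
  have key : ∀ x ∈ F, ∀ a ∈ A, ∀ y : K, ψ0 (x * a * y) = tri K ℓ χ x a y := by
    intro x hx a ha y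
    obtain ⟨h1, h2, h3⟩ := uniq hS (hcx (x * a * y)) hx (hca (x * a * y)) ha (hcy (x * a * y)) y.2
      (hc (x * a * y)).symm
    have h4 : (⟨cy (x * a * y), hcy (x * a * y)⟩ : K) = y := Subtype.ext h3
    change tri K ℓ χ (cx (x * a * y)) (ca (x * a * y)) ⟨cy (x * a * y), hcy (x * a * y)⟩ = _
    rw [h4, h1, h2]
  have hmul : ∀ g g' : G, ψ0 (g * g') = ψ0 g * ψ0 g' := by
    intro g g'
    have hx := hcx g
    have hx' := hcx g'
    have ha := hca g
    have ha' := hca g'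
    have e : g * g' = (cx g * (ca g * (cy g * cx g' * (cy g)⁻¹) * (ca g)⁻¹)) *
        (ca g * (cy g * ca g' * (cy g)⁻¹)) * ((⟨cy g, hcy g⟩ * ⟨cy g', hcy g'⟩ : K) : G) := by
      have e1 : (cx g * (ca g * (cy g * cx g' * (cy g)⁻¹) * (ca g)⁻¹)) *
        (ca g * (cy g * ca g' * (cy g)⁻¹)) * ((⟨cy g, hcy g⟩ * ⟨cy g', hcy g'⟩ : K) : G) =
          (cx g * ca g * cy g) * (cx g' * ca g' * cy g') := by
        rw [Subgroup.coe_mul]
        group
      rw [e1, ← hc g, ← hc g']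
    rw [e, key _ (F.mul_mem hx (conjF hS _ (conjF hS _ hx'))) _
      (A.mul_mem ha (hS.nor _ (hcy g) _ ha')) _]
    exact tri_mul hS hE ⟨cy g, hcy g⟩ ⟨cy g', hcy g'⟩ hx ha hx' ha'
  refine ⟨MonoidHom.mk' ψ0 hmul, ?_, ?_⟩
  · rw [injective_iff_map_eq_one]
    intro g hg
    have h0 : tri K ℓ χ (cx g) (ca g) ⟨cy g, hcy g⟩ = (1 : Big (Additive K) k) := hg
    have hm := congrArg Big.m h0
    have hat1 := congrArg Big.a h0
    have hxx := congrArg Big.x h0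
    have hy1 : cy g = 1 := by
      have h1 : (Additive.ofMul (⟨cy g, hcy g⟩ : K)) = Additive.ofMul (1 : K) := hxx
      have h2 : (⟨cy g, hcy g⟩ : K) = 1 := Additive.ofMul.injective h1
      exact congrArg Subtype.val h2
    have hx1 : cx g = 1 := by
      have h1 : cx g ∈ kerT hS hE := by
        rw [mem_kerT]
        refine ⟨hcx g, fun z hz => ?_⟩
        have h2 := congrFun hm (Additive.ofMul (⟨z, hz⟩ : K))
        exact h2
      rw [kerT_bot hS hE] at h1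
      exact Subgroup.mem_bot.mp h1
    have hχ : ∀ z ∈ K, χ (z * ca g * z⁻¹) = 1 := by
      intro z hz
      have h2 := congrFun hat1 (Additive.ofMul (⟨z, hz⟩ : K))
      exact h2
    have haF : ca g ∈ F := by
      apply hS.faith
      intro x hx
      have h1 : ca g * x * (ca g)⁻¹ * x⁻¹ ∈ kerT hS hE := by
        rw [mem_kerT]
        refine ⟨F.mul_mem (conjF hS _ hx) (F.inv_mem hx), fun z hz => ?_⟩
        rw [l_mul hS hE z (conjF hS _ hx) (F.inv_mem hx), l_eig hS hE hz (hca g) hx, hχ z hz]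
        have e : z * x⁻¹ * z⁻¹ = (z * x * z⁻¹)⁻¹ := by group
        rw [e, l_inv hE (conjF hS z hx)]
        simp
      rw [kerT_bot hS hE] at h1
      have h2 := Subgroup.mem_bot.mp h1
      have h3 := mul_inv_eq_one.mp h2
      exact mul_inv_eq_iff_eq_mul.mp h3
    have ha1 : ca g = 1 := by
      have h1 := hS.uni (ca g)⁻¹ (F.inv_mem haF) (ca g) (hca g) 1 K.one_mem (by simp)
      exact h1.2.1
    rw [hc g, hx1, ha1, hy1]
    simp
  · intro x hx a ha y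
    exact key x hx a ha y

end Pool.Agent.Lib.MP_f44088_fb
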