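import Mathlib
import Pool.Agent.Lib.MP_f44088_al.FB3.Spec2

/-! Project FB3 (MP_f44088_al): Fourier transform. -/

set_option autoImplicit false

namespace Pool.Agent.Lib.MP_f44088_fb

namespace F1Aux

open Finset

variable {K F : Type} [AddCommGroup K] [Field F]

/-- translation -/
def tr (x : K) (g : K → F) : K → F := fun y => g (y + x)

theorem tr_apply (x : K) (g : K → F) (y : K) : tr x g y = g (y + x) := rfl

theorem tr_tr (x z : K) (g : K → F) : tr x (tr z g) = tr (x + z) g := by
  funext y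
  simp only [tr_apply, add_assoc]

theorem tr_smul (x : K) (c : F) (g : K → F) : tr x (c • g) = c • tr x g := rfl

theorem tr_add (x : K) (g h : K → F) : tr x (g + h) = tr x g + tr x h := rfl

theorem tr_sum {ι : Type} (x : K) (s : Finset ι) (g : ι → K → F) :
    tr x (∑ i ∈ s, g i) = ∑ i ∈ s, tr x (g i) := by
  funext y
  simp only [tr_apply, Finset.sum_apply]

/-- the components of `h` under the powers of the translation by `x` -/
def comp (w : F) (m : ℕ) (x : K) (j : ℕ) (h : K → F) : K → F :=
  ∑ i ∈ range m, w ^ (i * j) • tr (i • x) h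

theorem comp_sum (w : F) (m : ℕ) (hw : IsPrimitiveRoot w m) (hm : (m : F) ≠ 0) (x : K) (h : K → F) :
    ∑ j ∈ range m, comp w m x j h = (m : F) • h := by
  have hm0 : 0 < m := by
    rcases Nat.eq_zero_or_pos m with h0 | h0
    · rw [h0] at hm
      simp at hm
    · exact h0
  unfold comp
  rw [Finset.sum_comm, Finset.sum_eq_single 0]
  · simp only [zero_mul, pow_zero, zero_smul, one_smul, Finset.sum_const, Finset.card_range]
    funext y
    simp [tr_apply]
  · intro i hi h0
    rw [← Finset.sum_smul]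
    have h1 : w ^ i ≠ 1 := hw.pow_ne_one_of_pos_of_lt h0 (mem_range.1 hi)
    have h2 : (∑ j ∈ range m, (w ^ i) ^ j) * (w ^ i - 1) = (w ^ i) ^ m - 1 := geom_sum_mul _ _
    have h3 : (w ^ i) ^ m = 1 := by
      rw [← pow_mul, mul_comm, pow_mul, hw.pow_eq_one, one_pow]
    rw [h3, sub_self] at h2
    have h4 : ∑ j ∈ range m, (w ^ i) ^ j = 0 := by
      rcases mul_eq_zero.1 h2 with h5 | h5
      · exact h5
      · exact absurd (sub_eq_zero.1 h5) h1
    have h5 : ∑ j ∈ range m, w ^ (i * j) = 0 := by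
      simpa only [pow_mul] using h4
    rw [h5, zero_smul]
  · intro h0
    exact absurd (mem_range.2 hm0) h0

theorem comp_tr (w : F) (m : ℕ) (hw : IsPrimitiveRoot w m) (x : K) (h : K → F)
    (hh : tr (m • x) h = h) (j : ℕ) : w ^ j • tr x (comp w m x j h) = comp w m x j h := by
  have h1 : w ^ j • tr x (comp w m x j h) =
      ∑ i ∈ range m, w ^ ((i + 1) * j) • tr ((i + 1) • x) h := by
    unfold comp
    rw [tr_sum, Finset.smul_sum]
    apply Finset.sum_congr rfl
    intro i _
    rw [tr_smul, tr_tr, smul_smul, ← pow_add]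
    have e1 : j + i * j = (i + 1) * j := by ring
    have e2 : x + i • x = (i + 1) • x := by rw [add_smul, one_smul, add_comm]
    rw [e1, e2]
  rw [h1]
  have h2 := Finset.sum_range_succ (fun i => w ^ (i * j) • tr (i • x) h) m
  have h3 := Finset.sum_range_succ' (fun i => w ^ (i * j) • tr (i • x) h) m
  rw [h2] at h3
  have h4 : w ^ (m * j) • tr (m • x) h = w ^ (0 * j) • tr (0 • x) h := by
    rw [hh, pow_mul, hw.pow_eq_one, one_pow, zero_mul, pow_zero]
    funext y
    simp [tr_apply]
  rw [h4] at h3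
  exact (add_right_cancel h3).symm

/-- an invariant subspace is spanned by common eigenvectors -/
theorem span_eig (V : Submodule F (K → F)) (hV : ∀ x, ∀ g ∈ V, tr x g ∈ V) (m : ℕ)
    (hm : (m : F) ≠ 0) (hmV : ∀ x, ∀ g ∈ V, tr (m • x) g = g) (w : F) (hw : IsPrimitiveRoot w m)
    (S : Finset K) :
    ∀ g ∈ V, g ∈ Submodule.span F {h | h ∈ V ∧ ∀ x ∈ S, ∃ c : F, tr x h = c • h} := by
  classical
  have hm0 : 0 < m := by
    rcases Nat.eq_zero_or_pos m with h0 | h0
    · rw [h0] at hm
      simp at hm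
    · exact h0
  have hw0 : w ≠ 0 := hw.ne_zero hm0.ne'
  induction S using Finset.induction_on with
  | empty =>
    intro g hg
    exact Submodule.subset_span ⟨hg, by simp⟩
  | insert x S _ ih =>
    intro g hg
    refine Submodule.span_le.2 ?_ (ih g hg)
    rintro h ⟨hh, hS⟩
    have h1 : h = (m : F)⁻¹ • ∑ j ∈ range m, comp w m x j h := by
      rw [comp_sum w m hw hm x h, smul_smul, inv_mul_cancel₀ hm, one_smul]
    rw [SetLike.mem_coe, h1]
    refine Submodule.smul_mem _ _ (Submodule.sum_mem _ fun j _ => Submodule.subset_span ⟨?_, ?_⟩)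
    · exact V.sum_mem fun i _ => V.smul_mem _ (hV _ _ hh)
    · intro z hz
      rcases Finset.mem_insert.1 hz with rfl | hz
      · refine ⟨(w ^ j)⁻¹, ?_⟩
        have h2 := comp_tr w m hw z h (hmV z h hh) j
        rw [eq_inv_smul_iff₀ (pow_ne_zero j hw0)]
        exact h2
      · obtain ⟨c, hc⟩ := hS z hz
        refine ⟨c, ?_⟩
        unfold comp
        rw [tr_sum, Finset.smul_sum]
        apply Finset.sum_congr rfl
        intro i _
        rw [tr_smul, tr_tr, add_comm z, ← tr_tr, hc, tr_smul, smul_comm]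

end F1Aux

open F1Aux in
theorem F1 : S_F1 := by
  classical
  intro n hn r hr F _ _ _ K _ _ hK D hD1 hD2 f hf
  -- the number `m`
  obtain ⟨m, hm1, hm2⟩ : ∃ m : ℕ, ¬ r ∣ m ∧ ∀ x : K, r • (m • x) = 0 := by
    by_cases h : r ∣ n
    · obtain ⟨m, rfl⟩ := h
      refine ⟨m, fun h1 => ?_, fun x => ?_⟩
      · obtain ⟨l, rfl⟩ := h1
        have h2 := hn r ⟨l, by ring⟩
        exact hr.one_lt.ne' (Nat.isUnit_iff.1 h2)
      · rw [← mul_smul]
        exact hK x
    · refine ⟨n, h, fun x => ?_⟩
      rw [hK x, smul_zero]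
  have hmF : (m : F) ≠ 0 := by
    intro h
    exact hm1 ((CharP.cast_eq_zero_iff F r m).1 h)
  haveI : NeZero (m : F) := ⟨hmF⟩
  obtain ⟨w, hw⟩ := HasEnoughRootsOfUnity.exists_primitiveRoot F m
  obtain ⟨V, hVd⟩ : ∃ V : Submodule F (K → F), V =
    Submodule.span F {g : K → F | ∃ f ∈ D, g = fun y => ZMod.castHom (dvd_refl r) F (f y)} := ⟨_, rfl⟩
  have hV : ∀ x, ∀ g ∈ V, tr x g ∈ V := by
    intro x g hg
    rw [hVd] at hg ⊢
    induction hg using Submodule.span_induction with
    | mem g hg =>
      obtain ⟨f, hf, rfl⟩ := hg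
      exact Submodule.subset_span ⟨fun y => f (y + x), hD1 f hf x, rfl⟩
    | zero => exact Submodule.zero_mem _
    | add a b _ _ ha hb => exact Submodule.add_mem _ ha hb
    | smul c a _ ha => exact Submodule.smul_mem _ c ha
  have hV2 : ∀ x : K, r • x = 0 → ∀ g ∈ V, tr x g = g := by
    intro x hx g hg
    rw [hVd] at hg
    induction hg using Submodule.span_induction with
    | mem g hg =>
      obtain ⟨f, hf, rfl⟩ := hg
      funext y
      rw [tr_apply, hD2 f hf x hx y]
    | zero => rfl
    | add a b _ _ ha hb => rw [tr_add, ha, hb]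
    | smul c a _ ha => rw [tr_smul, ha]
  haveI : Fintype K := Fintype.ofFinite K
  have h1 := span_eig V hV m hmF (fun x g hg => hV2 (m • x) (hm2 x) g hg) w hw Finset.univ
    (fun y => ZMod.castHom (dvd_refl r) F (f y))
    (by rw [hVd]; exact Submodule.subset_span ⟨f, hf, rfl⟩)
  refine Submodule.span_le.2 ?_ h1
  rintro h ⟨hh, hS⟩
  rw [SetLike.mem_coe]
  choose c hc using fun x => hS x (Finset.mem_univ x)
  have h2 : ∀ y x, h (y + x) = c x * h y := fun y x => congrFun (hc x) y
  have h3 : ∀ y, h y = c y * h 0 := by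
    intro y
    have := h2 0 y
    rwa [zero_add] at this
  by_cases h0 : h 0 = 0
  · have h4 : h = 0 := by
      funext y
      rw [h3 y, h0, mul_zero]
      rfl
    rw [h4]
    exact Submodule.zero_mem _
  · have h4 : h = h 0 • c := by
      funext y
      rw [Pi.smul_apply, smul_eq_mul, mul_comm]
      exact h3 y
    have h5 : c = (h 0)⁻¹ • h := by
      funext y
      rw [Pi.smul_apply, smul_eq_mul, h3 y]
      field_simp
    rw [h4]
    refine Submodule.smul_mem _ _ (Submodule.subset_span ⟨⟨?_, ?_⟩, ?_⟩)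
    · have h6 := h3 0
      have h7 : (c 0 - 1) * h 0 = 0 := by linear_combination -h6
      rcases mul_eq_zero.1 h7 with h8 | h8
      · exact sub_eq_zero.1 h8
      · exact absurd h8 h0
    · intro x y
      have h6 : c (x + y) * h 0 = c x * c y * h 0 := by
        rw [← h3 (x + y), add_comm x y, h2 y x, h3 y]
        ring
      exact mul_right_cancel₀ h0 h6
    · rw [h5, ← hVd]
      exact V.smul_mem _ hh

end Pool.Agent.Lib.MP_f44088_fb
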