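import Pool.Agent.Lib.MP_f44088_al.FB3.Spec2

/-! Project FB3, module F2: comparison by characters. -/

set_option autoImplicit false

namespace Pool.Agent.Lib.MP_f44088_fb

namespace F2Aux

/-- composition with `φ` -/
def comp {K₁ K₂ : Type} [AddCommGroup K₁] [AddCommGroup K₂] (φ : K₁ →+ K₂) (r : ℕ) :
    (K₂ → ZMod r) →+ (K₁ → ZMod r) where
  toFun g := fun y => g (φ y)
  map_zero' := rfl
  map_add' _ _ := rfl

/-- the `F`-linear form with the coefficients `cast (a y)` -/
noncomputable def form {K F : Type} {r : ℕ} [Fintype K] [Field F] [CharP F r] (a : K → ZMod r) :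
    (K → F) →ₗ[F] F where
  toFun h := ∑ y, ZMod.castHom (dvd_refl r) F (a y) * h y
  map_add' h h' := by
    simp only [Pi.add_apply, mul_add, Finset.sum_add_distrib]
  map_smul' c h := by
    simp only [Pi.smul_apply, smul_eq_mul, RingHom.id_apply, Finset.mul_sum]
    exact Finset.sum_congr rfl fun y _ => by ring

theorem form_cast {K F : Type} {r : ℕ} [Fintype K] [Field F] [CharP F r] (a h : K → ZMod r) :
    form (F := F) a (fun y => ZMod.castHom (dvd_refl r) F (h y)) =
      ZMod.castHom (dvd_refl r) F (∑ y, a y * h y) := by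
  change ∑ y, ZMod.castHom (dvd_refl r) F (a y) * ZMod.castHom (dvd_refl r) F (h y) = _
  rw [map_sum]
  exact Finset.sum_congr rfl fun y _ => (map_mul _ _ _).symm

end F2Aux

theorem F2 : S_F2 := by
  intro r hr F _ _ K₁ K₂ _ _ _ _ φ D₁ D₂ H1 H2 f hf
  classical
  have hfact : Fact r.Prime := ⟨hr⟩
  have hfin : Fintype K₁ := Fintype.ofFinite K₁
  set P : Submodule (ZMod r) (K₁ → ZMod r) :=
    AddSubgroup.toZModSubmodule r (D₂.map (F2Aux.comp φ r)) with hP
  by_cases hfP : f ∈ P
  · have h1 : f ∈ D₂.map (F2Aux.comp φ r) := hfP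
    obtain ⟨g, hg, rfl⟩ := h1
    exact ⟨g, hg, fun y => rfl⟩
  · exfalso
    obtain ⟨ℓ, hℓf, hℓP⟩ := Submodule.exists_dual_map_eq_bot_of_notMem hfP inferInstance
    -- the coefficients of `ℓ`
    have hℓ : ∀ h : K₁ → ZMod r, ℓ h = ∑ y, ℓ (fun j => if y = j then 1 else 0) * h y := by
      intro h
      rw [LinearMap.pi_apply_eq_sum_univ ℓ h]
      exact Finset.sum_congr rfl fun y _ => by rw [smul_eq_mul, mul_comm]
    set a : K₁ → ZMod r := fun y => ℓ (fun j => if y = j then 1 else 0) with ha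
    have hL : ∀ h : K₁ → ZMod r, F2Aux.form (F := F) a (fun y => ZMod.castHom (dvd_refl r) F (h y)) =
        ZMod.castHom (dvd_refl r) F (ℓ h) := by
      intro h
      rw [F2Aux.form_cast, hℓ h]
    have hD2 : ∀ g ∈ D₂, ℓ (fun y => g (φ y)) = 0 := by
      intro g hg
      have h1 : (fun y => g (φ y)) ∈ P := by
        change (fun y => g (φ y)) ∈ D₂.map (F2Aux.comp φ r)
        exact ⟨g, hg, rfl⟩
      have h2 : ℓ (fun y => g (φ y)) ∈ P.map ℓ := ⟨_, h1, rfl⟩
      rw [hℓP] at h2
      exact (Submodule.mem_bot _).1 h2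
    -- the form vanishes on `Lam D₂` composed with `φ`
    have hspan : ∀ μ : K₂ → F, μ ∈ Submodule.span F
        {g : K₂ → F | ∃ f ∈ D₂, g = fun y => ZMod.castHom (dvd_refl r) F (f y)} →
        F2Aux.form (F := F) a (fun y => μ (φ y)) = 0 := by
      intro μ hμ
      have h1 : Submodule.span F {g : K₂ → F | ∃ f ∈ D₂, g = fun y =>
          ZMod.castHom (dvd_refl r) F (f y)} ≤
          LinearMap.ker ((F2Aux.form (F := F) a).comp (LinearMap.funLeft F F φ)) := by
        rw [Submodule.span_le]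
        rintro _ ⟨g, hg, rfl⟩
        change F2Aux.form (F := F) a (fun y => ZMod.castHom (dvd_refl r) F (g (φ y))) = 0
        rw [hL fun y => g (φ y), hD2 g hg, map_zero]
      exact LinearMap.mem_ker.1 (h1 hμ)
    have hLam : Submodule.span F (Lam (F := F) D₁) ≤ LinearMap.ker (F2Aux.form (F := F) a) := by
      rw [Submodule.span_le]
      intro c hc
      obtain ⟨μ, hμ, hcμ⟩ := H2 c hc
      have h1 : c = fun y => μ (φ y) := funext hcμ
      change F2Aux.form (F := F) a c = 0
      rw [h1]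
      exact hspan μ hμ.2
    have h2 := LinearMap.mem_ker.1 (hLam (H1 f hf))
    rw [hL f] at h2
    have h3 : Function.Injective (ZMod.castHom (dvd_refl r) F) := RingHom.injective _
    exact hℓf (h3 (by rw [h2, map_zero]))

end Pool.Agent.Lib.MP_f44088_fb
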