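import Pool.Agent.Lib.MP_f44088_al.FB3.Spec

/-! Project FB3, module Fa: the largest normal `p`-subgroup of a monolithic group. -/

set_option autoImplicit false

namespace Pool.Agent.Lib.MP_f44088_fb

namespace FaAux

/-- a nontrivial abelian normal subgroup -/
lemma exists_abelian (G : Type) [Group G] [Nontrivial G] (h : derivedSeries G 3 = ⊥) :
    ∃ D : Subgroup G, D.Normal ∧ D ≠ ⊥ ∧ ∀ x ∈ D, ∀ y ∈ D, x * y = y * x := by
  have hex : ∃ k, derivedSeries G k = ⊥ := ⟨3, h⟩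
  classical
  have h1 := Nat.find_spec hex
  have h2 : ∀ k, k < Nat.find hex → derivedSeries G k ≠ ⊥ := fun k hk => Nat.find_min hex hk
  obtain ⟨m, hm⟩ : ∃ m, m = Nat.find hex := ⟨_, rfl⟩
  rw [← hm] at h1 h2
  cases m with
  | zero =>
    rw [derivedSeries_zero] at h1
    exact absurd h1 top_ne_bot
  | succ k =>
    refine ⟨derivedSeries G k, derivedSeries_normal G k, h2 k (Nat.lt_succ_self k), ?_⟩
    intro x hx y hy
    rw [derivedSeries_succ] at h1
    have h3 := Subgroup.commutator_mem_commutator hx hy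
    rw [h1, Subgroup.mem_bot, commutatorElement_eq_one_iff_mul_comm] at h3
    exact h3

/-- the `p`-part of an abelian subgroup -/
def pPart (G : Type) [Group G] (D : Subgroup G) (hD : ∀ x ∈ D, ∀ y ∈ D, x * y = y * x) (p : ℕ) :
    Subgroup G where
  carrier := {x | x ∈ D ∧ ∃ j, x ^ p ^ j = 1}
  mul_mem' := by
    rintro x y ⟨hx, i, hi⟩ ⟨hy, j, hj⟩
    refine ⟨D.mul_mem hx hy, i + j, ?_⟩
    have hc : Commute x y := hD x hx y hy
    rw [hc.mul_pow, pow_add, pow_mul, hi, one_pow, one_mul, mul_comm (p ^ i), pow_mul, hj, one_pow]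
  one_mem' := ⟨D.one_mem, 0, one_pow _⟩
  inv_mem' := by
    rintro x ⟨hx, i, hi⟩
    exact ⟨D.inv_mem hx, i, by rw [inv_pow, hi, inv_one]⟩

lemma mem_pPart {G : Type} [Group G] {D : Subgroup G} {hD : ∀ x ∈ D, ∀ y ∈ D, x * y = y * x} {p : ℕ}
    {x : G} : x ∈ pPart G D hD p ↔ x ∈ D ∧ ∃ j, x ^ p ^ j = 1 := Iff.rfl

end FaAux

open FaAux

theorem Fa : S_Fa := by
  intro G _ _ hM h3
  obtain ⟨hnt, hmono⟩ := hM
  obtain ⟨D, hDn, hD0, hD⟩ := exists_abelian G h3
  have hcard : Nat.card D ≠ 1 := by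
    intro h
    exact hD0 (Subgroup.card_eq_one.1 h)
  obtain ⟨p, hp, hpd⟩ := Nat.exists_prime_and_dvd hcard
  have : Fact p.Prime := ⟨hp⟩
  -- the p-part of D
  have hPn : (pPart G D hD p).Normal := by
    refine ⟨?_⟩
    rintro x ⟨hx, j, hj⟩ g
    refine ⟨hDn.conj_mem x hx g, j, ?_⟩
    rw [conj_pow, hj, mul_one, mul_inv_cancel]
  have hPp : IsPGroup p (pPart G D hD p) := by
    rintro ⟨x, hx, j, hj⟩
    exact ⟨j, Subtype.ext hj⟩
  have hP0 : pPart G D hD p ≠ ⊥ := by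
    obtain ⟨x, hx⟩ := exists_prime_orderOf_dvd_card' p hpd
    intro h
    have h1 : (x : G) ∈ pPart G D hD p := by
      refine ⟨x.2, 1, ?_⟩
      rw [pow_one, ← hx]
      exact congrArg Subtype.val (pow_orderOf_eq_one x)
    rw [h, Subgroup.mem_bot] at h1
    have h2 : x = 1 := Subtype.ext h1
    rw [h2, orderOf_one] at hx
    exact hp.one_lt.ne hx
  -- a maximal normal p-subgroup
  have hfin : Set.Finite {N : Subgroup G | N.Normal ∧ IsPGroup p N} := Set.toFinite _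
  obtain ⟨F, hF⟩ := hfin.exists_maximal ⟨⊥, inferInstance, IsPGroup.of_bot⟩
  obtain ⟨⟨hFn, hFp⟩, hFm⟩ := hF
  have hmax : ∀ N : Subgroup G, N.Normal → IsPGroup p N → N ≤ F := by
    intro N hN hNp
    have := hFn
    have := hN
    have h1 : F ⊔ N ≤ F := hFm ⟨inferInstance, hFp.to_sup_of_normal_left hNp⟩ le_sup_left
    exact le_sup_right.trans h1
  have hF0 : F ≠ ⊥ := by
    intro h
    apply hP0
    have h1 := hmax _ hPn hPp
    rw [h] at h1
    exact le_bot_iff.1 h1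
  refine ⟨p, hp, F, hFn, hF0, hFp, hmax, ?_⟩
  intro q hq hqp N hN hNq
  have : Fact q.Prime := ⟨hq⟩
  have h1 : Disjoint N F := IsPGroup.disjoint_of_ne q p hqp N F hNq hFp
  rcases hmono N F hN hFn (disjoint_iff.1 h1) with h2 | h2
  · exact h2
  · exact absurd h2 hF0

end Pool.Agent.Lib.MP_f44088_fb
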