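import Mathlib
import Pool.Agent.Lib.MP_f44088_al.FB3.Spec

/-! Project FB3, module Fb: the largest normal `p`-subgroup is its own centralizer. -/

set_option autoImplicit false

namespace Pool.Agent.Lib.MP_f44088_fb

namespace FbAux

/-- a normal subgroup of class at most two which centralizes `F` and has its commutators in `F` -/
theorem nilp {G : Type} [Group G] (F D : Subgroup G) (hDF : ⁅D, D⁆ ≤ F)
    (hC : ∀ g ∈ D, ∀ x ∈ F, g * x = x * g) : Group.IsNilpotent D := by
  rw [Subgroup.nilpotent_iff_lowerCentralSeries]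
  refine ⟨2, ?_⟩
  have h1 : ⁅(⊤ : Subgroup D), (⊤ : Subgroup D)⁆ ≤ F.subgroupOf D := by
    rw [Subgroup.commutator_le]
    intro a _ b _
    rw [Subgroup.mem_subgroupOf]
    apply hDF
    exact Subgroup.commutator_mem_commutator a.2 b.2
  have h2 : ⁅⁅(⊤ : Subgroup D), (⊤ : Subgroup D)⁆, (⊤ : Subgroup D)⁆ ≤ ⊥ := by
    rw [Subgroup.commutator_le]
    intro a ha b _
    rw [Subgroup.mem_bot, commutatorElement_eq_one_iff_mul_comm]
    apply Subtype.ext
    exact (hC b b.2 a (h1 ha)).symm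
  exact le_bot_iff.1 h2

theorem isP {G : Type} [Group G] [Finite G] (p : ℕ) (D : Subgroup G) (hD : D.Normal)
    (hN : Group.IsNilpotent D)
    (hq : ∀ q : ℕ, q.Prime → q ≠ p → ∀ N : Subgroup G, N.Normal → IsPGroup q N → N = ⊥) :
    IsPGroup p D := by
  have hcard : Nat.card D ≠ 0 := Nat.card_pos.ne'
  have key : ∀ {d : ℕ}, Nat.Prime d → d ∣ Nat.card D → d = p := by
    intro d hd hdvd
    by_contra hne
    have : Fact d.Prime := ⟨hd⟩
    obtain ⟨x, hx⟩ := exists_prime_orderOf_dvd_card' d hdvd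
    have hz : IsPGroup d (Subgroup.zpowers x) := by
      apply IsPGroup.of_card (n := 1)
      rw [Nat.card_zpowers, hx, pow_one]
    obtain ⟨P, hP⟩ := hz.exists_le_sylow
    have hPn : (P : Subgroup D).Normal :=
      ((Group.isNilpotent_of_finite_tfae (G := D)).out 0 3 rfl rfl).1 hN d ⟨hd⟩ P
    have hPc : (P : Subgroup D).Characteristic := Sylow.characteristic_of_normal P hPn
    have hPG : ((P : Subgroup D).map D.subtype).Normal :=
      ConjAct.normal_of_characteristic_of_normal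
    have h1 : (P : Subgroup D).map D.subtype = ⊥ :=
      hq d hd hne _ hPG (P.isPGroup'.map D.subtype)
    have h2 : (x : G) ∈ (P : Subgroup D).map D.subtype :=
      Subgroup.mem_map_of_mem D.subtype (hP (Subgroup.mem_zpowers x))
    rw [h1, Subgroup.mem_bot] at h2
    have h3 : x = 1 := Subtype.ext h2
    rw [h3, orderOf_one] at hx
    exact hd.one_lt.ne hx
  exact IsPGroup.of_card (Nat.eq_prime_pow_of_unique_prime_dvd hcard key)

end FbAux

open FbAux

theorem Fb : S_Fb := by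
  intro G _ _ hder p hp F hF hFp hab hmax hq g hg
  by_contra hgF
  set C : Subgroup G := Subgroup.centralizer (F : Set G) with hCdef
  have hCn : C.Normal := by
    rw [hCdef]
    infer_instance
  have hCmem : ∀ y ∈ C, ∀ x ∈ F, y * x = x * y := by
    intro y hy x hx
    rw [hCdef, Subgroup.mem_centralizer_iff] at hy
    exact (hy x hx).symm
  have hgC : g ∈ C := by
    rw [hCdef, Subgroup.mem_centralizer_iff]
    intro x hx
    exact (hg x hx).symm
  have fin : ∀ D : Subgroup G, D.Normal → D ≤ C → ⁅D, D⁆ ≤ F → D ≤ F := by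
    intro D hD hDC hDF
    exact hmax D hD (isP p D hD (nilp F D hDF (fun y hy => hCmem y (hDC hy))) hq)
  have d1n : (⁅C, C⁆ : Subgroup G).Normal := Subgroup.commutator_normal C C
  have d2n : (⁅⁅C, C⁆, ⁅C, C⁆⁆ : Subgroup G).Normal := Subgroup.commutator_normal _ _
  have d1C : (⁅C, C⁆ : Subgroup G) ≤ C := Subgroup.commutator_le_left C C
  have d2C : (⁅⁅C, C⁆, ⁅C, C⁆⁆ : Subgroup G) ≤ C :=
    (Subgroup.commutator_le_left _ _).trans d1C
  have e1 : (⁅C, C⁆ : Subgroup G) ≤ derivedSeries G 1 :=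
    Subgroup.commutator_mono le_top le_top
  have e2 : (⁅⁅C, C⁆, ⁅C, C⁆⁆ : Subgroup G) ≤ derivedSeries G 2 :=
    Subgroup.commutator_mono e1 e1
  have e3 : (⁅⁅⁅C, C⁆, ⁅C, C⁆⁆, ⁅⁅C, C⁆, ⁅C, C⁆⁆⁆ : Subgroup G) ≤ derivedSeries G 3 :=
    Subgroup.commutator_mono e2 e2
  rw [hder] at e3
  have f2 := fin _ d2n d2C (e3.trans bot_le)
  have f1 := fin _ d1n d1C f2
  exact hgF (fin C hCn le_rfl f1 hgC)

end Pool.Agent.Lib.MP_f44088_fb
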