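import Pool.Agent.Lib.MP_f44088_al.FB3.Spec

set_option autoImplicit false

namespace Pool.Agent.Lib.MP_f44088_fb

theorem Fin : S_Seq → S_Main → S_Fin := by
  intro hSeq hMain n W hn hW
  by_contra hcon
  have hn0 : 0 < n := Nat.pos_of_ne_zero hn.ne_zero
  obtain ⟨G, h1, h2, h3⟩ := hSeq n W hn0 hW (by
    intro B hB
    exact hcon ⟨B, hB⟩)
  obtain ⟨i, j, hij, hv⟩ := hMain n hn G h1 h2
  exact h3 i j hij hv

end Pool.Agent.Lib.MP_f44088_fb
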