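import Pool.Agent.Lib.MP_f44088_al.FB3.Spec

/-! Project FB3 (MP_f44088_al): the bottom layer of a monolithic group. -/

set_option autoImplicit false

namespace Pool.Agent.Lib.MP_f44088_fb

namespace FitAux

/-- an element of `p`-power order has order dividing `p` if the exponent is squarefree -/
theorem pow_p {G : Type} [Group G] (n p j : ℕ) (hn : Squarefree n) (hp : p.Prime) (x : G)
    (hx : x ^ n = 1) (hj : x ^ p ^ j = 1) : x ^ p = 1 := by
  have h1 : orderOf x ∣ p ^ j := orderOf_dvd_of_pow_eq_one hj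
  obtain ⟨i, -, hi⟩ := (Nat.dvd_prime_pow hp).1 h1
  have h2 : orderOf x ∣ n := orderOf_dvd_of_pow_eq_one hx
  rw [hi] at h2
  have h3 : i ≤ 1 := by
    by_contra hcon
    have h4 : p ^ 2 ∣ n := (pow_dvd_pow p (by omega : 2 ≤ i)).trans h2
    rw [pow_two] at h4
    exact hp.one_lt.ne' (Nat.isUnit_iff.1 (hn p h4))
  have h5 : orderOf x ∣ p := by
    rw [hi]
    have h6 := pow_dvd_pow p h3
    rwa [pow_one] at h6
  exact orderOf_dvd_iff_pow_eq_one.1 h5

end FitAux

open FitAux in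
theorem Fit (hFa : S_Fa) (hFb : S_Fb) : S_Fit := by
  intro n hn G _ _ hC hM
  obtain ⟨hexp, hder, hab⟩ := hC
  obtain ⟨p, hp, F, hFn, hFne, hFp, hmax, hoth⟩ := hFa G hM hder
  have hfact : Fact p.Prime := ⟨hp⟩
  have habF := hab p hp F hFp
  have hcent := hFb G hder p hp F hFn hFp habF hmax hoth
  have hpow : ∀ x ∈ F, x ^ p = 1 := by
    intro x hx
    obtain ⟨j, hj⟩ := hFp ⟨x, hx⟩
    have hj' : x ^ p ^ j = 1 := congrArg Subtype.val hj
    exact pow_p n p j hn hp x (hexp x) hj'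
  have hpn : p ∣ n := by
    obtain ⟨x, hx, hx1⟩ := (Subgroup.bot_or_exists_ne_one F).resolve_left hFne
    have h1 : orderOf x = p := orderOf_eq_prime (hpow x hx) hx1
    rw [← h1]
    exact orderOf_dvd_of_pow_eq_one (hexp x)
  refine ⟨p, Nat.mem_primeFactors.2 ⟨hp, hpn, hn.ne_zero⟩, F, hFn, hFne, hFp, habF, hpow,
    hcent, ?_⟩
  obtain ⟨Q, hQ⟩ := hFp.exists_le_sylow
  have hQF : (Q : Subgroup G) = F := by
    refine le_antisymm (fun g hg => ?_) hQ
    exact hcent g fun x hx => hab p hp Q Q.isPGroup' g hg x (hQ hx)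
  rw [← hQF]
  exact Sylow.not_dvd_index Q

end Pool.Agent.Lib.MP_f44088_fb
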