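import Pool.Agent.Lib.MP_f44088_al.FB3.Spec2

/-! Project FB3: independent germs are independent almost everywhere. -/

set_option autoImplicit false

namespace Pool.Agent.Lib.MP_f44088_fb

namespace GerAux

theorem sum_germ {F : Type} [Field F] {E : Type} [AddCommGroup E] [Module F E] {S : Type} [Fintype S]
    (x : S → ℕ → E) (c : S → F) :
    (∑ s, c s • ((x s : ℕ → E) : Filter.Germ (Filter.hyperfilter ℕ : Filter ℕ) E)) =
      ((fun i => ∑ s, c s • x s i : ℕ → E) : Filter.Germ (Filter.hyperfilter ℕ : Filter ℕ) E) := by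
  have h1 : (fun i => ∑ s, c s • x s i : ℕ → E) = ∑ s, c s • x s := by
    funext i
    rw [Finset.sum_apply]
    rfl
  rw [h1]
  exact (map_sum (Filter.Germ.coeAddHom (M := E) (Filter.hyperfilter ℕ : Filter ℕ))
    (fun s => c s • x s) Finset.univ).symm

end GerAux

theorem Ger : S_Ger := by
  intro F _ _ E _ _ S _ x hx
  classical
  have : Fintype S := Fintype.ofFinite S
  rw [Fintype.linearIndependent_iff] at hx
  have key : ∀ c : S → F, c ≠ 0 →
      ∀ᶠ i in (Filter.hyperfilter ℕ : Filter ℕ), ¬ (∑ s, c s • x s i = 0) := by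
    intro c hc
    rw [Ultrafilter.eventually_not]
    intro hev
    refine hc (funext fun s => hx c ?_ s)
    rw [GerAux.sum_germ x c]
    exact Filter.Germ.coe_eq.2 hev
  have all : ∀ᶠ i in (Filter.hyperfilter ℕ : Filter ℕ), ∀ c : S → F, c ≠ 0 →
      ¬ (∑ s, c s • x s i = 0) := by
    refine Filter.eventually_all.2 fun c => ?_
    by_cases hc : c = 0
    · exact Filter.Eventually.of_forall fun _ h => absurd hc h
    · exact (key c hc).mono fun _ h _ => h
  filter_upwards [all] with i hi
  rw [Fintype.linearIndependent_iff]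
  intro c hc s
  by_contra hcs
  exact hi c (fun h => hcs (by rw [h]; rfl)) hc

end Pool.Agent.Lib.MP_f44088_fb
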