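import Pool.Agent.Lib.MP_f44088_al.FB3.Spec

/-! Project FB3, module Hm: the complement is metabelian. -/

set_option autoImplicit false

namespace Pool.Agent.Lib.MP_f44088_fb

namespace HmAux

/-- For `X ≤ H` nontrivial and normalized by `H`, the commutator subgroup `⁅F, X⁆` is `F`. -/
theorem comm_eq {G : Type} [Group G] (F H X : Subgroup G) (hF : F.Normal)
    (hab : ∀ x ∈ F, ∀ y ∈ F, x * y = y * x) (hc : Subgroup.IsComplement' F H)
    (hmin : ∀ N : Subgroup G, N.Normal → N ≤ F → N = ⊥ ∨ N = F)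
    (hself : ∀ g : G, (∀ x ∈ F, g * x = x * g) → g ∈ F) (hX : X ≤ H) (hX0 : X ≠ ⊥)
    (hn : ∀ h ∈ H, ∀ x ∈ X, h * x * h⁻¹ ∈ X) : ⁅F, X⁆ = F := by
  have hle : ⁅F, X⁆ ≤ F := Subgroup.commutator_le_left F X
  have hconjH : ∀ h ∈ H, ∀ n ∈ ⁅F, X⁆, h * n * h⁻¹ ∈ ⁅F, X⁆ := by
    intro h hh n hnm
    have h1 : (⁅F, X⁆).map (MulAut.conj h).toMonoidHom ≤ ⁅F, X⁆ := by
      rw [Subgroup.map_commutator]
      refine Subgroup.commutator_mono ?_ ?_
      · rintro _ ⟨f, hf, rfl⟩
        exact hF.conj_mem f hf h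
      · rintro _ ⟨x, hx, rfl⟩
        exact hn h hh x hx
    exact h1 ⟨n, hnm, rfl⟩
  have hnormal : (⁅F, X⁆).Normal := by
    refine ⟨fun n hnm g => ?_⟩
    obtain ⟨⟨f, h⟩, hfh, -⟩ := Subgroup.isComplement'_def.1 hc |>.existsUnique g
    have hg : (f : G) * (h : G) = g := hfh
    have h1 := hconjH h h.2 n hnm
    have h2 : g * n * g⁻¹ = (f : G) * ((h : G) * n * (h : G)⁻¹) * (f : G)⁻¹ := by
      rw [← hg]
      group
    rw [h2, hab f f.2 _ (hle h1), mul_assoc, mul_inv_cancel, mul_one]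
    exact h1
  rcases hmin _ hnormal hle with h | h
  · exfalso
    apply hX0
    rw [eq_bot_iff]
    intro x hx
    have hxF : x ∈ F := by
      apply hself
      intro y hy
      have h1 : y * x * y⁻¹ * x⁻¹ ∈ ⁅F, X⁆ := Subgroup.commutator_mem_commutator hy hx
      rw [h, Subgroup.mem_bot, mul_inv_eq_one, mul_inv_eq_iff_eq_mul] at h1
      exact h1.symm
    have h2 := hc.disjoint
    rw [Subgroup.disjoint_def] at h2
    exact Subgroup.mem_bot.2 (h2 hxF (hX hx))
  · exact h

/-- The image of a normal subgroup of `H` is normalized by `H`. -/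
theorem map_norm {G : Type} [Group G] (H : Subgroup G) (Y : Subgroup H) (hY : Y.Normal) :
    ∀ h ∈ H, ∀ x ∈ Y.map H.subtype, h * x * h⁻¹ ∈ Y.map H.subtype := by
  rintro h hh _ ⟨y, hy, rfl⟩
  exact ⟨⟨h, hh⟩ * y * ⟨h, hh⟩⁻¹, hY.conj_mem y hy ⟨h, hh⟩, rfl⟩

end HmAux

theorem Hm : S_Hm := by
  intro G _ _ F H hF hF0 hab hc hmin hself h3
  by_contra h2
  have hle21 : derivedSeries H 2 ≤ derivedSeries H 1 := derivedSeries_antitone H (by norm_num)
  have h2' : (derivedSeries H 2).map H.subtype ≠ ⊥ := by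
    intro h
    exact h2 ((Subgroup.map_eq_bot_iff_of_injective _ H.subtype_injective).1 h)
  have h1' : (derivedSeries H 1).map H.subtype ≠ ⊥ := by
    intro h
    apply h2'
    rw [eq_bot_iff, ← h]
    exact Subgroup.map_mono hle21
  have hH1 : (derivedSeries H 1).map H.subtype ≤ H := Subgroup.map_subtype_le _
  have hH2 : (derivedSeries H 2).map H.subtype ≤ H := Subgroup.map_subtype_le _
  have h0' : H ≠ ⊥ := by
    intro h
    apply h1'
    rw [eq_bot_iff]
    exact hH1.trans h.le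
  have e0 := HmAux.comm_eq F H H hF hab hc hmin hself le_rfl h0' fun h hh x hx =>
    H.mul_mem (H.mul_mem hh hx) (H.inv_mem hh)
  have e1 := HmAux.comm_eq F H _ hF hab hc hmin hself hH1 h1'
    (HmAux.map_norm H _ (derivedSeries_normal H 1))
  have e2 := HmAux.comm_eq F H _ hF hab hc hmin hself hH2 h2'
    (HmAux.map_norm H _ (derivedSeries_normal H 2))
  have f1 : F ≤ derivedSeries G 1 := by
    rw [← e0, derivedSeries_succ]
    exact Subgroup.commutator_mono (by rw [derivedSeries_zero]; exact le_top)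
      (by rw [derivedSeries_zero]; exact le_top)
  have f2 : F ≤ derivedSeries G 2 := by
    rw [← e1, derivedSeries_succ]
    exact Subgroup.commutator_mono f1 (map_derivedSeries_le_derivedSeries H.subtype 1)
  have f3 : F ≤ derivedSeries G 3 := by
    rw [← e2, derivedSeries_succ]
    exact Subgroup.commutator_mono f2 (map_derivedSeries_le_derivedSeries H.subtype 2)
  rw [h3] at f3
  exact hF0 (eq_bot_iff.2 f3)

end Pool.Agent.Lib.MP_f44088_fb
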