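import Mathlib
import Pool.Agent.Lib.MP_f44088_al.FB3.Spec2

/-! Project FB3 (MP_f44088_al): joint independence of finitely many rich classes. -/

set_option autoImplicit false

namespace Pool.Agent.Lib.MP_f44088_fb

namespace JointAux

variable {ι : Type} {F : ι → Type} [∀ q, Field (F q)] {X : ι → Type} [∀ q, AddCommGroup (X q)]
  [∀ q, Module (F q) (X q)]

/-- independence modulo a submodule, in terms of sums -/
theorem li_iff {k M J : Type} [Field k] [AddCommGroup M] [Module k M] [Fintype J]
    (V : Submodule k M) (w : J → M) :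
    LinearIndependent k (fun s => V.mkQ (w s)) ↔
      ∀ g : J → k, ∑ s, g s • w s ∈ V → ∀ s, g s = 0 := by
  rw [Fintype.linearIndependent_iff]
  refine forall_congr' fun g => ?_
  have e : ∑ s, g s • V.mkQ (w s) = V.mkQ (∑ s, g s • w s) := by
    rw [map_sum]
    exact Finset.sum_congr rfl fun s _ => (map_smul _ _ _).symm
  rw [e, Submodule.mkQ_apply, Submodule.Quotient.mk_eq_zero]

/-- the induction over the classes -/
theorem step (hRM : S_RM) [Finite ι] (U : ∀ q, Submodule (F q) (X q)) (hU : ∀ q, (U q).FG)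
    {T : Type} [Fintype T] [DecidableEq T] (I : T → Set ι) (Y : T → Set (∀ q, X q))
    (hR : ∀ t, Rich U (I t) (Y t)) (N : T → ℕ) (S : Finset T) :
    ∃ y : (t : T) → Fin (N t) → ∀ q, X q, (∀ t ∈ S, ∀ s, y t s ∈ Y t) ∧
      ∀ q, ∀ G : (Σ t : T, Fin (N t)) → F q, (∀ s, ¬ (s.1 ∈ S ∧ q ∈ I s.1) → G s = 0) →
        ∑ s, G s • y s.1 s.2 q ∈ U q → ∀ s, G s = 0 := by
  induction S using Finset.induction_on with
  | empty =>
    refine ⟨fun _ _ _ => 0, by simp, fun q G hG _ s => hG s (by simp)⟩
  | insert t0 S ht0 ih =>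
    obtain ⟨y, hy, hind⟩ := ih
    let W : ∀ q, Set (X q) := fun q => Set.range fun s : Σ t : T, Fin (N t) => y s.1 s.2 q
    let U' : ∀ q, Submodule (F q) (X q) := fun q => U q ⊔ Submodule.span (F q) (W q)
    have hU' : ∀ q, (U' q).FG := fun q =>
      (hU q).sup (Submodule.fg_span (Set.finite_range _))
    obtain ⟨y0, hy0, hi0⟩ := hRM ι F X U U' (I t0) (Y t0) (hR t0) (fun q => le_sup_left) hU' (N t0)
    refine ⟨Function.update y t0 y0, ?_, ?_⟩
    · intro t ht s
      by_cases h : t = t0
      · subst h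
        rw [Function.update_self]
        exact hy0 s
      · rw [Function.update_of_ne h]
        exact hy t ((Finset.mem_insert.mp ht).resolve_left h) s
    · intro q G hG hsum
      have hsplit : ∑ s : (Σ t : T, Fin (N t)), G s • Function.update y t0 y0 s.1 s.2 q =
          ∑ i, G ⟨t0, i⟩ • y0 i q +
            ∑ t ∈ Finset.univ.erase t0, ∑ i, G ⟨t, i⟩ • y t i q := by
        rw [Fintype.sum_sigma, ← Finset.add_sum_erase _ _ (Finset.mem_univ t0)]
        congr 1
        · refine Finset.sum_congr rfl fun i _ => ?_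
          simp only [Function.update_self]
        · refine Finset.sum_congr rfl fun t ht => Finset.sum_congr rfl fun i _ => ?_
          simp only [Function.update_of_ne (Finset.ne_of_mem_erase ht)]
      rw [hsplit] at hsum
      have hrest : ∑ t ∈ Finset.univ.erase t0, ∑ i, G ⟨t, i⟩ • y t i q ∈ U' q := by
        refine Submodule.sum_mem _ fun t _ => Submodule.sum_mem _ fun i _ => ?_
        refine Submodule.smul_mem _ _ ?_
        exact (le_sup_right : Submodule.span (F q) (W q) ≤ U' q)
          (Submodule.subset_span ⟨⟨t, i⟩, rfl⟩)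
      have hfirst : ∑ i, G ⟨t0, i⟩ • y0 i q ∈ U' q := by
        have h1 := (le_sup_left : U q ≤ U' q) hsum
        have h2 := Submodule.sub_mem _ h1 hrest
        rwa [add_sub_cancel_right] at h2
      have hz : ∀ i, G ⟨t0, i⟩ = 0 := by
        by_cases hq : q ∈ I t0
        · exact (li_iff (U' q) (fun i => y0 i q)).mp (hi0 q hq) (fun i => G ⟨t0, i⟩) hfirst
        · intro i
          exact hG ⟨t0, i⟩ fun h => hq h.2
      have hG' : ∀ s : (Σ t : T, Fin (N t)), ¬ (s.1 ∈ S ∧ q ∈ I s.1) → G s = 0 := by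
        rintro ⟨t, i⟩ h
        by_cases ht : t = t0
        · subst ht
          exact hz i
        · refine hG ⟨t, i⟩ fun h' => h ⟨?_, h'.2⟩
          exact (Finset.mem_insert.mp h'.1).resolve_left ht
      refine hind q G hG' ?_
      rw [Fintype.sum_sigma, ← Finset.add_sum_erase _ _ (Finset.mem_univ t0)]
      have e1 : ∑ i, G ⟨t0, i⟩ • y t0 i q = 0 :=
        Finset.sum_eq_zero fun i _ => by rw [hz i, zero_smul]
      have e2 : ∑ i, G ⟨t0, i⟩ • y0 i q = 0 :=
        Finset.sum_eq_zero fun i _ => by rw [hz i, zero_smul]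
      rw [e2] at hsum
      rw [e1]
      exact hsum

end JointAux

theorem Joint : S_RM → S_Joint := by
  intro hRM ι _ F _ X _ _ U hU T _ I Y hR N
  classical
  haveI : Fintype T := Fintype.ofFinite T
  obtain ⟨y, hy, hind⟩ := JointAux.step hRM U hU I Y hR N Finset.univ
  refine ⟨y, fun t s => hy t (Finset.mem_univ t) s, fun q => ?_⟩
  rw [JointAux.li_iff]
  intro g hg s
  let G : (Σ t : T, Fin (N t)) → F q := fun s => if h : q ∈ I s.1 then g ⟨s, h⟩ else 0
  have h0 : ∀ s : (Σ t : T, Fin (N t)), ¬ (s.1 ∈ (Finset.univ : Finset T) ∧ q ∈ I s.1) →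
      G s = 0 := by
    intro s hs
    have hq : q ∉ I s.1 := fun h => hs ⟨Finset.mem_univ _, h⟩
    simp only [G, dif_neg hq]
  have hsum : ∑ s : (Σ t : T, Fin (N t)), G s • y s.1 s.2 q =
      ∑ s : {s : (Σ t : T, Fin (N t)) // q ∈ I s.1}, g s • y s.1.1 s.1.2 q := by
    have h1 : ∑ s ∈ Finset.univ.filter (fun s : (Σ t : T, Fin (N t)) => q ∈ I s.1),
        G s • y s.1 s.2 q = ∑ s : (Σ t : T, Fin (N t)), G s • y s.1 s.2 q := by
      apply Finset.sum_filter_of_ne
      intro s _ hs
      by_contra hq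
      apply hs
      simp only [G, dif_neg hq, zero_smul]
    rw [← h1, Finset.sum_subtype (Finset.univ.filter
      (fun s : (Σ t : T, Fin (N t)) => q ∈ I s.1)) (p := fun s => q ∈ I s.1) (fun x => by simp)]
    refine Finset.sum_congr rfl fun s _ => ?_
    have h2 : G s.1 = g s := by
      simp only [G, dif_pos s.2]
    rw [h2]
  have h3 := hind q G h0 (by rw [hsum]; exact hg) s.1
  have h4 : G s.1 = g s := by
    simp only [G, dif_pos s.2]
  rw [← h4]
  exact h3

end Pool.Agent.Lib.MP_f44088_fb
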