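import Mathlib
import Pool.Agent.Lib.MP_f44088_al.FB3.Spec2

/-! Project FB3, part L: the lemma on coloured point sets. -/

set_option autoImplicit false

namespace Pool.Agent.Lib.MP_f44088_fb

namespace LWAux

/-- germs along the hyperfilter -/
abbrev Ge (E : Type) : Type := Filter.Germ (Filter.hyperfilter ℕ : Filter ℕ) E

theorem ext_map {K V : Type} [Field K] [AddCommGroup V] [Module K V] {S : Type} (x : S → V)
    (h : LinearIndependent K x) (f : S → V) : ∃ π : V →ₗ[K] V, ∀ s, π (x s) = f s := by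
  obtain ⟨g, hg⟩ := LinearMap.exists_leftInverse_of_injective (Finsupp.linearCombination K x)
    (LinearMap.ker_eq_bot.2 h)
  refine ⟨(Finsupp.linearCombination K f).comp g, fun s => ?_⟩
  have h1 : g (x s) = Finsupp.single s 1 := by
    have h2 := LinearMap.congr_fun hg (Finsupp.single s 1)
    simpa using h2
  simp [h1]

/-- the points whose coordinates are germs of a sequence of points -/
def Zs {ι : Type} {E : ι → Type} (Z : ℕ → Set (∀ q, E q)) : Set (∀ q, Ge (E q)) :=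
  {z | ∃ ζ : ℕ → ∀ q, E q, (∀ᶠ i in (Filter.hyperfilter ℕ : Filter ℕ), ζ i ∈ Z i) ∧
    ∀ q, z q = ((fun i => ζ i q : ℕ → E q) : Ge (E q))}

theorem cover {ι : Type} [Finite ι] {E : ι → Type} [∀ q, AddCommGroup (E q)]
    (Z : ℕ → Set (∀ q, E q)) (T : Type) (I : T → Set ι) (v : T → ∀ q, Ge (E q))
    (r : T → ∀ q, ℕ → E q)
    (hr : ∀ t, ∀ q, q ∉ I t → ((r t q : ℕ → E q) : Ge (E q)) = v t q)
    (hc : ∀ z ∈ Zs Z, ∃ t, ∀ q, q ∉ I t → z q = v t q) :
    ∀ᶠ i in (Filter.hyperfilter ℕ : Filter ℕ), ∀ z ∈ Z i, ∃ t, ∀ q, q ∉ I t → z q = r t q i := by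
  classical
  by_contra hcon
  have hf := Ultrafilter.frequently_iff_eventually.1 (Filter.not_eventually.1 hcon)
  let ζ : ℕ → ∀ q, E q := fun i =>
    if h : ∃ z ∈ Z i, ¬ ∃ t, ∀ q, q ∉ I t → z q = r t q i then h.choose else 0
  have hζ : ∀ᶠ i in (Filter.hyperfilter ℕ : Filter ℕ),
      ζ i ∈ Z i ∧ ¬ ∃ t, ∀ q, q ∉ I t → ζ i q = r t q i := by
    filter_upwards [hf] with i hi
    have h : ∃ z ∈ Z i, ¬ ∃ t, ∀ q, q ∉ I t → z q = r t q i := by
      by_contra h1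
      apply hi
      intro z hz
      by_contra h2
      exact h1 ⟨z, hz, h2⟩
    have h3 : ζ i = h.choose := by
      simp only [ζ, dif_pos h]
    rw [h3]
    exact h.choose_spec
  obtain ⟨t, ht⟩ := hc (fun q => ((fun i => ζ i q : ℕ → E q) : Ge (E q)))
    ⟨ζ, hζ.mono (fun i h => h.1), fun q => rfl⟩
  have h2 : ∀ᶠ i in (Filter.hyperfilter ℕ : Filter ℕ), ∀ q, q ∉ I t → ζ i q = r t q i := by
    rw [Filter.eventually_all]
    intro q
    by_cases hq : q ∈ I t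
    · exact Filter.Eventually.of_forall (fun i h => absurd hq h)
    · have h4 := (ht q hq).trans (hr t q hq).symm
      exact (Filter.Germ.coe_eq.1 h4).mono (fun i h _ => h)
  obtain ⟨i, h3, h4⟩ := (hζ.and h2).exists
  exact h3.2 ⟨t, h4⟩

theorem germ_sum {K V S : Type} [Field K] [AddCommGroup V] [Module K V] [Fintype S] (c : S → K)
    (f : S → ℕ → V) :
    (((fun i => ∑ s, c s • f s i) : ℕ → V) : Ge V) = ∑ s, c s • ((f s : ℕ → V) : Ge V) := by
  have h := map_sum (Filter.Germ.coeAddHom (M := V) (Filter.hyperfilter ℕ : Filter ℕ))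
    (fun s => c s • f s) Finset.univ
  have e : (fun i => ∑ s, c s • f s i) = ∑ s, c s • f s := by
    funext i
    simp [Finset.sum_apply]
  rw [e]
  exact h

end LWAux

open LWAux in
theorem LW : S_Str → S_RM → S_Joint → S_Ger → S_LW := by
  intro hStr hRM hJoint hGer ι _ F _ _ E _ _ C _ Z hZ
  classical
  choose U0 T0 I0 v0 hFG hfin hv hcov hrich using
    fun c => hStr ι F (fun q => Ge (E q)) (Zs (fun i => Z i c))
  have hU : ∀ q, (⨆ c, U0 c q).FG := fun q => Submodule.fg_iSup _ (fun c => hFG c q)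
  have hR : ∀ t : (Σ c, T0 c), Rich (fun q => ⨆ c, U0 c q) (I0 t.1 t.2)
      {z | z ∈ Zs (fun i => Z i t.1) ∧ ∀ q, q ∉ I0 t.1 t.2 → z q = v0 t.1 t.2 q} :=
    fun t => hRM ι F (fun q => Ge (E q)) (U0 t.1) (fun q => ⨆ c, U0 c q) _ _ (hrich t.1 t.2)
      (fun q => le_iSup (fun c => U0 c q) t.1) hU
  have hMF : ∀ q, Module.Finite (F q) (⨆ c, U0 c q : Submodule (F q) (Ge (E q))) :=
    fun q => Module.Finite.iff_fg.2 (hU q)
  let b := fun q => Module.finBasis (F q) (⨆ c, U0 c q : Submodule (F q) (Ge (E q)))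
  have hrep : ∀ q (s : Fin (Module.finrank (F q) (⨆ c, U0 c q : Submodule (F q) (Ge (E q))))),
      ∃ f : ℕ → E q, ((f : ℕ → E q) : Ge (E q)) = (b q s : Ge (E q)) :=
    fun q s => Quotient.exists_rep (b q s : Ge (E q))
  choose rb hrb using hrep
  have hcoef : ∀ (t : (Σ c, T0 c)) (q : ι), ∃ co : Fin (Module.finrank (F q)
      (⨆ c, U0 c q : Submodule (F q) (Ge (E q)))) → F q, q ∉ I0 t.1 t.2 →
      (((fun i => ∑ s, co s • rb q s i) : ℕ → E q) : Ge (E q)) = v0 t.1 t.2 q := by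
    intro t q
    by_cases hq : q ∈ I0 t.1 t.2
    · exact ⟨0, fun h => absurd hq h⟩
    · have hm : v0 t.1 t.2 q ∈ (⨆ c, U0 c q : Submodule (F q) (Ge (E q))) :=
        le_iSup (fun c => U0 c q) t.1 (hv t.1 t.2 q hq)
      refine ⟨fun s => (b q).repr ⟨_, hm⟩ s, fun _ => ?_⟩
      rw [germ_sum]
      have h1 := congrArg Subtype.val ((b q).sum_repr ⟨_, hm⟩)
      simp only [Submodule.coe_sum, Submodule.coe_smul] at h1
      simp only [hrb]
      exact h1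
  choose co hco using hcoef
  have hA : ∀ᶠ i in (Filter.hyperfilter ℕ : Filter ℕ), ∀ c, ∀ z ∈ Z i c, ∃ t : T0 c,
      ∀ q, q ∉ I0 c t → z q = ∑ s, co ⟨c, t⟩ q s • rb q s i :=
    Filter.eventually_all.2 (fun c => cover (fun i => Z i c) (T0 c) (I0 c) (v0 c)
      (fun t q i => ∑ s, co ⟨c, t⟩ q s • rb q s i) (fun t q hq => hco ⟨c, t⟩ q hq) (hcov c))
  obtain ⟨i, hAi⟩ := hA.exists
  have hWf : ∀ t : (Σ c, T0 c), Finite {z | z ∈ Z i t.1 ∧ ∀ q, q ∉ I0 t.1 t.2 →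
      z q = ∑ s, co t q s • rb q s i} :=
    fun t => ((hZ i t.1).subset (fun z h => h.1)).to_subtype
  let e := fun t : (Σ c, T0 c) => Finite.equivFin {z | z ∈ Z i t.1 ∧ ∀ q, q ∉ I0 t.1 t.2 →
      z q = ∑ s, co t q s • rb q s i}
  obtain ⟨y, hy, hyi⟩ := hJoint ι F (fun q => Ge (E q)) (fun q => ⨆ c, U0 c q) hU (Σ c, T0 c)
    (fun t => I0 t.1 t.2)
    (fun t => {z | z ∈ Zs (fun i => Z i t.1) ∧ ∀ q, q ∉ I0 t.1 t.2 → z q = v0 t.1 t.2 q}) hR
    (fun t => Nat.card {z | z ∈ Z i t.1 ∧ ∀ q, q ∉ I0 t.1 t.2 →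
      z q = ∑ s, co t q s • rb q s i})
  choose ry hry1 hry2 using fun t s => (hy t s).1
  have hG : ∀ᶠ j in (Filter.hyperfilter ℕ : Filter ℕ), ∀ q, LinearIndependent (F q)
      (fun s => (Sum.elim (rb q) (fun (s : {s : (Σ t : (Σ c, T0 c), Fin (Nat.card {z | z ∈ Z i t.1 ∧
        ∀ q, q ∉ I0 t.1 t.2 → z q = ∑ s, co t q s • rb q s i})) // q ∈ I0 s.1.1 s.1.2}) j =>
          ry s.1.1 s.1.2 j q) s : ℕ → E q) j) := by
    refine Filter.eventually_all.2 (fun q => hGer (F q) (E q) _ _ ?_)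
    have h := LinearIndependent.sumElim_of_quotient (b q).linearIndependent
      (fun s : {s : (Σ t : (Σ c, T0 c), Fin (Nat.card {z | z ∈ Z i t.1 ∧
        ∀ q, q ∉ I0 t.1 t.2 → z q = ∑ s, co t q s • rb q s i})) // q ∈ I0 s.1.1 s.1.2} =>
          y s.1.1 s.1.2 q) (hyi q)
    have he : (Sum.elim (fun s => ((b q s : (⨆ c, U0 c q : Submodule (F q) (Ge (E q)))) : Ge (E q)))
        (fun s : {s : (Σ t : (Σ c, T0 c), Fin (Nat.card {z | z ∈ Z i t.1 ∧
        ∀ q, q ∉ I0 t.1 t.2 → z q = ∑ s, co t q s • rb q s i})) // q ∈ I0 s.1.1 s.1.2} =>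
          y s.1.1 s.1.2 q)) = (fun s => ((Sum.elim (rb q) (fun (s : {s : (Σ t : (Σ c, T0 c),
        Fin (Nat.card {z | z ∈ Z i t.1 ∧
        ∀ q, q ∉ I0 t.1 t.2 → z q = ∑ s, co t q s • rb q s i})) // q ∈ I0 s.1.1 s.1.2}) j =>
          ry s.1.1 s.1.2 j q) s : ℕ → E q) : Ge (E q))) := by
      funext s
      rcases s with s | s
      · exact (hrb q s).symm
      · exact hry2 s.1.1 s.1.2 q
    rw [← he]
    exact h
  have hM : ∀ᶠ j in (Filter.hyperfilter ℕ : Filter ℕ), ∀ t s, ry t s j ∈ Z j t.1 :=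
    Filter.eventually_all.2 (fun t => Filter.eventually_all.2 (fun s => hry1 t s))
  have hV : ∀ᶠ j in (Filter.hyperfilter ℕ : Filter ℕ), ∀ t s q, q ∉ I0 t.1 t.2 →
      ry t s j q = ∑ s', co t q s' • rb q s' j := by
    refine Filter.eventually_all.2 (fun t => Filter.eventually_all.2 (fun s =>
      Filter.eventually_all.2 (fun q => ?_)))
    by_cases hq : q ∈ I0 t.1 t.2
    · exact Filter.Eventually.of_forall (fun i h => absurd hq h)
    · have h4 := (hry2 t s q).symm.trans (((hy t s).2 q hq).trans (hco t q hq).symm)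
      exact (Filter.Germ.coe_eq.1 h4).mono (fun i h _ => h)
  have hgt : ∀ᶠ j in (Filter.hyperfilter ℕ : Filter ℕ), i < j :=
    (Filter.hyperfilter_le_cofinite.trans Nat.cofinite_eq_atTop.le) (Filter.eventually_gt_atTop i)
  obtain ⟨j, hGj, hMj, hVj, hij⟩ := (hG.and (hM.and (hV.and hgt))).exists
  choose π hπ using fun q => ext_map _ (hGj q)
    (Sum.elim (fun s => rb q s i) (fun s => ((e s.1.1).symm s.1.2).1 q))
  refine ⟨i, j, hij, π, fun c z hz => ?_⟩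
  obtain ⟨t, ht⟩ := hAi c z hz
  refine ⟨ry ⟨c, t⟩ (e ⟨c, t⟩ ⟨z, hz, ht⟩) j, hMj ⟨c, t⟩ _, fun q => ?_⟩
  by_cases hq : q ∈ I0 c t
  · have h := hπ q (Sum.inr ⟨⟨⟨c, t⟩, e ⟨c, t⟩ ⟨z, hz, ht⟩⟩, hq⟩)
    simp only [Sum.elim_inr, Equiv.symm_apply_apply] at h
    exact h
  · rw [hVj ⟨c, t⟩ _ q hq, ht q hq, map_sum]
    refine Finset.sum_congr rfl (fun s _ => ?_)
    rw [map_smul]
    have h := hπ q (Sum.inl s)
    simp only [Sum.elim_inl] at h
    rw [h]

end Pool.Agent.Lib.MP_f44088_fb
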