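import Pool.Agent.Lib.MP_f44088_al.FB3.Spec

/-! Project FB3: (Lr), a complement of the `r`-part, by averaging a crossed homomorphism (the abelian normal
subgroup `B` has a complement in `H` as it has one in a Sylow subgroup). -/

set_option autoImplicit false

namespace Pool.Agent.Lib.MP_f44088_fb

namespace LrAux

section

variable {H : Type} [Group H] {B : Subgroup H}

/-- a crossed homomorphism which is the identity on `B` gives a complement -/
theorem of_crossed (hcomm : ∀ x ∈ B, ∀ y ∈ B, x * y = y * x) (ρ : H → H) (hρB : ∀ x, ρ x ∈ B)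
    (hρ : ∀ x y, ρ (x * y) = ρ x * (x * ρ y * x⁻¹)) (hid : ∀ b ∈ B, ρ b = b) :
    ∃ L : Subgroup H, (∀ x ∈ B, x ∈ L → x = 1) ∧ ∀ g : H, ∃ b ∈ B, ∃ l ∈ L, g = b * l := by
  have h1 : ρ 1 = 1 := hid 1 B.one_mem
  refine ⟨{ carrier := {x | ρ x = 1}, mul_mem' := ?_, one_mem' := h1, inv_mem' := ?_ }, ?_, ?_⟩
  · intro x y hx hy
    change ρ (x * y) = 1
    rw [hρ, hx, hy]
    group
  · intro x hx
    change ρ x⁻¹ = 1
    have h2 := hρ x⁻¹ x
    rw [inv_mul_cancel, h1, hx] at h2
    simpa using h2.symm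
  · intro x hx hxL
    rw [← hid x hx]
    exact hxL
  · intro g
    refine ⟨ρ g, hρB g, (ρ g)⁻¹ * g, ?_, by group⟩
    change ρ ((ρ g)⁻¹ * g) = 1
    rw [hρ, hid _ (B.inv_mem (hρB g)), inv_inv, hcomm _ (B.inv_mem (hρB g)) _ (hρB g)]
    group

end

/-- the averaging: `B ≤ R`, `R` abelian of index prime to `r`, `B` of exponent `r`, `π : R → B` a projection -/
theorem average {H : Type} [Group H] [Finite H] (B R : Subgroup H) (hB : B.Normal) (hBR : B ≤ R)
    (hR : ∀ x ∈ R, ∀ y ∈ R, x * y = y * x) (π : R →* B) (hπ : ∀ b : B, π ⟨b, hBR b.2⟩ = b)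
    (r : ℕ) (hr : 1 < r) (hBr : ∀ b ∈ B, b ^ r = 1) (hidx : R.index.Coprime r) :
    ∃ L : Subgroup H, (∀ x ∈ B, x ∈ L → x = 1) ∧ ∀ g : H, ∃ b ∈ B, ∃ l ∈ L, g = b * l := by
  classical
  have hcomm : ∀ x ∈ B, ∀ y ∈ B, x * y = y * x := fun x hx y hy => hR x (hBR hx) y (hBR hy)
  let _ : CommGroup B :=
    { (inferInstance : Group B) with
      mul_comm := fun a b => Subtype.ext (hcomm a a.2 b b.2) }
  let _ : Fintype (H ⧸ R) := Fintype.ofFinite _
  -- conjugation on `B`
  let cj : H → B →* B := fun g =>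
    { toFun := fun b => ⟨g * b * g⁻¹, hB.conj_mem b b.2 g⟩
      map_one' := Subtype.ext (by simp)
      map_mul' := fun a b => Subtype.ext (by simp) }
  have cj_coe : ∀ (g : H) (b : B), (cj g b : H) = g * b * g⁻¹ := fun _ _ => rfl
  have cj_mul : ∀ (g g' : H) (b : B), cj (g * g') b = cj g (cj g' b) := fun g g' b =>
    Subtype.ext (by simp only [cj_coe]; group)
  have cj_R : ∀ g ∈ R, ∀ b : B, cj g b = b := fun g hg b => Subtype.ext (by
    rw [cj_coe, hR g hg b (hBR b.2)]
    group)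
  -- the elements `t_(xc)⁻¹ x t_c`
  have hmem : ∀ (x : H) (c : H ⧸ R), (x • c).out⁻¹ * (x * c.out) ∈ R := by
    intro x c
    rw [← QuotientGroup.eq]
    have h1 : ((x • c).out : H ⧸ R) = x • c := QuotientGroup.out_eq' _
    have h2 : ((x * c.out : H) : H ⧸ R) = x • c := by
      conv_rhs => rw [← QuotientGroup.out_eq' c]
      rfl
    exact h1.trans h2.symm
  let q : H → (H ⧸ R) → R := fun x c => ⟨(x • c).out⁻¹ * (x * c.out), hmem x c⟩
  have q_coe : ∀ x c, (q x c : H) = (x • c).out⁻¹ * (x * c.out) := fun _ _ => rfl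
  have q_mul : ∀ x y c, q (x * y) c = q x (y • c) * q y c := fun x y c => Subtype.ext (by
    rw [Subgroup.coe_mul, q_coe, q_coe, q_coe, mul_smul]
    group)
  let V : H → B := fun x => ∏ c : H ⧸ R, cj (x • c).out (π (q x c))
  have V_mul : ∀ x y, V (x * y) = V x * cj x (V y) := by
    intro x y
    have h1 : V x = ∏ c : H ⧸ R, cj (x • (y • c)).out (π (q x (y • c))) :=
      (Fintype.prod_equiv (MulAction.toPerm y) _ _ fun c => rfl).symm
    have h2 : cj x (V y) = ∏ c : H ⧸ R, cj (x • (y • c)).out (π (q y c)) := by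
      rw [map_prod]
      refine Finset.prod_congr rfl fun c _ => ?_
      rw [← cj_mul]
      have h3 : x * (y • c).out = (x • (y • c)).out * (q x (y • c) : H) := by
        rw [q_coe]
        group
      rw [h3, cj_mul, cj_R _ (q x (y • c)).2]
    rw [h1, h2, ← Finset.prod_mul_distrib]
    refine Finset.prod_congr rfl fun c _ => ?_
    rw [← map_mul, ← map_mul, ← q_mul, mul_smul]
  have V_B : ∀ b : B, V b = b ^ R.index := by
    intro b
    have h1 : ∀ c : H ⧸ R, cj ((b : H) • c).out (π (q b c)) = b := by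
      intro c
      have h2 : (c.out)⁻¹ * b * c.out ∈ B := by
        have := hB.conj_mem b b.2 (c.out)⁻¹
        rwa [inv_inv] at this
      have h3 : (b : H) • c = c := by
        conv_lhs => rw [← QuotientGroup.out_eq' c]
        conv_rhs => rw [← QuotientGroup.out_eq' c]
        change (((b : H) * c.out : H) : H ⧸ R) = _
        rw [eq_comm, QuotientGroup.eq, ← mul_assoc]
        exact hBR h2
      have h4 : q b c = ⟨((⟨_, h2⟩ : B) : H), hBR h2⟩ := Subtype.ext (by
        rw [q_coe, h3]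
        group)
      rw [h4, hπ, h3]
      refine Subtype.ext ?_
      rw [cj_coe]
      group
    change ∏ c : H ⧸ R, cj ((b : H) • c).out (π (q b c)) = _
    rw [Finset.prod_congr rfl fun c _ => h1 c, Finset.prod_const, Finset.card_univ,
      Subgroup.index_eq_card, Nat.card_eq_fintype_card]
  obtain ⟨m', -, hm'⟩ := Nat.exists_mul_mod_eq_one_of_coprime hidx hr
  refine of_crossed hcomm (fun x => ((V x ^ m' : B) : H)) (fun x => (V x ^ m').2) ?_ ?_
  · intro x y
    rw [← cj_coe, ← Subgroup.coe_mul, V_mul, mul_pow, map_pow]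
  · intro b hb
    have h1 := V_B ⟨b, hb⟩
    have h2 : V b = (⟨b, hb⟩ : B) ^ R.index := h1
    rw [h2, ← pow_mul, Subgroup.coe_pow]
    change b ^ (R.index * m') = b
    have h3 := Nat.div_add_mod (R.index * m') r
    rw [hm'] at h3
    rw [← h3, pow_add, pow_mul, hBr b hb, one_pow, one_mul, pow_one]

/-- a linear projection onto a subspace -/
theorem proj_mod {k V : Type} [Field k] [AddCommGroup V] [Module k V] (W : Submodule k V) :
    ∃ π : V →+ V, (∀ v, π v ∈ W) ∧ ∀ w ∈ W, π w = w := by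
  obtain ⟨g, hg⟩ := LinearMap.exists_leftInverse_of_injective W.subtype
    (LinearMap.ker_eq_bot.2 Subtype.val_injective)
  refine ⟨(W.subtype.comp g).toAddMonoidHom, fun v => (g v).2, fun w hw => ?_⟩
  have h := congrArg (fun φ => ((φ ⟨w, hw⟩ : W) : V)) hg
  exact h

/-- a projection of an elementary abelian group onto a subgroup -/
theorem exists_proj' {R : Type} [CommGroup R] (r : ℕ) (hp : r.Prime)
    (he : ∀ x : R, x ^ r = 1) (B : Subgroup R) : ∃ π : R →* B, ∀ b : B, π b = b := by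
  have hf : Fact r.Prime := ⟨hp⟩
  let m1 : Module (ZMod r) (Additive R) := AddCommGroup.zmodModule fun x => he x.toMul
  obtain ⟨π, h1, h2⟩ := proj_mod (AddSubgroup.toZModSubmodule r (Subgroup.toAddSubgroup B))
  refine ⟨{ toFun := fun x => ⟨(π (Additive.ofMul x)).toMul, h1 (Additive.ofMul x)⟩
            map_one' := ?_
            map_mul' := ?_ }, fun b => ?_⟩
  · refine Subtype.ext ?_
    exact map_zero π
  · intro x y
    refine Subtype.ext ?_
    exact map_add π (Additive.ofMul x) (Additive.ofMul y)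
  · refine Subtype.ext ?_
    exact h2 (Additive.ofMul (b : R)) b.2

/-- a projection of an elementary abelian group onto a subgroup -/
theorem exists_proj {R : Type} [Group R] (r : ℕ) (hp : r.Prime) (hc : ∀ x y : R, x * y = y * x)
    (he : ∀ x : R, x ^ r = 1) (B : Subgroup R) : ∃ π : R →* B, ∀ b : B, π b = b :=
  @exists_proj' R { (inferInstance : Group R) with mul_comm := hc } r hp he B

end LrAux

theorem Lr : S_Conj → S_EU → S_Lr := by
  intro _ _ n hn H _ _ hexp hab A hA hAc r hr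
  have hfact : Fact r.Prime := ⟨hr⟩
  have hAn : A.Normal := Subgroup.Normal.of_commutator_le H hA
  let B : Subgroup H :=
    { carrier := {x | x ∈ A ∧ x ^ r = 1}
      mul_mem' := fun {x y} hx hy => ⟨A.mul_mem hx.1 hy.1, by
        rw [(show Commute x y from hAc x hx.1 y hy.1).mul_pow, hx.2, hy.2, one_mul]⟩
      one_mem' := ⟨A.one_mem, one_pow r⟩
      inv_mem' := fun {x} hx => ⟨A.inv_mem hx.1, by rw [inv_pow, hx.2, inv_one]⟩ }
  have hBmem : ∀ x, x ∈ B ↔ x ∈ A ∧ x ^ r = 1 := fun _ => Iff.rfl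
  have hBn : B.Normal := ⟨fun x hx g => ⟨hAn.conj_mem x hx.1 g, by
    rw [conj_pow, hx.2]
    group⟩⟩
  have hBp : IsPGroup r B := fun x => ⟨1, Subtype.ext (by
    rw [pow_one]
    exact x.2.2)⟩
  obtain ⟨Q, hQ⟩ := hBp.exists_le_sylow
  have hQc := hab r hr Q Q.isPGroup'
  have hQe : ∀ x : Q, x ^ r = 1 := by
    intro x
    obtain ⟨k, hk⟩ := Q.isPGroup' x
    have h1 : orderOf x ∣ r ^ k := orderOf_dvd_of_pow_eq_one hk
    obtain ⟨j, -, hj⟩ := (Nat.dvd_prime_pow hr).1 h1
    have h2 : orderOf x ∣ n := orderOf_dvd_of_pow_eq_one (Subtype.ext (hexp x))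
    have h3 : j ≤ 1 := by
      by_contra hcon
      have h4 : r * r ∣ n := by
        refine dvd_trans ?_ h2
        rw [hj, ← pow_two]
        exact pow_dvd_pow r (by omega)
      exact hr.one_lt.ne' (Nat.isUnit_iff.1 (hn r h4))
    refine orderOf_dvd_iff_pow_eq_one.1 ?_
    rw [hj]
    exact (pow_dvd_pow r h3).trans (by rw [pow_one])
  obtain ⟨π, hπ⟩ := LrAux.exists_proj r hr (fun x y : Q => Subtype.ext (hQc x x.2 y y.2)) hQe
    (B.subgroupOf Q)
  let e : B.subgroupOf Q ≃* B := Subgroup.subgroupOfEquivOfLe hQ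
  have hidx : (Q : Subgroup H).index.Coprime r := by
    rw [Nat.coprime_comm]
    exact (Nat.Prime.coprime_iff_not_dvd hr).2 Q.not_dvd_index
  obtain ⟨L, hL1, hL2⟩ := LrAux.average B Q hBn hQ hQc (e.toMonoidHom.comp π) (fun b => by
    have h1 := hπ (e.symm b)
    have h2 : ((e.symm b : B.subgroupOf Q) : Q) = ⟨b, hQ b.2⟩ := Subtype.ext (by
      simp [e])
    rw [h2] at h1
    rw [MonoidHom.comp_apply, h1]
    exact e.apply_symm_apply b) r hr.one_lt (fun b hb => hb.2) hidx
  refine ⟨L, fun x hx hxr hxL => hL1 x ⟨hx, hxr⟩ hxL, fun g => ?_⟩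
  obtain ⟨b, hb, l, hl, hg⟩ := hL2 g
  exact ⟨b, hb.1, hb.2, l, hl, hg⟩

end Pool.Agent.Lib.MP_f44088_fb
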