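import Pool.Agent.Lib.MP_f44088_al.FB3.Spec
import Pool.Agent.Lib.MP_f44088_al.FB3.Spec2

set_option autoImplicit false

namespace Pool.Agent.Lib.MP_f44088_fb

theorem Main : S_Cod → S_Sec → S_WC → S_Main := by
  intro hCod hSec hWC n hn G h1 h2
  choose p hp hc using fun i => hCod n hn (G i).C (h1 i) (h2 i)
  -- infinitely many i with the same p
  obtain ⟨q, hq⟩ : ∃ q ∈ n.primeFactors, {i | p i = q}.Infinite := by
    by_contra hcon
    have hfin : (⋃ q ∈ n.primeFactors, {i | p i = q}).Finite := by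
      apply Set.Finite.biUnion n.primeFactors.finite_toSet
      intro q hq
      by_contra h
      exact hcon ⟨q, hq, h⟩
    have huniv : (Set.univ : Set ℕ) ⊆ ⋃ q ∈ n.primeFactors, {i | p i = q} := by
      intro i _
      simp only [Set.mem_iUnion]
      exact ⟨p i, hp i, rfl⟩
    exact Set.infinite_univ (hfin.subset huniv)
  obtain ⟨hqn, hinf⟩ := hq
  have hqp : q.Prime := Nat.prime_of_mem_primeFactors hqn
  haveI : Fact q.Prime := ⟨hqp⟩
  have hmono : StrictMono (Nat.nth (fun i => p i = q)) := Nat.nth_strictMono hinf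
  have hs : ∀ i, p (Nat.nth (fun i => p i = q) i) = q := fun i => Nat.nth_mem_of_infinite hinf i
  have hcc : ∀ i, ∃ c : Code n (AlgebraicClosure (ZMod q)),
      InVar (G (Nat.nth (fun i => p i = q) i)).C (GA c.A) ∧
      InVar (GA c.A) (G (Nat.nth (fun i => p i = q) i)).C := by
    intro i
    have h := hc (Nat.nth (fun i => p i = q) i)
    rw [hs i] at h
    exact h (AlgebraicClosure (ZMod q))
  choose c hc1 hc2 using hcc
  obtain ⟨i, j, hij, hb⟩ := hWC n hn q hqp (AlgebraicClosure (ZMod q)) c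
  refine ⟨_, _, hmono hij, ?_⟩
  exact (hc1 i).trans ((hSec _ _ _ _ _ (c j).ok.tr hb).trans (hc2 j))

end Pool.Agent.Lib.MP_f44088_fb
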