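import Pool.Agent.Lib.MP_f44088_al.FB3.Spec

set_option autoImplicit false

/-! Project FB3: a maximal abelian subgroup above the commutator subgroup. -/

namespace Pool.Agent.Lib.MP_f44088_fb

open scoped commutatorElement

namespace MaxAAux

theorem closure_comm {G : Type} [Group G] {s : Set G} (h : ∀ x ∈ s, ∀ y ∈ s, x * y = y * x) :
    ∀ x ∈ Subgroup.closure s, ∀ y ∈ Subgroup.closure s, x * y = y * x := by
  have h1 : Subgroup.closure s ≤ Subgroup.centralizer s := by
    rw [Subgroup.closure_le]
    intro x hx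
    exact Subgroup.mem_centralizer_iff.mpr fun y hy => h y hy x hx
  have h2 : Subgroup.closure s ≤ Subgroup.centralizer (Subgroup.closure s : Set G) := by
    rw [Subgroup.closure_le]
    intro x hx
    exact Subgroup.mem_centralizer_iff.mpr fun y hy =>
      (Subgroup.mem_centralizer_iff.mp (h1 hy) x hx).symm
  intro x hx y hy
  exact Subgroup.mem_centralizer_iff.mp (h2 hy) x hx

end MaxAAux

theorem MaxA : S_MaxA := by
  intro H _ _ hH
  have hcomm : ∀ x ∈ commutator H, ∀ y ∈ commutator H, x * y = y * x := by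
    intro x hx y hy
    have h1 : ⁅x, y⁆ ∈ derivedSeries H 2 := by
      rw [derivedSeries_succ, derivedSeries_one]
      exact Subgroup.commutator_mem_commutator hx hy
    rw [hH, Subgroup.mem_bot] at h1
    exact commutatorElement_eq_one_iff_mul_comm.mp h1
  let S : Set (Subgroup H) := {A | commutator H ≤ A ∧ ∀ x ∈ A, ∀ y ∈ A, x * y = y * x}
  have hS : S.Nonempty := ⟨commutator H, le_rfl, hcomm⟩
  obtain ⟨A, hA⟩ := S.toFinite.exists_maximal hS
  refine ⟨A, hA.prop.1, hA.prop.2, fun g hg => ?_⟩
  have hs : ∀ x ∈ insert g (A : Set H), ∀ y ∈ insert g (A : Set H), x * y = y * x := by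
    rintro x (rfl | hx) y (rfl | hy)
    · rfl
    · exact hg y hy
    · exact (hg x hx).symm
    · exact hA.prop.2 x hx y hy
  have hle : A ≤ Subgroup.closure (insert g (A : Set H)) := fun x hx =>
    Subgroup.subset_closure (Set.mem_insert_of_mem g hx)
  have hB : Subgroup.closure (insert g (A : Set H)) ∈ S :=
    ⟨hA.prop.1.trans hle, MaxAAux.closure_comm hs⟩
  exact hA.le_of_ge hB hle (Subgroup.subset_closure (Set.mem_insert g _))

end Pool.Agent.Lib.MP_f44088_fb
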