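import Pool.Agent.Lib.MP_f44088_al.FB3.Spec
import Mathlib

/-! Project FB3 (MP_f44088_al), module MinN: Maschke, the bottom layer is a minimal normal subgroup. -/

set_option autoImplicit false

namespace Pool.Agent.Lib.MP_f44088_fb

namespace MinNAux

/-- Maschke's theorem in the form used: an invariant subspace has an invariant complement. -/
theorem maschke {p : ℕ} [Fact p.Prime] {V Q : Type} [AddCommGroup V] [Module (ZMod p) V]
    [Group Q] [Finite Q] (hQ : ¬ p ∣ Nat.card Q) (ρ : Q →* Module.End (ZMod p) V)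
    (N : Submodule (ZMod p) V) (hN : ∀ q, ∀ v ∈ N, ρ q v ∈ N) :
    ∃ N' : Submodule (ZMod p) V, (∀ q, ∀ v ∈ N', ρ q v ∈ N') ∧ N ⊓ N' = ⊥ ∧ N ⊔ N' = ⊤ := by
  haveI := Fintype.ofFinite Q
  obtain ⟨C, hC⟩ := Submodule.exists_isCompl N
  set e : Module.End (ZMod p) V := N.subtype ∘ₗ (N.linearProjOfIsCompl C hC) with he
  have e1 : ∀ v, e v ∈ N := fun v => (N.linearProjOfIsCompl C hC v).2
  have e2 : ∀ v ∈ N, e v = v := by
    intro v hv
    have h1 : N.linearProjOfIsCompl C hC v = ⟨v, hv⟩ :=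
      Submodule.linearProjOfIsCompl_apply_left hC ⟨v, hv⟩
    show ((N.linearProjOfIsCompl C hC v : N) : V) = v
    rw [h1]
  set c : ZMod p := ((Fintype.card Q : ℕ) : ZMod p) with hc
  have hc0 : c ≠ 0 := by
    rw [hc, Ne, ZMod.natCast_eq_zero_iff]
    rwa [Nat.card_eq_fintype_card] at hQ
  set E : Module.End (ZMod p) V := c⁻¹ • ∑ q : Q, ρ q * e * ρ q⁻¹ with hE
  have hEv : ∀ v, E v = c⁻¹ • ∑ q : Q, ρ q (e (ρ q⁻¹ v)) := by
    intro v
    rw [hE, LinearMap.smul_apply, LinearMap.sum_apply]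
    rfl
  have E1 : ∀ v, E v ∈ N := by
    intro v
    rw [hEv]
    exact N.smul_mem _ (N.sum_mem fun q _ => hN q _ (e1 _))
  have E2 : ∀ v ∈ N, E v = v := by
    intro v hv
    rw [hEv]
    have h1 : ∀ q : Q, ρ q (e (ρ q⁻¹ v)) = v := by
      intro q
      rw [e2 _ (hN q⁻¹ v hv), ← Module.End.mul_apply, ← map_mul, mul_inv_cancel, map_one,
        Module.End.one_apply]
    simp only [h1, Finset.sum_const, Finset.card_univ]
    rw [← Nat.cast_smul_eq_nsmul (ZMod p), smul_smul, inv_mul_cancel₀ hc0, one_smul]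
  have E3 : ∀ g : Q, ∀ v, E (ρ g v) = ρ g (E v) := by
    intro g v
    rw [hEv, hEv, map_smul, map_sum]
    refine congrArg (fun w => c⁻¹ • w) ?_
    refine Fintype.sum_equiv (Equiv.mulLeft g⁻¹) _ _ ?_
    intro q
    have h1 : ρ q⁻¹ (ρ g v) = ρ (g⁻¹ * q)⁻¹ v := by
      rw [← Module.End.mul_apply, ← map_mul]
      have h0 : q⁻¹ * g = (g⁻¹ * q)⁻¹ := by group
      rw [h0]
    have h2 : ∀ w, ρ g (ρ (g⁻¹ * q) w) = ρ q w := by
      intro w
      rw [← Module.End.mul_apply, ← map_mul]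
      have h0 : g * (g⁻¹ * q) = q := by group
      rw [h0]
    simp only [Equiv.coe_mulLeft]
    rw [h1, h2]
  refine ⟨LinearMap.ker E, ?_, ?_, ?_⟩
  · intro q v hv
    rw [LinearMap.mem_ker] at hv ⊢
    rw [E3, hv, map_zero]
  · rw [eq_bot_iff]
    intro v hv
    rw [Submodule.mem_inf, LinearMap.mem_ker] at hv
    rw [Submodule.mem_bot, ← E2 v hv.1, hv.2]
  · rw [eq_top_iff]
    intro v _
    have h1 : v = E v + (v - E v) := by abel
    rw [h1]
    refine Submodule.add_mem_sup (E1 v) ?_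
    rw [LinearMap.mem_ker, map_sub, E2 (E v) (E1 v), sub_self]

/-- automorphisms of a commutative group as linear maps -/
def autEnd (p : ℕ) (A : Type) [CommGroup A] [Module (ZMod p) (Additive A)] :
    MulAut A →* Module.End (ZMod p) (Additive A) where
  toFun a := (MonoidHom.toAdditive a.toMonoidHom).toZModLinearMap p
  map_one' := LinearMap.ext fun x => rfl
  map_mul' := fun a b => LinearMap.ext fun x => rfl

/-- Maschke for a group acting on an elementary abelian group by automorphisms. -/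
theorem maschkeMod {p : ℕ} [Fact p.Prime] {A Q : Type} [CommGroup A] [Group Q] [Finite Q]
    [Module (ZMod p) (Additive A)] (hQ : ¬ p ∣ Nat.card Q) (c : Q →* MulAut A) (N : Subgroup A)
    (hN : ∀ q, ∀ x ∈ N, c q x ∈ N) :
    ∃ M : Subgroup A, (∀ q, ∀ x ∈ M, c q x ∈ M) ∧ N ⊓ M = ⊥ ∧ N ⊔ M = ⊤ := by
  let ρ : Q →* Module.End (ZMod p) (Additive A) := (autEnd p A).comp c
  have hρ : ∀ (g : Q) (x : A), ρ g (Additive.ofMul x) = Additive.ofMul (c g x) :=
    fun g x => rfl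
  let NV : Submodule (ZMod p) (Additive A) :=
    AddSubgroup.toZModSubmodule p (Subgroup.toAddSubgroup N)
  have hNV : ∀ x : A, Additive.ofMul x ∈ NV ↔ x ∈ N := fun x => Iff.rfl
  obtain ⟨N', h1, h2, h3⟩ := maschke hQ ρ NV (by
    intro q v hv
    exact hN q (Additive.toMul v) hv)
  let M : Subgroup A := AddSubgroup.toSubgroup' N'.toAddSubgroup
  have hM : ∀ x : A, x ∈ M ↔ Additive.ofMul x ∈ N' := fun x => Iff.rfl
  refine ⟨M, ?_, ?_, ?_⟩
  · intro q x hx
    exact h1 q (Additive.ofMul x) hx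
  · rw [eq_bot_iff]
    rintro x ⟨hxN, hxM⟩
    have h4 : Additive.ofMul x ∈ NV ⊓ N' := ⟨(hNV x).2 hxN, (hM x).1 hxM⟩
    rw [h2, Submodule.mem_bot] at h4
    exact Additive.ofMul.injective h4
  · rw [eq_top_iff]
    intro x _
    have h4 : Additive.ofMul x ∈ NV ⊔ N' := by
      rw [h3]
      exact Submodule.mem_top
    obtain ⟨a, ha, b, hb, hab⟩ := Submodule.mem_sup.1 h4
    have h5 : Additive.toMul a * Additive.toMul b = x := hab
    rw [← h5]
    exact Subgroup.mul_mem_sup ha hb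

/-- Maschke for a group acting on an abelian group of exponent `p`. -/
theorem maschkeAut {p : ℕ} (hp : p.Prime) {A Q : Type} [CommGroup A] [Group Q] [Finite Q]
    (he : ∀ x : A, x ^ p = 1) (hQ : ¬ p ∣ Nat.card Q) (c : Q →* MulAut A) (N : Subgroup A)
    (hN : ∀ q, ∀ x ∈ N, c q x ∈ N) :
    ∃ M : Subgroup A, (∀ q, ∀ x ∈ M, c q x ∈ M) ∧ N ⊓ M = ⊥ ∧ N ⊔ M = ⊤ := by
  haveI : Fact p.Prime := ⟨hp⟩
  letI md : Module (ZMod p) (Additive A) := AddCommGroup.zmodModule (by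
    intro x
    apply Additive.toMul.injective
    rw [toMul_nsmul, toMul_zero]
    exact he (Additive.toMul x))
  exact maschkeMod hQ c N hN

/-- The same for an elementary abelian normal subgroup `F` with a subgroup `N` normal in `G`. -/
theorem compl (G : Type) [Group G] [Finite G] (p : ℕ) (hp : p.Prime) (F : Subgroup G)
    [hF : F.Normal] (hc : ∀ x ∈ F, ∀ y ∈ F, x * y = y * x) (he : ∀ x ∈ F, x ^ p = 1)
    (hi : ¬ p ∣ F.index) (N : Subgroup G) (hN : N.Normal) (hNF : N ≤ F) :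
    ∃ M : Subgroup G, M.Normal ∧ M ≤ F ∧ N ⊓ M = ⊥ ∧ F ≤ N ⊔ M := by
  -- the action of `G ⧸ F` on `F` by conjugation
  let c0 : G ⧸ F →* MulAut F := QuotientGroup.lift F (MulAut.conjNormal : G →* MulAut F) (by
    intro f hf
    ext x
    rw [MulAut.conjNormal_apply, MulAut.one_apply]
    rw [hc f hf x x.2, mul_inv_cancel_right])
  have hc0 : ∀ (g : G) (x : F), ((c0 (g : G ⧸ F) x : F) : G) = g * x * g⁻¹ := fun g x => rfl
  let cg : CommGroup F :=
    { (inferInstance : Group F) with mul_comm := fun x y => Subtype.ext (hc x.1 x.2 y.1 y.2) }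
  have key : ∃ M : Subgroup F, (∀ q, ∀ x ∈ M, c0 q x ∈ M) ∧ N.subgroupOf F ⊓ M = ⊥ ∧
      N.subgroupOf F ⊔ M = ⊤ := by
    refine @maschkeAut p hp F (G ⧸ F) cg _ _ (fun x => Subtype.ext (he x.1 x.2)) hi c0
      (N.subgroupOf F) ?_
    intro q x hx
    obtain ⟨g, rfl⟩ := QuotientGroup.mk_surjective q
    exact hN.conj_mem _ hx g
  obtain ⟨M, h1, h2, h3⟩ := key
  refine ⟨M.map F.subtype, ⟨?_⟩, ?_, ?_, ?_⟩
  · rintro _ ⟨x, hx, rfl⟩ g
    exact ⟨c0 (g : G ⧸ F) x, h1 _ x hx, hc0 g x⟩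
  · rintro _ ⟨y, _, rfl⟩
    exact y.2
  · rw [eq_bot_iff]
    rintro _ ⟨hxN, ⟨x, hx, rfl⟩⟩
    have h4 : x ∈ N.subgroupOf F ⊓ M := ⟨hxN, hx⟩
    rw [h2, Subgroup.mem_bot] at h4
    rw [h4, map_one]
    exact Subgroup.one_mem _
  · intro x hx
    have h4 : (⟨x, hx⟩ : F) ∈ N.subgroupOf F ⊔ M := by
      rw [h3]
      exact Subgroup.mem_top _
    have h5 : F.subtype ⟨x, hx⟩ ∈ (N.subgroupOf F ⊔ M).map F.subtype :=
      Subgroup.mem_map_of_mem _ h4
    rw [Subgroup.map_sup] at h5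
    have h6 : (N.subgroupOf F).map F.subtype ≤ N := by
      rintro _ ⟨y, hy, rfl⟩
      exact hy
    exact (sup_le_sup h6 le_rfl) h5

end MinNAux

theorem MinN : S_MinN := by
  intro G _ _ hm p hp F hF hc he hi N hN hNF
  haveI := hF
  obtain ⟨M, hM, hMF, h1, h2⟩ := MinNAux.compl G p hp F hc he hi N hN hNF
  rcases hm.2 N M hN hM h1 with h | h
  · exact Or.inl h
  · refine Or.inr (le_antisymm hNF ?_)
    rw [h, sup_bot_eq] at h2
    exact h2

end Pool.Agent.Lib.MP_f44088_fb
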