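import Mathlib
import Pool.Agent.Lib.MP_f44088_al.FB3.Spec2

/-! Project FB3 (MP_f44088_al): rich modulo a larger finite dimensional subspace. -/

set_option autoImplicit false

namespace Pool.Agent.Lib.MP_f44088_fb

namespace RMAux

/-- a linearly independent family has a large subfamily which is independent modulo a finite
dimensional subspace -/
theorem exists_sub {F V : Type} [Field F] [AddCommGroup V] [Module F V] (W : Submodule F V)
    (hW : W.FG) {n : ℕ} (w : Fin n → V) (hw : LinearIndependent F w) :
    ∃ S : Finset (Fin n), n ≤ S.card + Module.finrank F W ∧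
      LinearIndependent F (fun s : S => W.mkQ (w s)) := by
  classical
  have : Module.Finite F W := Module.Finite.iff_fg.mpr hW
  obtain ⟨κ, a, ha, hspan, hli⟩ := exists_linearIndependent' F (fun s => W.mkQ (w s))
  have : Finite κ := Finite.of_injective a ha
  let _ : Fintype κ := Fintype.ofFinite κ
  refine ⟨Finset.univ.image a, ?_, ?_⟩
  · rw [Finset.card_image_of_injective _ ha, Finset.card_univ]
    have h1 : Module.finrank F (Submodule.span F (Set.range w)) = n := by
      rw [finrank_span_eq_card hw, Fintype.card_fin]
    have h2 : Module.finrank F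
        (Submodule.span F (Set.range (fun s => W.mkQ (w s)))) = Fintype.card κ := by
      rw [← hspan]
      exact finrank_span_eq_card hli
    set P := Submodule.span F (Set.range w) with hP
    have : Module.Finite F P := by
      rw [hP]
      exact Module.Finite.span_of_finite F (Set.finite_range w)
    have h3 : Submodule.map W.mkQ P = Submodule.span F (Set.range (fun s => W.mkQ (w s))) := by
      rw [hP, Submodule.map_span, ← Set.range_comp]
      rfl
    have h4 := LinearMap.finrank_range_add_finrank_ker (W.mkQ.domRestrict P)
    have h5 : LinearMap.range (W.mkQ.domRestrict P) = Submodule.map W.mkQ P := by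
      rw [LinearMap.range_domRestrict]
    rw [h5, h3, h2, h1] at h4
    have h6 : Module.finrank F (LinearMap.ker (W.mkQ.domRestrict P)) ≤ Module.finrank F W := by
      let g : LinearMap.ker (W.mkQ.domRestrict P) →ₗ[F] W :=
        { toFun := fun x => ⟨((x : P) : V), by
            have := x.2
            rw [LinearMap.mem_ker, LinearMap.domRestrict_apply, Submodule.mkQ_apply,
              Submodule.Quotient.mk_eq_zero] at this
            exact this⟩
          map_add' := fun x y => rfl
          map_smul' := fun c x => rfl }
      refine LinearMap.finrank_le_finrank_of_injective (f := g) ?_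
      intro x y hxy
      have : ((x : P) : V) = ((y : P) : V) := congrArg (fun z : W => (z : V)) hxy
      exact Subtype.ext (Subtype.ext this)
    omega
  · have hmem : ∀ s : (Finset.univ.image a : Finset (Fin n)), ∃ k : κ, a k = s := by
      intro s
      obtain ⟨k, _, hk⟩ := Finset.mem_image.mp s.2
      exact ⟨k, hk⟩
    choose k hk using hmem
    have hinj : Function.Injective k := by
      intro s t hst
      apply Subtype.ext
      rw [← hk s, ← hk t, hst]
    have h7 := hli.comp k hinj
    have h8 : (fun s : (Finset.univ.image a : Finset (Fin n)) => W.mkQ (w s)) =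
        ((fun s => W.mkQ (w s)) ∘ a) ∘ k := by
      funext s
      simp only [Function.comp_apply, hk]
    rw [h8]
    exact h7

end RMAux

open RMAux in
theorem RM : S_RM := by
  classical
  intro ι _ F _ X _ _ U U' I Y hR hle hfg N
  let _ : Fintype ι := Fintype.ofFinite ι
  set d : ℕ := ∑ q, Module.finrank (F q) (U' q) with hd
  obtain ⟨y, hyY, hyI⟩ := hR (N + Fintype.card ι * d)
  have hS : ∀ q, ∃ S : Finset (Fin (N + Fintype.card ι * d)),
      (N + Fintype.card ι * d) ≤ S.card + d ∧
      (q ∈ I → LinearIndependent (F q) (fun s : S => (U' q).mkQ (y s q))) := by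
    intro q
    by_cases hq : q ∈ I
    · have h1 : LinearIndependent (F q) (fun s => y s q) :=
        LinearIndependent.of_comp (U q).mkQ (hyI q hq)
      obtain ⟨S, hS1, hS2⟩ := exists_sub (U' q) (hfg q) (fun s => y s q) h1
      refine ⟨S, ?_, fun _ => hS2⟩
      have h2 : Module.finrank (F q) (U' q) ≤ d := by
        rw [hd]
        exact Finset.single_le_sum (f := fun q => Module.finrank (F q) (U' q))
          (fun _ _ => Nat.zero_le _) (Finset.mem_univ q)
      omega
    · refine ⟨Finset.univ, ?_, fun h => absurd h hq⟩
      rw [Finset.card_univ, Fintype.card_fin]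
      omega
  choose S hS1 hS2 using hS
  set J : Finset (Fin (N + Fintype.card ι * d)) := Finset.univ.filter (fun s => ∀ q, s ∈ S q) with hJ
  have hJm : ∀ s ∈ J, ∀ q, s ∈ S q := fun s hs q => (Finset.mem_filter.mp hs).2 q
  have hJc : Jᶜ ⊆ Finset.univ.biUnion (fun q => (S q)ᶜ) := by
    intro s hs
    rw [Finset.mem_compl, hJ, Finset.mem_filter] at hs
    have hs' : ∃ q, s ∉ S q := by
      by_contra hcon
      exact hs ⟨Finset.mem_univ s, fun q => by_contra fun h => hcon ⟨q, h⟩⟩
    obtain ⟨q, hq⟩ := hs'
    exact Finset.mem_biUnion.mpr ⟨q, Finset.mem_univ q, Finset.mem_compl.mpr hq⟩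
  have hcard : (Jᶜ).card ≤ Fintype.card ι * d := by
    refine (Finset.card_le_card hJc).trans ?_
    refine (Finset.card_biUnion_le_card_mul _ _ d ?_).trans ?_
    · intro q _
      rw [Finset.card_compl, Fintype.card_fin]
      have := hS1 q
      omega
    · rw [Finset.card_univ]
  have hJN : N ≤ J.card := by
    rw [Finset.card_compl, Fintype.card_fin] at hcard
    omega
  have hemb : Nonempty (Fin N ↪ J) := by
    apply Function.Embedding.nonempty_of_card_le
    rw [Fintype.card_fin, Fintype.card_coe]
    exact hJN
  obtain ⟨e⟩ := hemb
  refine ⟨fun s => y (e s), fun s => hyY _, ?_⟩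
  intro q hq
  have hmem : ∀ s : Fin N, ((e s : J) : Fin (N + Fintype.card ι * d)) ∈ S q :=
    fun s => hJm _ (e s).2 q
  have hinj : Function.Injective
      (fun s : Fin N => (⟨((e s : J) : Fin (N + Fintype.card ι * d)), hmem s⟩ : S q)) := by
    intro s t hst
    have := congrArg Subtype.val hst
    exact e.injective (Subtype.ext this)
  exact (hS2 q hq).comp _ hinj

end Pool.Agent.Lib.MP_f44088_fb
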