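import Mathlib
import Pool.Agent.Lib.MP_f44088_al.FB3.Spec

/-! Project FB3 (MP_f44088_al): the code of `G`. -/

set_option autoImplicit false

namespace Pool.Agent.Lib.MP_f44088_fb

namespace RepAux

variable {n p : ℕ} {G : Type} [Group G] {F A K : Subgroup G} {k : Type} [Field k] {ℓ : G → k}
  {χ : G → kˣ}

theorem lift_map {H₁ H₂ : Type} [Group H₁] [Group H₂] (f : H₁ →* H₂) (u : ℕ → H₁)
    (w : FreeGroup ℕ) : FreeGroup.lift (fun i => f (u i)) w = f (FreeGroup.lift u w) := by
  have h : (FreeGroup.lift (fun i => f (u i)) : FreeGroup ℕ →* H₂) = f.comp (FreeGroup.lift u) := by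
    apply FreeGroup.ext_hom
    intro i
    simp
  rw [h]
  rfl

theorem chi_one (hE : Eigen G k F A ℓ χ) : χ 1 = 1 := by
  have h := hE.mul 1 A.one_mem 1 A.one_mem
  rw [mul_one] at h
  simpa using h

theorem chi_pow (hE : Eigen G k F A ℓ χ) {a : G} (ha : a ∈ A) (m : ℕ) : χ (a ^ m) = χ a ^ m := by
  induction m with
  | zero => rw [pow_zero, pow_zero, chi_one hE]
  | succ m ih => rw [pow_succ, pow_succ, hE.mul _ (A.pow_mem ha m) _ ha, ih]

theorem hat_mul (hS : Setup n p G F A K) (hE : Eigen G k F A ℓ χ) {a b : G} (ha : a ∈ A)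
    (hb : b ∈ A) : hat K χ (a * b) = hat K χ a * hat K χ b := by
  funext y
  have e : ((Additive.toMul y : K) : G) * (a * b) * ((Additive.toMul y : K) : G)⁻¹ =
      ((Additive.toMul y : K) * a * ((Additive.toMul y : K) : G)⁻¹) *
        ((Additive.toMul y : K) * b * ((Additive.toMul y : K) : G)⁻¹) := by group
  change χ _ = χ _ * χ _
  rw [e, hE.mul _ (hS.nor _ (Additive.toMul y : K).2 a ha) _ (hS.nor _ (Additive.toMul y : K).2 b hb)]

theorem hat_one (hE : Eigen G k F A ℓ χ) : hat K χ 1 = 1 := by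
  funext y
  change χ _ = 1
  rw [mul_one, mul_inv_cancel, chi_one hE]

theorem hat_inv (hS : Setup n p G F A K) (hE : Eigen G k F A ℓ χ) {a : G} (ha : a ∈ A) :
    hat K χ a⁻¹ = (hat K χ a)⁻¹ := by
  have h := hat_mul hS hE (A.inv_mem ha) ha
  rw [inv_mul_cancel, hat_one hE] at h
  exact eq_inv_of_mul_eq_one_left h.symm

theorem hat_pow (hS : Setup n p G F A K) (hE : Eigen G k F A ℓ χ) {a : G} (ha : a ∈ A) (m : ℕ) :
    hat K χ (a ^ m) = (hat K χ a) ^ m := by
  induction m with
  | zero => rw [pow_zero, pow_zero, hat_one hE]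
  | succ m ih => rw [pow_succ, pow_succ, hat_mul hS hE (A.pow_mem ha m) ha, ih]

/-- translation, in multiplicative form -/
theorem hat_tr (a : G) (y z : K) :
    hat K χ a (Additive.ofMul (y * z)) = hat K χ ((z : G) * a * (z : G)⁻¹) (Additive.ofMul y) := by
  change χ _ = χ _
  congr 1
  simp only [toMul_ofMul, Subgroup.coe_mul]
  group

omit [Field k] in
theorem Theta_tr (x : G) (y z : K) :
    Theta K ℓ x (Additive.ofMul (y * z)) = Theta K ℓ ((z : G) * x * (z : G)⁻¹) (Additive.ofMul y) := by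
  change ℓ _ = ℓ _
  congr 1
  simp only [toMul_ofMul, Subgroup.coe_mul]
  group

theorem Theta_mul (hS : Setup n p G F A K) (hE : Eigen G k F A ℓ χ) {a b : G} (ha : a ∈ F)
    (hb : b ∈ F) : Theta K ℓ (a * b) = Theta K ℓ a + Theta K ℓ b := by
  have := hS.normF
  funext y
  have e : ((Additive.toMul y : K) : G) * (a * b) * ((Additive.toMul y : K) : G)⁻¹ =
      ((Additive.toMul y : K) * a * ((Additive.toMul y : K) : G)⁻¹) *
        ((Additive.toMul y : K) * b * ((Additive.toMul y : K) : G)⁻¹) := by group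
  change ℓ _ = ℓ _ + ℓ _
  rw [e, hE.add _ (this.conj_mem a ha _) _ (this.conj_mem b hb _)]

theorem Theta_one (hS : Setup n p G F A K) (hE : Eigen G k F A ℓ χ) : Theta K ℓ 1 = 0 := by
  have h := Theta_mul hS hE F.one_mem F.one_mem
  rw [mul_one] at h
  simpa using h

theorem Theta_eig (hS : Setup n p G F A K) (hE : Eigen G k F A ℓ χ) {a x : G} (ha : a ∈ A)
    (hx : x ∈ F) (y : Additive K) :
    (hat K χ a y : k) * Theta K ℓ x y = Theta K ℓ (a * x * a⁻¹) y := by
  have := hS.normF
  have e : ((Additive.toMul y : K) : G) * (a * x * a⁻¹) * ((Additive.toMul y : K) : G)⁻¹ =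
      ((Additive.toMul y : K) * a * ((Additive.toMul y : K) : G)⁻¹) *
        ((Additive.toMul y : K) * x * ((Additive.toMul y : K) : G)⁻¹) *
        ((Additive.toMul y : K) * a * ((Additive.toMul y : K) : G)⁻¹)⁻¹ := by group
  change (χ _ : k) * ℓ _ = ℓ _
  rw [e, hE.eig _ (hS.nor _ (Additive.toMul y : K).2 a ha) _ (this.conj_mem x hx _)]

/-- the group of the functions `hat a` -/
def HA (hS : Setup n p G F A K) (hE : Eigen G k F A ℓ χ) : Subgroup (Additive K → kˣ) where
  carrier := {f | ∃ a ∈ A, f = hat K χ a}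
  mul_mem' := by
    rintro _ _ ⟨a, ha, rfl⟩ ⟨b, hb, rfl⟩
    exact ⟨a * b, A.mul_mem ha hb, (hat_mul hS hE ha hb).symm⟩
  one_mem' := ⟨1, A.one_mem, (hat_one hE).symm⟩
  inv_mem' := by
    rintro _ ⟨a, ha, rfl⟩
    exact ⟨a⁻¹, A.inv_mem ha, (hat_inv hS hE ha).symm⟩

/-- an element of order `r` of `K` commutes with the elements of order `r` of `A` -/
theorem comm_of (hS : Setup n p G F A K) {r : ℕ} (hr : r.Prime) {a x : G} (ha : a ∈ A)
    (har : a ^ r = 1) (hx : x ∈ K) (hxr : x ^ r = 1) : a * x = x * a := by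
  have hconj : ∀ (i : ℕ) (b : G), b ∈ A → b ^ r = 1 → x ^ i * b * (x ^ i)⁻¹ ∈ A ∧
      (x ^ i * b * (x ^ i)⁻¹) ^ r = 1 := by
    intro i b hb hbr
    refine ⟨hS.nor _ (K.pow_mem hx i) b hb, ?_⟩
    rw [conj_pow, hbr, mul_one, mul_inv_cancel]
  have hAr : ∀ b c : G, b ∈ A → b ^ r = 1 → c ∈ A → c ^ r = 1 → (b * c) ^ r = 1 := by
    intro b c hb hbr hc hcr
    rw [(show Commute b c from hS.abA b hb c hc).mul_pow, hbr, hcr, one_mul]
  have hmul : ∀ (g h : G), (∃ b ∈ A, b ^ r = 1 ∧ ∃ i : ℕ, g = b * x ^ i) →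
      (∃ b ∈ A, b ^ r = 1 ∧ ∃ i : ℕ, h = b * x ^ i) →
      ∃ b ∈ A, b ^ r = 1 ∧ ∃ i : ℕ, g * h = b * x ^ i := by
    rintro g h ⟨b, hb, hbr, i, rfl⟩ ⟨c, hc, hcr, j, rfl⟩
    have h1 := hconj i c hc hcr
    refine ⟨b * (x ^ i * c * (x ^ i)⁻¹), A.mul_mem hb h1.1, hAr _ _ hb hbr h1.1 h1.2, i + j, ?_⟩
    rw [pow_add]
    group
  have hrpos : 0 < r := hr.pos
  have hxinv : ∀ i : ℕ, ∃ j : ℕ, (x ^ i)⁻¹ = x ^ j := by
    intro i
    refine ⟨(r - 1) * i, ?_⟩
    rw [inv_eq_iff_mul_eq_one, ← pow_add]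
    have e : i + (r - 1) * i = r * i := by
      obtain ⟨m, rfl⟩ : ∃ m, r = m + 1 := ⟨r - 1, by omega⟩
      rw [Nat.add_sub_cancel]
      ring
    rw [e, pow_mul, hxr, one_pow]
  let P : Subgroup G :=
    { carrier := {g | ∃ b ∈ A, b ^ r = 1 ∧ ∃ i : ℕ, g = b * x ^ i}
      mul_mem' := fun {g h} hg hh => hmul g h hg hh
      one_mem' := ⟨1, A.one_mem, one_pow r, 0, by simp⟩
      inv_mem' := by
        rintro g ⟨b, hb, hbr, i, rfl⟩
        obtain ⟨j, hj⟩ := hxinv i
        have h1 := hmul (1 * x ^ j) (b⁻¹ * x ^ 0) ⟨1, A.one_mem, one_pow r, j, rfl⟩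
          ⟨b⁻¹, A.inv_mem hb, by rw [inv_pow, hbr, inv_one], 0, rfl⟩
        rw [one_mul, ← hj, pow_zero, mul_one, ← mul_inv_rev] at h1
        exact h1 }
  have hpow : ∀ (b : G) (i m : ℕ), b ∈ A → b ^ r = 1 → ∃ c ∈ A, c ^ r = 1 ∧
      (b * x ^ i) ^ m = c * x ^ (i * m) := by
    intro b i m hb hbr
    induction m with
    | zero => exact ⟨1, A.one_mem, one_pow r, by simp⟩
    | succ m ih =>
      obtain ⟨c, hc, hcr, e⟩ := ih
      have h1 := hconj (i * m) b hb hbr
      refine ⟨c * (x ^ (i * m) * b * (x ^ (i * m))⁻¹), A.mul_mem hc h1.1, hAr _ _ hc hcr h1.1 h1.2, ?_⟩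
      rw [pow_succ, e, Nat.mul_succ, pow_add]
      group
  have hP : IsPGroup r P := by
    rintro ⟨g, b, hb, hbr, i, rfl⟩
    refine ⟨2, ?_⟩
    apply Subtype.ext
    change (b * x ^ i) ^ (r ^ 2) = 1
    obtain ⟨c, hc, hcr, e⟩ := hpow b i r hb hbr
    rw [pow_two, pow_mul, e, Nat.mul_comm, pow_mul, hxr, one_pow, mul_one, hcr]
  exact hS.ag r hr P hP a ⟨a, ha, har, 0, by simp⟩ x ⟨1, A.one_mem, one_pow r, 1, by simp⟩

end RepAux

open RepAux in
theorem Rep : S_Eig → S_Emb → S_Lin → S_Spn → S_Rep := by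
  intro hEig hEmb hLin hSpn n p hp G _ _ F A K hS k _ _ _
  obtain ⟨ℓ, χ, hE⟩ := hEig n p hp G F A K hS k
  letI inst := addK K hS.abK
  obtain ⟨ψ, hψ, hψv⟩ := hEmb n p G F A K hS k ℓ χ hE
  -- values of `ψ` on `A`
  have hψA : ∀ a ∈ A, ψ a = ⟨0, hat K χ a, 0⟩ := by
    intro a ha
    have h := hψv 1 F.one_mem a ha 1
    rw [Theta_one hS hE] at h
    simpa using h
  have hinj : ∀ a ∈ A, ∀ b ∈ A, hat K χ a = hat K χ b → a = b := by
    intro a ha b hb hab
    apply hψ
    rw [hψA a ha, hψA b hb, hab]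
  have hadd : ∀ y z : Additive K, y + z = Additive.ofMul (Additive.toMul y * Additive.toMul z) :=
    fun y z => rfl
  have htrA : ∀ (a : G) (y z : Additive K), hat K χ a (y + z) =
      hat K χ (((Additive.toMul z : K) : G) * a * ((Additive.toMul z : K) : G)⁻¹) y := by
    intro a y z
    rw [hadd, hat_tr]
    rfl
  have htrF : ∀ (a : G) (y z : Additive K), Theta K ℓ a (y + z) =
      Theta K ℓ (((Additive.toMul z : K) : G) * a * ((Additive.toMul z : K) : G)⁻¹) y := by
    intro a y z
    rw [hadd, Theta_tr]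
    rfl
  have tr : ∀ f ∈ HA hS hE, ∀ z : Additive K, (fun y => f (y + z)) ∈ HA hS hE := by
    rintro _ ⟨a, ha, rfl⟩ z
    exact ⟨_, hS.nor _ (Additive.toMul z : K).2 a ha, funext fun y => htrA a y z⟩
  have ff : ∀ x : Additive K, (∀ f ∈ HA hS hE, ∀ y, f (y + x) = f y) → x = 0 := by
    intro x hx
    have h1 : ((Additive.toMul x : K) : G) = 1 := by
      apply hS.selfc _ (Additive.toMul x : K).2
      intro a ha
      have h2 := hinj _ (hS.nor _ (Additive.toMul x : K).2 a ha) a ha (by
        funext y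
        rw [← htrA a y x]
        exact hx _ ⟨a, ha, rfl⟩ y)
      rw [mul_inv_eq_iff_eq_mul] at h2
      exact h2
    exact Additive.toMul.injective (Subtype.ext h1)
  have ok : IsCode n (Additive K) k (HA hS hE) := by
    refine ⟨?_, ?_, tr, ?_, ff⟩
    · intro x
      apply Additive.toMul.injective
      apply Subtype.ext
      change ((Additive.toMul x : K) : G) ^ n = 1
      exact hS.expG _
    · rintro _ ⟨a, ha, rfl⟩ y
      change χ _ ^ n = 1
      rw [← chi_pow hE (hS.nor _ (Additive.toMul y : K).2 a ha), hS.expG, chi_one hE]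
    · rintro r hr _ ⟨a, ha, rfl⟩ hf x hx y
      have har : a ^ r = 1 := by
        apply hinj _ (A.pow_mem ha r) 1 A.one_mem
        rw [hat_pow hS hE ha, hat_one hE]
        funext y
        exact hf y
      have hxr : ((Additive.toMul x : K) : G) ^ r = 1 := by
        have h1 : ((Additive.toMul (r • x) : K) : G) = 1 := by
          rw [hx]
          rfl
        exact h1
      have h2 := comm_of hS hr ha har (Additive.toMul x : K).2 hxr
      rw [htrA a y x, ← h2, mul_inv_cancel_right]
  have hfin : Finite (Additive K) := inferInstanceAs (Finite K)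
  refine ⟨⟨Additive K, inst, hfin, HA hS hE, ok⟩, ?_, ?_⟩
  · -- the embedding
    have hmem : ∀ g : G, ψ g ∈ GA (HA hS hE) := by
      intro g
      obtain ⟨x, hx, a, ha, y, hy, rfl⟩ := hS.dec g
      have h := hψv x hx a ha ⟨y, hy⟩
      intro z
      change (fun y' => (ψ (x * a * ((⟨y, hy⟩ : K) : G))).a (y' + z)) ∈ HA hS hE
      rw [h]
      exact tr _ ⟨a, ha, rfl⟩ z
    exact inVar_of_injective (ψ.codRestrict (GA (HA hS hE)) hmem) fun x y hxy =>
      hψ (congrArg Subtype.val hxy)
  · intro w hw u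
    have hsub : ((FreeGroup.lift u w : GA (HA hS hE)) : Big (Additive K) k) =
        FreeGroup.lift (fun i => ((u i : GA (HA hS hE)) : Big (Additive K) k)) w :=
      (lift_map (GA (HA hS hE)).subtype u w).symm
    apply Subtype.ext
    rw [hsub]
    obtain ⟨T, s, hs, hT⟩ := hLin (Additive K) k
      (fun i => ((u i : GA (HA hS hE)) : Big (Additive K) k)) w
    have hua : ∀ i, ∃ a ∈ A, ((u i : GA (HA hS hE)) : Big (Additive K) k).a = hat K χ a := by
      intro i
      obtain ⟨a, ha, e⟩ := (u i).2 0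
      refine ⟨a, ha, ?_⟩
      rw [← e]
      funext y
      rw [add_zero]
    choose a ha hae using hua
    have key : ∀ x : ℕ → G, (∀ i, x i ∈ F) →
        FreeGroup.lift (fun i => (⟨Theta K ℓ (x i),
          ((u i : GA (HA hS hE)) : Big (Additive K) k).a,
          ((u i : GA (HA hS hE)) : Big (Additive K) k).x⟩ : Big (Additive K) k)) w = 1 := by
      intro x hx
      have h1 : (fun i => (⟨Theta K ℓ (x i),
          ((u i : GA (HA hS hE)) : Big (Additive K) k).a,
          ((u i : GA (HA hS hE)) : Big (Additive K) k).x⟩ : Big (Additive K) k)) =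
          fun i => ψ (x i * a i *
            ((Additive.toMul ((u i : GA (HA hS hE)) : Big (Additive K) k).x : K) : G)) := by
        funext i
        rw [hψv (x i) (hx i) (a i) (ha i), hae i]
        rfl
      rw [h1, lift_map ψ, hw, map_one]
    have key1 := key (fun _ => 1) (fun _ => F.one_mem)
    have hTF : ∀ (i : ℕ), ∀ x ∈ F, T (Pi.single i (Theta K ℓ x)) = 0 := by
      intro i x hx
      have h1 := key (fun j => if j = i then x else 1) (by
        intro j
        split_ifs
        · exact hx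
        · exact F.one_mem)
      have h2 := (hT (fun j => Theta K ℓ (if j = i then x else 1))).1
      rw [h1] at h2
      have h3 : (Pi.single i (Theta K ℓ x) : ℕ → Additive K → k) =
          fun j => Theta K ℓ (if j = i then x else 1) := by
        funext j
        by_cases hj : j = i
        · subst hj
          simp
        · simp [hj, Theta_one hS hE]
      rw [h3, ← h2]
      rfl
    have hM : Submodule.span k {m | ∃ x ∈ F, m = Theta K ℓ x} = ⊤ := by
      apply hSpn (Additive K) k (HA hS hE) tr ff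
      · intro hbot
        obtain ⟨x, hx, hne⟩ := hE.ne
        have h1 : Theta K ℓ x ∈ Submodule.span k {m | ∃ x ∈ F, m = Theta K ℓ x} :=
          Submodule.subset_span ⟨x, hx, rfl⟩
        rw [hbot, Submodule.mem_bot] at h1
        apply hne
        have h2 := congrFun h1 0
        have h3 : Theta K ℓ x 0 = ℓ (((1 : K) : G) * x * ((1 : K) : G)⁻¹) := rfl
        rw [h3] at h2
        simpa using h2
      · intro m hm z
        have hle : Submodule.span k {m | ∃ x ∈ F, m = Theta K ℓ x} ≤
            (Submodule.span k {m | ∃ x ∈ F, m = Theta K ℓ x}).comap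
              (LinearMap.funLeft k k (fun y : Additive K => y + z)) := by
          rw [Submodule.span_le]
          rintro _ ⟨x, hx, rfl⟩
          apply Submodule.subset_span
          exact ⟨_, hS.normF.conj_mem x hx _, funext fun y => htrF x y z⟩
        exact hle hm
      · intro m hm f hf
        obtain ⟨b, hb, rfl⟩ := hf
        have hle : Submodule.span k {m | ∃ x ∈ F, m = Theta K ℓ x} ≤
            (Submodule.span k {m | ∃ x ∈ F, m = Theta K ℓ x}).comap
              (LinearMap.mulLeft k (fun y : Additive K => (hat K χ b y : k))) := by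
          rw [Submodule.span_le]
          rintro _ ⟨x, hx, rfl⟩
          apply Submodule.subset_span
          exact ⟨_, hS.normF.conj_mem x hx _, funext fun y => Theta_eig hS hE hb hx y⟩
        exact hle hm
    have hT1 : ∀ (i : ℕ) (m : Additive K → k), T (Pi.single i m) = 0 := by
      intro i m
      have hle : Submodule.span k {m | ∃ x ∈ F, m = Theta K ℓ x} ≤
          LinearMap.ker (T ∘ₗ LinearMap.single k (fun _ : ℕ => Additive K → k) i) := by
        rw [Submodule.span_le]
        rintro _ ⟨x, hx, rfl⟩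
        exact hTF i x hx
      have h1 : m ∈ LinearMap.ker (T ∘ₗ LinearMap.single k (fun _ : ℕ => Additive K → k) i) := by
        apply hle
        rw [hM]
        exact Submodule.mem_top
      exact h1
    have hT0 : ∀ m : ℕ → Additive K → k, T m = 0 := by
      intro m
      have h1 : T (m - ∑ i ∈ s, Pi.single i (m i)) = 0 := by
        apply hs
        intro i hi
        rw [Pi.sub_apply, Finset.sum_apply]
        rw [Finset.sum_eq_single i]
        · simp
        · intro j _ hj
          exact Pi.single_eq_of_ne (Ne.symm hj) _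
        · intro h
          exact absurd hi h
      rw [map_sub, map_sum, Finset.sum_eq_zero fun i _ => hT1 i (m i), sub_zero] at h1
      exact h1
    have hfin := hT (fun i => ((u i : GA (HA hS hE)) : Big (Additive K) k).m)
    have hz := hT (fun i => Theta K ℓ ((fun _ => 1 : ℕ → G) i))
    rw [key1] at hz
    apply Big.ext
    · have h1 := hfin.1
      rw [hT0] at h1
      exact h1
    · exact hz.2.1.symm
    · exact hz.2.2.symm

end Pool.Agent.Lib.MP_f44088_fb
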