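import Pool.Agent.Lib.MP_f44088_al.FB3.Spec

/-! Project FB3 (MP_f44088_al): minimal counterexamples. -/

set_option autoImplicit false

namespace Pool.Agent.Lib.MP_f44088_fb

namespace SeqAux

theorem sat_inVar {W : Set (FreeGroup ℕ)} {G₁ G₂ : Type} [Group G₁] [Group G₂]
    (h : InVar G₁ G₂) (h₂ : Sat W G₂) : Sat W G₁ := fun w hw => h w (h₂ w hw)

theorem sat_union {A B : Set (FreeGroup ℕ)} {G : Type} [Group G] (hA : Sat A G) (hB : Sat B G) :
    Sat (A ∪ B) G := by
  rintro w (hw | hw)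
  · exact hA w hw
  · exact hB w hw

theorem sat_mono {A B : Set (FreeGroup ℕ)} {G : Type} [Group G] (h : A ⊆ B) (hB : Sat B G) :
    Sat A G := fun w hw => hB w (h hw)

/-- a homomorphism maps values of words to values of words -/
theorem map_lift {G₁ G₂ : Type} [Group G₁] [Group G₂] (φ : G₁ →* G₂) (f : ℕ → G₁)
    (w : FreeGroup ℕ) : φ (FreeGroup.lift f w) = FreeGroup.lift (fun i => φ (f i)) w := by
  have h2 : (FreeGroup.lift (fun i => φ (f i)) : FreeGroup ℕ →* G₂) =
      φ.comp (FreeGroup.lift f) := by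
    ext i
    simp
  rw [h2]
  rfl

/-- two normal subgroups with trivial intersection -/
theorem sat_of_quot {W : Set (FreeGroup ℕ)} {G : Type} [Group G] (M N : Subgroup G) [M.Normal]
    [N.Normal] (h : M ⊓ N = ⊥) (hM : Sat W (G ⧸ M)) (hN : Sat W (G ⧸ N)) : Sat W G := by
  intro w hw f
  have h1 : FreeGroup.lift f w ∈ M := by
    rw [← QuotientGroup.eq_one_iff]
    have h2 := hM w hw (fun i => QuotientGroup.mk' M (f i))
    rw [← map_lift] at h2
    exact h2
  have h1' : FreeGroup.lift f w ∈ N := by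
    rw [← QuotientGroup.eq_one_iff]
    have h2 := hN w hw (fun i => QuotientGroup.mk' N (f i))
    rw [← map_lift] at h2
    exact h2
  have h3 : FreeGroup.lift f w ∈ M ⊓ N := ⟨h1, h1'⟩
  rw [h] at h3
  exact Subgroup.mem_bot.1 h3

/-- a word has finitely many letters -/
theorem letters (w : FreeGroup ℕ) : ∃ K : ℕ, ∀ (G : Type) [Group G] (f g : ℕ → G),
    (∀ i < K, f i = g i) → FreeGroup.lift f w = FreeGroup.lift g w := by
  induction w using FreeGroup.induction_on with
  | C1 => exact ⟨0, fun G _ f g _ => by rw [map_one, map_one]⟩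
  | of i =>
    refine ⟨i + 1, fun G _ f g h => ?_⟩
    have h1 := h i (Nat.lt_succ_self i)
    simpa using h1
  | inv_of i ih =>
    obtain ⟨K, hK⟩ := ih
    exact ⟨K, fun G _ f g h => by rw [map_inv, map_inv, hK G f g h]⟩
  | mul x y hx hy =>
    obtain ⟨K, hK⟩ := hx
    obtain ⟨L, hL⟩ := hy
    refine ⟨max K L, fun G _ f g h => ?_⟩
    rw [map_mul, map_mul, hK G f g fun i hi => h i (lt_of_lt_of_le hi (le_max_left _ _)),
      hL G f g fun i hi => h i (lt_of_lt_of_le hi (le_max_right _ _))]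

/-- a finite counterexample -/
theorem finite_ce {n : ℕ} (hn : 0 < n) {W B : Set (FreeGroup ℕ)} (hFg : S_FgF)
    (hB : ∀ (G : Type) [Group G], Sat B G → (∀ x : G, x ^ n = 1) ∧ derivedSeries G 3 = ⊥)
    (G : Type) [Group G] (h1 : Sat B G) (h2 : ¬ Sat W G) :
    ∃ H : FGrp, Sat B H.C ∧ ¬ Sat W H.C := by
  have h3 : ∃ w ∈ W, ∃ f : ℕ → G, FreeGroup.lift f w ≠ 1 := by
    by_contra hcon
    apply h2
    intro w hw f
    by_contra hne
    exact hcon ⟨w, hw, f, hne⟩
  obtain ⟨w, hw, f, hf⟩ := h3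
  obtain ⟨K, hK⟩ := letters w
  let s : Set G := f '' Set.Iio K
  have hs : s.Finite := (Set.finite_Iio K).image f
  let H : Subgroup G := Subgroup.closure s
  have hfg : Group.FG H := by
    rw [Group.fg_iff_subgroup_fg]
    exact ⟨hs.toFinset, by rw [hs.coe_toFinset]⟩
  have hSat : Sat B H := sat_inVar (inVar_of_injective H.subtype H.subtype_injective) h1
  obtain ⟨hexp, hder⟩ := hB H hSat
  have hfin : Finite H := hFg 3 n hn H hfg hexp hder
  have hnot : ¬ Sat W H := by
    intro hWH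
    classical
    let g : ℕ → H := fun i => if h : i < K then ⟨f i, Subgroup.subset_closure ⟨i, h, rfl⟩⟩ else 1
    have h4 := hWH w hw g
    have h5 : FreeGroup.lift f w = FreeGroup.lift (fun i => H.subtype (g i)) w := by
      refine hK G f _ fun i hi => ?_
      have h6 : g i = ⟨f i, Subgroup.subset_closure ⟨i, hi, rfl⟩⟩ := dif_pos hi
      rw [h6]
      rfl
    rw [h5, ← map_lift, h4, map_one] at hf
    exact hf rfl
  exact ⟨⟨H, inferInstance, hfin⟩, hSat, hnot⟩

/-- a minimal counterexample -/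
theorem min_ce {W B : Set (FreeGroup ℕ)} (h : ∃ H : FGrp, Sat B H.C ∧ ¬ Sat W H.C) :
    ∃ H : FGrp, Sat B H.C ∧ ¬ Sat W H.C ∧
      ∀ H' : FGrp, Sat B H'.C → Nat.card H'.C < Nat.card H.C → Sat W H'.C := by
  classical
  have h1 : ∃ m : ℕ, ∃ H : FGrp, Nat.card H.C = m ∧ Sat B H.C ∧ ¬ Sat W H.C := by
    obtain ⟨H, h2, h3⟩ := h
    exact ⟨_, H, rfl, h2, h3⟩
  obtain ⟨H, h2, h3, h4⟩ := Nat.find_spec h1
  refine ⟨H, h3, h4, fun H' h5 h6 => ?_⟩
  by_contra h7
  rw [h2] at h6
  exact Nat.find_min h1 h6 ⟨H', rfl, h5, h7⟩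

theorem card_quot {G : Type} [Group G] [Finite G] (M : Subgroup G) (hM : M ≠ ⊥) :
    Nat.card (G ⧸ M) < Nat.card G := by
  have h1 := M.card_eq_card_quotient_mul_card_subgroup
  have h2 : 1 < Nat.card M := (Subgroup.one_lt_card_iff_ne_bot M).2 hM
  have h3 : 0 < Nat.card (G ⧸ M) := Nat.card_pos
  rw [h1]
  nlinarith

/-- a minimal counterexample is monolithic -/
theorem mono_min {W B : Set (FreeGroup ℕ)} (H : FGrp) (h1 : Sat B H.C) (h2 : ¬ Sat W H.C)
    (h3 : ∀ H' : FGrp, Sat B H'.C → Nat.card H'.C < Nat.card H.C → Sat W H'.C) : Mono H.C := by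
  constructor
  · by_contra hnt
    rw [not_nontrivial_iff_subsingleton] at hnt
    exact h2 fun w _ f => Subsingleton.elim _ _
  · intro M N hM hN hMN
    by_contra hcon
    rw [not_or] at hcon
    obtain ⟨hM0, hN0⟩ := hcon
    have key : ∀ L : Subgroup H.C, ∀ _ : L.Normal, L ≠ ⊥ → Sat W (H.C ⧸ L) := by
      intro L hL hL0
      refine h3 ⟨H.C ⧸ L, inferInstance, inferInstance⟩ ?_ (card_quot L hL0)
      exact sat_inVar (inVar_of_surjective (QuotientGroup.mk' L) (QuotientGroup.mk'_surjective L)) h1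
    exact h2 (sat_of_quot M N hMN (key M hM hM0) (key N hN hN0))

/-- elements of a `p`-subgroup commute -/
theorem ag_of {n : ℕ} {W : Set (FreeGroup ℕ)} (hyp : Hyp n W) (G : Type) [Group G]
    (h : ∀ x y : G, Sat W (Subgroup.closure ({x, y} : Set G))) (p : ℕ) (hp : p.Prime)
    (P : Subgroup G) (hP : IsPGroup p P) (x : G) (hx : x ∈ P) (y : G) (hy : y ∈ P) :
    x * y = y * x := by
  let C : Subgroup G := Subgroup.closure ({x, y} : Set G)
  have hCP : C ≤ P := by
    rw [Subgroup.closure_le]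
    rintro z (rfl | hz)
    · exact hx
    · rw [Set.mem_singleton_iff.1 hz]
      exact hy
  have hC : IsPGroup p C := hP.to_le hCP
  have hT : IsPGroup p (⊤ : Subgroup C) := hC.to_subgroup ⊤
  obtain ⟨Q, hQ⟩ := hT.exists_le_sylow
  have hxC : x ∈ C := Subgroup.subset_closure (Set.mem_insert _ _)
  have hyC : y ∈ C := Subgroup.subset_closure (Set.mem_insert_of_mem _ rfl)
  have h1 := (hyp C (h x y)).2.1 p hp Q ⟨x, hxC⟩ (hQ (Subgroup.mem_top _)) ⟨y, hyC⟩
    (hQ (Subgroup.mem_top _))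
  exact congrArg Subtype.val h1

end SeqAux

open SeqAux

/-- **Seq.** Minimal counterexamples. -/
theorem Seq : S_FgF → S_D3 → S_Two → S_Seq := by
  classical
  intro hFg hD3 hTwo n W hn hyp hno
  obtain ⟨w3, hw3⟩ := hD3
  obtain ⟨B2, hB2, hB2'⟩ := hTwo n W hyp
  -- the laws of the class
  let B0 : Set (FreeGroup ℕ) := ↑B2 ∪ {w3, FreeGroup.of 0 ^ n}
  have hB0 : ∀ (G : Type) [Group G], Sat B0 G → (∀ x : G, x ^ n = 1) ∧ derivedSeries G 3 = ⊥ := by
    intro G _ h
    constructor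
    · intro x
      have h1 := h (FreeGroup.of 0 ^ n) (Or.inr (Or.inr rfl)) (fun _ => x)
      rw [map_pow, FreeGroup.lift_apply_of] at h1
      exact h1
    · exact (hw3 G).1 (h w3 (Or.inr (Or.inl rfl)))
  have hWB0 : ∀ (G : Type) [Group G], Sat W G → Sat B0 G := by
    intro G _ h
    refine sat_union (hB2 G h) ?_
    rintro w (rfl | hw)
    · exact (hw3 G).2 (hyp G h).2.2.2
    · intro f
      rw [Set.mem_singleton_iff.1 hw, map_pow]
      exact (hyp G h).2.2.1 _
  -- enumeration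
  have hcount : Countable (FreeGroup ℕ) := by
    have h1 : Function.Surjective (FreeGroup.mk : List (ℕ × Bool) → FreeGroup ℕ) := by
      intro w
      obtain ⟨l, rfl⟩ := Quot.exists_rep w
      exact ⟨l, rfl⟩
    exact h1.countable
  obtain ⟨e, he⟩ := exists_surjective_nat (FreeGroup ℕ)
  let B : ℕ → Finset (FreeGroup ℕ) := fun N =>
    (B2 ∪ {w3, FreeGroup.of 0 ^ n}) ∪ ((Finset.range N).filter fun i => e i ∈ W).image e
  have hBsub : ∀ N, B0 ⊆ (B N : Set (FreeGroup ℕ)) := by
    intro N w hw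
    have h1 : w ∈ B2 ∪ {w3, FreeGroup.of 0 ^ n} := by
      rcases hw with hw | hw | hw
      · exact Finset.mem_union_left _ hw
      · exact Finset.mem_union_right _ (by rw [hw]; exact Finset.mem_insert_self _ _)
      · refine Finset.mem_union_right _ (Finset.mem_insert_of_mem ?_)
        exact Finset.mem_singleton.2 hw
    exact Finset.mem_coe.2 (Finset.mem_union_left _ h1)
  have hWB : ∀ N, ∀ (G : Type) [Group G], Sat W G → Sat (B N : Set (FreeGroup ℕ)) G := by
    intro N G _ h w hw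
    rcases Finset.mem_union.1 (Finset.mem_coe.1 hw) with hw | hw
    · refine hWB0 G h w ?_
      rcases Finset.mem_union.1 hw with hw | hw
      · exact Or.inl hw
      · rcases Finset.mem_insert.1 hw with hw | hw
        · exact Or.inr (Or.inl hw)
        · exact Or.inr (Or.inr (Finset.mem_singleton.1 hw))
    · obtain ⟨i, hi, rfl⟩ := Finset.mem_image.1 hw
      exact h _ (Finset.mem_filter.1 hi).2
  -- minimal counterexamples
  have hmin : ∀ N, ∃ H : FGrp, Sat (B N : Set (FreeGroup ℕ)) H.C ∧ ¬ Sat W H.C ∧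
      ∀ H' : FGrp, Sat (B N : Set (FreeGroup ℕ)) H'.C → Nat.card H'.C < Nat.card H.C →
        Sat W H'.C := by
    intro N
    apply min_ce
    by_contra hcon
    apply hno (B N)
    intro G _
    refine ⟨hWB N G, fun hG => ?_⟩
    by_contra hW
    exact hcon (finite_ce hn hFg (fun G' _ hG' => hB0 G' (sat_mono (hBsub N) hG')) G hG hW)
  choose H hH1 hH2 hH3 using hmin
  have hs : ∀ N, ∃ s : ℕ, e s ∈ W ∧ ¬ ∀ f : ℕ → (H N).C, FreeGroup.lift f (e s) = 1 := by
    intro N
    by_contra hcon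
    apply hH2 N
    intro w hw f
    by_contra hne
    obtain ⟨s, rfl⟩ := he w
    exact hcon ⟨s, hw, fun h => hne (h f)⟩
  choose s hs1 hs2 using hs
  -- the indices
  let t : ℕ → ℕ := fun i => Nat.rec 0 (fun _ m => max m (s m) + 1) i
  have ht : ∀ i, t (i + 1) = max (t i) (s (t i)) + 1 := fun i => rfl
  have hmono : Monotone t := by
    refine monotone_nat_of_le_succ fun i => ?_
    rw [ht]
    exact (le_max_left _ _).trans (Nat.le_succ _)
  refine ⟨fun i => H (t i), fun i => ?_, fun i => mono_min (H (t i)) (hH1 _) (hH2 _) (hH3 _),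
    fun i j hij hcon => ?_⟩
  · have h0 : Sat B0 (H (t i)).C := sat_mono (hBsub _) (hH1 _)
    obtain ⟨h1, h2⟩ := hB0 _ h0
    refine ⟨h1, h2, fun p hp P hP x hx y hy => ?_⟩
    refine ag_of hyp _ (hB2' _ ?_) p hp P hP x hx y hy
    exact sat_mono (fun w hw => Or.inl hw) h0
  · apply hs2 (t i)
    apply hcon
    apply hH1 (t j)
    have h1 : s (t i) < t j := by
      have h2 : t (i + 1) ≤ t j := hmono hij
      rw [ht] at h2
      have h3 := le_max_right (t i) (s (t i))
      omega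
    refine Finset.mem_coe.2 (Finset.mem_union_right _ (Finset.mem_image.2 ⟨s (t i), ?_, rfl⟩))
    exact Finset.mem_filter.2 ⟨Finset.mem_range.2 h1, hs1 _⟩

end Pool.Agent.Lib.MP_f44088_fb
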