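import Pool.Agent.Lib.MP_f44088_al.FB3.Spec

/-! Project FB3 (MP_f44088_al): splitting of a metabelian A-group of squarefree exponent. -/

set_option autoImplicit false

namespace Pool.Agent.Lib.MP_f44088_fb

theorem Spl : S_MaxA → S_Lr → S_Kin → S_Spl := by
  intro hMaxA hLr hKin n hn H _ _ hexp hab hder
  obtain ⟨A, hcA, hAab, hAc⟩ := hMaxA H hder
  obtain ⟨K, hK⟩ := hKin n hn H hexp A hcA hAab
    (fun r hr => hLr n hn H hexp hab A hcA hAab r hr)
  have hnorm : A.Normal := by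
    refine ⟨fun x hx g => ?_⟩
    have h1 : g * x * g⁻¹ * x⁻¹ ∈ A := hcA (by
      rw [commutator_def]
      exact Subgroup.commutator_mem_commutator (Subgroup.mem_top g) (Subgroup.mem_top x))
    have h2 := A.mul_mem h1 hx
    rwa [inv_mul_cancel_right] at h2
  refine ⟨A, K, hnorm, hK, hAab, ?_, hAc⟩
  intro x hx y hy
  have h1 : x * y * x⁻¹ * y⁻¹ ∈ A := hcA (by
    rw [commutator_def]
    exact Subgroup.commutator_mem_commutator (Subgroup.mem_top x) (Subgroup.mem_top y))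
  have h2 : x * y * x⁻¹ * y⁻¹ ∈ K :=
    K.mul_mem (K.mul_mem (K.mul_mem hx hy) (K.inv_mem hx)) (K.inv_mem hy)
  have h3 : x * y * x⁻¹ * y⁻¹ = 1 := by
    have h4 : x * y * x⁻¹ * y⁻¹ ∈ A ⊓ K := ⟨h1, h2⟩
    have h5 : A ⊓ K = ⊥ := hK.disjoint.eq_bot
    rw [h5] at h4
    exact Subgroup.mem_bot.1 h4
  have h6 : x * y * x⁻¹ = y := mul_inv_eq_one.1 h3
  exact mul_inv_eq_iff_eq_mul.1 h6 |>.trans rfl

end Pool.Agent.Lib.MP_f44088_fb
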