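import Pool.Agent.Lib.MP_f44088_al.FB3.Spec
import Mathlib

/-! Project FB3 (MP_f44088_al): an invariant subspace is everything. -/

set_option autoImplicit false

namespace Pool.Agent.Lib.MP_f44088_fb

namespace SpnAux

variable {K k : Type} [Field k] [AddCommGroup K]

/-- the evaluation at `y` -/
def ev (A : Subgroup (K → kˣ)) (y : K) : A →* k where
  toFun f := ((f : K → kˣ) y : k)
  map_one' := by simp
  map_mul' f g := by simp

theorem ev_inj (A : Subgroup (K → kˣ)) (tr : ∀ f ∈ A, ∀ z : K, (fun y => f (y + z)) ∈ A)
    (ff : ∀ x : K, (∀ f ∈ A, ∀ y, f (y + x) = f y) → x = 0) :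
    Function.Injective (ev (k := k) A) := by
  intro y y' h
  have h1 : ∀ f ∈ A, f y = f y' := by
    intro f hf
    have := DFunLike.congr_fun h (⟨f, hf⟩ : A)
    exact Units.ext this
  have h2 : y' - y = 0 := by
    apply ff
    intro f hf w
    have h3 := h1 _ (tr f hf (w - y))
    have e1 : y + (w - y) = w := by abel
    have e2 : y' + (w - y) = w + (y' - y) := by abel
    rw [e1, e2] at h3
    exact h3.symm
  exact (sub_eq_zero.1 h2).symm

theorem indep (A : Subgroup (K → kˣ)) (tr : ∀ f ∈ A, ∀ z : K, (fun y => f (y + z)) ∈ A)
    (ff : ∀ x : K, (∀ f ∈ A, ∀ y, f (y + x) = f y) → x = 0) :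
    LinearIndependent k (fun y : K => (fun f : A => ((f : K → kˣ) y : k))) := by
  have h := (linearIndependent_monoidHom A k).comp (ev (k := k) A) (ev_inj A tr ff)
  exact h

theorem span_top [Finite K] (A : Subgroup (K → kˣ)) (tr : ∀ f ∈ A, ∀ z : K, (fun y => f (y + z)) ∈ A)
    (ff : ∀ x : K, (∀ f ∈ A, ∀ y, f (y + x) = f y) → x = 0) (W : Submodule k (K → k))
    (hW : ∀ f ∈ A, (fun y => (f y : k)) ∈ W) : W = ⊤ := by
  classical
  cases nonempty_fintype K
  by_contra hne
  obtain ⟨φ, hφ, hle⟩ := Submodule.exists_le_ker_of_lt_top W (lt_top_iff_ne_top.2 hne)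
  apply hφ
  have hform : ∀ m : K → k, φ m = ∑ y, m y * φ (Pi.single y 1) := by
    intro m
    have e : m = ∑ y, m y • (Pi.single y (1 : k) : K → k) := by
      funext x
      simp [Finset.sum_apply, Pi.single_apply]
    conv_lhs => rw [e]
    rw [map_sum]
    refine Finset.sum_congr rfl fun y _ => ?_
    rw [map_smul, smul_eq_mul]
  have hz : ∀ y, φ (Pi.single y 1) = 0 := by
    have hi := Fintype.linearIndependent_iff.1 (indep A tr ff) (fun y => φ (Pi.single y 1)) (by
      funext f
      rw [Finset.sum_apply]
      simp only [Pi.smul_apply, smul_eq_mul, Pi.zero_apply]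
      have h1 : φ (fun y => ((f : K → kˣ) y : k)) = 0 := hle (hW f.1 f.2)
      rw [hform] at h1
      rw [← h1]
      exact Finset.sum_congr rfl fun y _ => mul_comm _ _)
    exact hi
  apply LinearMap.ext
  intro m
  rw [hform]
  simp [hz]

end SpnAux

open SpnAux in
theorem Spn : S_Spn := by
  intro K k _ _ _ A tr ff M hM ht hmul
  classical
  cases nonempty_fintype K
  -- closed under multiplication with all functions
  have hall : ∀ g : K → k, ∀ m ∈ M, (fun y => g y * m y) ∈ M := by
    let W : Submodule k (K → k) :=
      { carrier := {g | ∀ m ∈ M, (fun y => g y * m y) ∈ M}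
        add_mem' := by
          intro g g' hg hg' m hm
          have h := M.add_mem (hg m hm) (hg' m hm)
          have e : (fun y => (g + g') y * m y) = (fun y => g y * m y) + fun y => g' y * m y := by
            funext y
            simp [add_mul]
          rw [e]
          exact h
        zero_mem' := by
          intro m _
          have e : (fun y => (0 : K → k) y * m y) = 0 := by
            funext y
            simp
          rw [e]
          exact M.zero_mem
        smul_mem' := by
          intro c g hg m hm
          have h := M.smul_mem c (hg m hm)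
          have e : (fun y => (c • g) y * m y) = c • fun y => g y * m y := by
            funext y
            simp [mul_assoc]
          rw [e]
          exact h }
    have hW : W = ⊤ := span_top A tr ff W (fun f hf m hm => hmul m hm f hf)
    intro g m hm
    have hg : g ∈ W := by rw [hW]; exact Submodule.mem_top
    exact hg m hm
  obtain ⟨m, hm, hm0⟩ := (Submodule.ne_bot_iff M).1 hM
  obtain ⟨y0, hy0⟩ : ∃ y0, m y0 ≠ 0 := by
    by_contra hcon
    push Not at hcon
    exact hm0 (funext hcon)
  have hs0 : (Pi.single y0 (1 : k) : K → k) ∈ M := by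
    have h := hall (Pi.single y0 (m y0)⁻¹) m hm
    have e : (fun y => (Pi.single y0 (m y0)⁻¹ : K → k) y * m y) = Pi.single y0 1 := by
      funext y
      by_cases hy : y = y0
      · subst hy
        simp [hy0]
      · simp [hy]
    rwa [e] at h
  have hs : ∀ x : K, (Pi.single x (1 : k) : K → k) ∈ M := by
    intro x
    have h := ht _ hs0 (y0 - x)
    have e : (fun y => (Pi.single y0 (1 : k) : K → k) (y + (y0 - x))) = Pi.single x 1 := by
      funext y
      simp only [Pi.single_apply]
      have : y + (y0 - x) = y0 ↔ y = x := by
        constructor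
        · intro h
          have h2 : y + (y0 - x) = x + (y0 - x) := by rw [h]; abel
          exact add_right_cancel h2
        · intro h
          rw [h]; abel
      simp only [this]
    rwa [e] at h
  rw [eq_top_iff]
  intro g _
  have e : g = ∑ y, g y • (Pi.single y (1 : k) : K → k) := by
    funext x
    simp [Finset.sum_apply, Pi.single_apply]
  rw [e]
  exact M.sum_mem fun y _ => M.smul_mem _ (hs y)

end Pool.Agent.Lib.MP_f44088_fb
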