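import Mathlib
import Pool.Agent.Lib.MP_f44088_al.FB3.Spec2

/-! Project FB3 (MP_f44088_al), module Str: an arbitrary set of points is a finite union of rich classes. -/

set_option autoImplicit false

namespace Pool.Agent.Lib.MP_f44088_fb

namespace StrAux

theorem mem_of_mkQ {K V : Type} [Field K] [AddCommGroup V] [Module K V] (U : Submodule K V) {n : ℕ}
    (y : Fin n → V) (z : V)
    (h : U.mkQ z ∈ Submodule.span K (Set.range (fun s => U.mkQ (y s)))) :
    z ∈ U ⊔ Submodule.span K (Set.range y) := by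
  have h1 : Set.range (fun s => U.mkQ (y s)) = U.mkQ '' Set.range y := by
    rw [← Set.range_comp]
    rfl
  rw [h1, ← Submodule.map_span] at h
  rw [← Submodule.comap_map_mkQ]
  exact h

theorem indep_snoc {K V : Type} [Field K] [AddCommGroup V] [Module K V] (U : Submodule K V) {n : ℕ}
    (y : Fin n → V) (z : V) (hy : LinearIndependent K (fun s => U.mkQ (y s)))
    (hz : z ∉ U ⊔ Submodule.span K (Set.range y)) (w : Fin (n + 1) → V)
    (hw : ∀ s : Fin n, w s.castSucc = y s) (hwl : w (Fin.last n) = z) :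
    LinearIndependent K (fun s => U.mkQ (w s)) := by
  have h1 : (fun s => U.mkQ (w s))
      = (Fin.snoc (fun s => U.mkQ (y s)) (U.mkQ z) : Fin (n + 1) → V ⧸ U) := by
    funext s
    refine Fin.lastCases ?_ (fun i => ?_) s
    · rw [Fin.snoc_last, hwl]
    · rw [Fin.snoc_castSucc, hw i]
  rw [h1]
  exact LinearIndependent.finSnoc hy (fun h => hz (mem_of_mkQ U y z h))

theorem finite_of_fg {K V : Type} [Field K] [Finite K] [AddCommGroup V] [Module K V] (U : Submodule K V)
    (hU : U.FG) : Finite U := by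
  have : Module.Finite K U := Module.Finite.iff_fg.mpr hU
  exact Module.finite_of_finite K

theorem ind (hRM : S_RM) (ι : Type) [Finite ι] (F : ι → Type) [∀ q, Field (F q)] [∀ q, Finite (F q)]
    (X : ι → Type) [∀ q, AddCommGroup (X q)] [∀ q, Module (F q) (X q)] (Z : Set (∀ q, X q)) :
    ∀ n : ℕ, ∀ J : Set ι, J.ncard = n → ∀ U0 : ∀ q, Submodule (F q) (X q), (∀ q, (U0 q).FG) →
      ∀ v0 : ∀ q, X q, (∀ q, q ∉ J → v0 q ∈ U0 q) →
      ∃ (U : ∀ q, Submodule (F q) (X q)) (T : Type) (I : T → Set ι) (v : T → ∀ q, X q),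
        (∀ q, (U q).FG) ∧ Finite T ∧ (∀ t, ∀ q, q ∉ I t → v t q ∈ U q) ∧
        (∀ z ∈ Z, (∀ q, q ∉ J → z q = v0 q) → ∃ t, ∀ q, q ∉ I t → z q = v t q) ∧
        ∀ t, Rich U (I t) {z | z ∈ Z ∧ ∀ q, q ∉ I t → z q = v t q} := by
  classical
  intro n
  induction n using Nat.strong_induction_on with
  | _ n ih =>
    intro J hJ U0 hU0 v0 hv0
    by_cases hR : Rich U0 J {z | z ∈ Z ∧ ∀ q, q ∉ J → z q = v0 q}
    · exact ⟨U0, Unit, fun _ => J, fun _ => v0, hU0, inferInstance, fun _ q hq => hv0 q hq,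
        fun z _ hz' => ⟨(), hz'⟩, fun _ => hR⟩
    · -- a largest number of independent points
      have hne : ∃ N : ℕ, ¬ ∃ y : Fin N → ∀ q, X q,
          (∀ s, y s ∈ {z | z ∈ Z ∧ ∀ q, q ∉ J → z q = v0 q}) ∧
            ∀ q ∈ J, LinearIndependent (F q) (fun s => (U0 q).mkQ (y s q)) := by
        by_contra hcon
        push Not at hcon
        exact hR hcon
      obtain ⟨M, hM, hM1⟩ : ∃ M : ℕ, (∃ y : Fin M → ∀ q, X q,
          (∀ s, y s ∈ {z | z ∈ Z ∧ ∀ q, q ∉ J → z q = v0 q}) ∧
            ∀ q ∈ J, LinearIndependent (F q) (fun s => (U0 q).mkQ (y s q))) ∧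
          ¬ ∃ y : Fin (M + 1) → ∀ q, X q,
          (∀ s, y s ∈ {z | z ∈ Z ∧ ∀ q, q ∉ J → z q = v0 q}) ∧
            ∀ q ∈ J, LinearIndependent (F q) (fun s => (U0 q).mkQ (y s q)) := by
        have h0 : Nat.find hne ≠ 0 := by
          intro h0
          have h1 := Nat.find_spec hne
          rw [h0] at h1
          exact h1 ⟨fun s => s.elim0, fun s => s.elim0, fun q _ => linearIndependent_empty_type⟩
        obtain ⟨M, hM⟩ := Nat.exists_eq_succ_of_ne_zero h0
        refine ⟨M, ?_, ?_⟩
        · have h2 : M < Nat.find hne := by omega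
          exact not_not.mp (Nat.find_min hne h2)
        · have h1 := Nat.find_spec hne
          rw [hM] at h1
          exact h1
      obtain ⟨y, hyY, hyI⟩ := hM
      set U1 : ∀ q, Submodule (F q) (X q) :=
        fun q => U0 q ⊔ Submodule.span (F q) (Set.range (fun s => y s q)) with hU1
      have hU1fg : ∀ q, (U1 q).FG := fun q =>
        (hU0 q).sup (Submodule.fg_span (Set.finite_range _))
      have hle : ∀ q, U0 q ≤ U1 q := fun q => le_sup_left
      have hcov : ∀ z ∈ Z, (∀ q, q ∉ J → z q = v0 q) → ∃ q ∈ J, z q ∈ U1 q := by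
        intro z hz hzJ
        by_contra hcon
        push Not at hcon
        refine hM1 ⟨Fin.snoc (α := fun _ => ∀ q, X q) y z, ?_, ?_⟩
        · intro s
          refine Fin.lastCases ?_ (fun i => ?_) s
          · rw [Fin.snoc_last]
            exact ⟨hz, hzJ⟩
          · rw [Fin.snoc_castSucc]
            exact hyY i
        · intro q hq
          refine indep_snoc (U0 q) (fun s => y s q) (z q) (hyI q hq) (hcon q hq)
            (fun s => Fin.snoc (α := fun _ => ∀ q, X q) y z s q) ?_ ?_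
          · intro s
            simp only [Fin.snoc_castSucc]
          · simp only [Fin.snoc_last]
      -- the smaller sets
      have hsmall : ∀ a : (Σ q : {q // q ∈ J}, U1 q.1), ∃ (U : ∀ q, Submodule (F q) (X q)) (T : Type)
          (I : T → Set ι) (v : T → ∀ q, X q),
          (∀ q, (U q).FG) ∧ Finite T ∧ (∀ t, ∀ q, q ∉ I t → v t q ∈ U q) ∧
          (∀ z ∈ Z, (∀ q, q ∉ J \ {a.1.1} → z q = Function.update v0 a.1.1 (a.2 : X a.1.1) q) →
            ∃ t, ∀ q, q ∉ I t → z q = v t q) ∧
          ∀ t, Rich U (I t) {z | z ∈ Z ∧ ∀ q, q ∉ I t → z q = v t q} := by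
        intro a
        have hlt : (J \ {a.1.1}).ncard < n := by
          rw [← hJ]
          exact Set.ncard_sdiff_singleton_lt_of_mem a.1.2 (Set.toFinite J)
        refine ih _ hlt (J \ {a.1.1}) rfl U1 hU1fg _ ?_
        intro q hq
        by_cases hqa : q = a.1.1
        · subst hqa
          rw [Function.update_self]
          exact a.2.2
        · rw [Function.update_of_ne hqa]
          exact hle q (hv0 q (fun hqJ => hq ⟨hqJ, hqa⟩))
      choose UA TA IA vA hfg hfin hmem hcv hrich using hsmall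
      have : ∀ q : {q // q ∈ J}, Finite (U1 q.1) := fun q => finite_of_fg _ (hU1fg q.1)
      have : ∀ a, Finite (TA a) := hfin
      have hfgU : ∀ q, (⨆ a, UA a q).FG := fun q => Submodule.fg_iSup _ (fun a => hfg a q)
      have hleU : ∀ a q, UA a q ≤ ⨆ a, UA a q := fun a q => le_iSup (fun a => UA a q) a
      refine ⟨fun q => ⨆ a, UA a q, (Σ a, TA a), fun t => IA t.1 t.2, fun t => vA t.1 t.2, hfgU,
        inferInstance, ?_, ?_, ?_⟩
      · intro t q hq
        exact hleU t.1 q (hmem t.1 t.2 q hq)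
      · intro z hz hzJ
        obtain ⟨q, hq, hzq⟩ := hcov z hz hzJ
        obtain ⟨t, ht⟩ := hcv ⟨⟨q, hq⟩, ⟨z q, hzq⟩⟩ z hz (by
          intro q' hq'
          by_cases hqq : q' = q
          · subst hqq
            simp only [Function.update_self]
          · rw [Function.update_of_ne hqq]
            exact hzJ q' (fun hqJ => hq' ⟨hqJ, hqq⟩))
        exact ⟨⟨⟨⟨q, hq⟩, ⟨z q, hzq⟩⟩, t⟩, ht⟩
      · intro t
        exact hRM ι F X (UA t.1) _ (IA t.1 t.2) _ (hrich t.1 t.2) (hleU t.1) hfgU

end StrAux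

/-- (Str) Structure of an arbitrary set of points: it is a finite union of rich classes. -/
theorem Str : S_RM → S_Str := by
  intro hRM ι _ F _ _ X _ _ Z
  obtain ⟨U, T, I, v, h1, h2, h3, h4, h5⟩ := StrAux.ind hRM ι F X Z _ Set.univ rfl (fun _ => ⊥)
    (fun _ => Submodule.fg_bot) (fun _ => 0) (fun q hq => absurd (Set.mem_univ q) hq)
  exact ⟨U, T, I, v, h1, h2, h3, fun z hz => h4 z hz (fun q hq => absurd (Set.mem_univ q) hq), h5⟩

end Pool.Agent.Lib.MP_f44088_fb
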