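import Pool.Agent.Lib.MP_f44088_al.FB3.Spec2

set_option autoImplicit false

namespace Pool.Agent.Lib.MP_f44088_fb

namespace Tr2Aux

/-- decomposition of `1` -/
theorem dec (n : ℕ) (hn : Squarefree n) (hn1 : n ≠ 1) :
    ∃ m : ℕ → ℤ, ∑ r ∈ n.primeFactors, m r = 1 ∧
      ∀ r ∈ n.primeFactors, ∃ c : ℤ, m r * (r : ℤ) = (n : ℤ) * c := by
  classical
  have hn0 : n ≠ 0 := hn.ne_zero
  have hne : n.primeFactors.Nonempty := Nat.nonempty_primeFactors.2 (by omega)
  have hpw : Pairwise (Function.onFun IsCoprime fun i : n.primeFactors => ((i : ℕ) : ℤ)) := by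
    intro i j hij
    have hi := Nat.prime_of_mem_primeFactors i.2
    have hj := Nat.prime_of_mem_primeFactors j.2
    have h : Nat.Coprime i.1 j.1 := (Nat.coprime_primes hi hj).2 fun h => hij (Subtype.ext h)
    exact Nat.isCoprime_iff_coprime.2 h
  obtain ⟨μ, hμ⟩ := (exists_sum_eq_one_iff_pairwise_coprime (s := fun i : ℕ => (i : ℤ)) hne).2 hpw
  refine ⟨fun r => μ r * ∏ j ∈ n.primeFactors \ {r}, (j : ℤ), hμ, fun r hr => ⟨μ r, ?_⟩⟩
  have h1 : (∏ j ∈ n.primeFactors \ {r}, (j : ℤ)) * (r : ℤ) = ∏ j ∈ n.primeFactors, (j : ℤ) := by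
    rw [Finset.sdiff_singleton_eq_erase, Finset.prod_erase_mul _ _ hr]
  have h2 : ∏ j ∈ n.primeFactors, (j : ℤ) = (n : ℤ) := by
    rw [← Nat.cast_prod, Nat.prod_primeFactors_of_squarefree hn]
  rw [mul_assoc, h1, h2, mul_comm]

theorem charOne {k : Type} [Field k] (p : ℕ) [CharP k p] (hp : p.Prime) (z : kˣ) (h : z ^ p = 1) :
    z = 1 := by
  have : Fact p.Prime := ⟨hp⟩
  have h1 : frobenius k p (z : k) = frobenius k p 1 := by
    rw [frobenius_def, frobenius_def, one_pow, ← Units.val_pow_eq_pow_val, h, Units.val_one]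
  exact Units.ext (frobenius_inj k p h1)

theorem zs {G : Type} [CommGroup G] (a : G) (s : Finset ℕ) (m : ℕ → ℤ) :
    ∏ r ∈ s, a ^ m r = a ^ ∑ r ∈ s, m r := by
  classical
  induction s using Finset.induction_on with
  | empty => simp
  | insert b s h ih => rw [Finset.prod_insert h, Finset.sum_insert h, zpow_add, ih]

end Tr2Aux

theorem Tr2 : S_Tr2 := by
  classical
  intro n p hn hp k _ _ e he K _ A hA
  refine ⟨hA.expK, ?_, ?_, ?_⟩
  · intro r _ f hf z
    have h : (fun y => Additive.toMul (e r (f y))) ∈ A := hf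
    exact hA.tr _ h z
  · intro r hr f hf x hx y
    have hr' := Finset.mem_of_mem_erase hr
    have hrp := Nat.prime_of_mem_primeFactors hr'
    have h : (fun y => Additive.toMul (e r (f y))) ∈ A := hf
    have hz : ∀ t : ZMod r, r • t = 0 := fun t => by
      rw [nsmul_eq_mul, ZMod.natCast_self, zero_mul]
    have h1 : ∀ y, Additive.toMul (e r (f y)) ^ r = 1 := by
      intro y
      have h2 : r • e r (f y) = 0 := by rw [← map_nsmul, hz, map_zero]
      have h3 := congrArg Additive.toMul h2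
      rwa [toMul_nsmul, toMul_zero] at h3
    have h2 := hA.ag r hrp _ h h1 x hx y
    exact (he r hr).1 (Additive.toMul.injective h2)
  · intro x hx
    refine hA.ff x fun f hf y => ?_
    by_cases hn1 : n = 1
    · have h := hA.expA f hf (y + x)
      have h' := hA.expA f hf y
      rw [hn1, pow_one] at h h'
      rw [h, h']
    obtain ⟨m, hm, hmr⟩ := Tr2Aux.dec n hn hn1
    have hpw : ∀ r ∈ n.primeFactors, ∀ y, (f y ^ m r) ^ r = 1 := by
      intro r hr y
      obtain ⟨c, hc⟩ := hmr r hr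
      have h := hA.expA f hf y
      rw [← zpow_natCast, ← zpow_mul, hc, zpow_mul, zpow_natCast, h, one_zpow]
    have key : ∀ r ∈ n.primeFactors, f (y + x) ^ m r = f y ^ m r := by
      intro r hr
      by_cases hrp : r = p
      · subst hrp
        rw [Tr2Aux.charOne r hp _ (hpw r hr y), Tr2Aux.charOne r hp _ (hpw r hr (y + x))]
      have hr' : r ∈ n.primeFactors.erase p := Finset.mem_erase.2 ⟨hrp, hr⟩
      choose t ht using fun y => (he r hr').2 (f y ^ m r) (hpw r hr y)
      have h1 : t ∈ Dof e A r := by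
        change (fun y => Additive.toMul (e r (t y))) ∈ A
        have e1 : (fun y => Additive.toMul (e r (t y))) = f ^ m r := by
          funext y
          rw [ht, Pi.pow_apply]
        rw [e1]
        exact A.zpow_mem hf _
      have h2 := hx r hr' t h1 y
      rw [← ht, ← ht, h2]
    have h2 : ∀ y, f y = ∏ r ∈ n.primeFactors, f y ^ m r := fun y => by
      rw [Tr2Aux.zs, hm, zpow_one]
    rw [h2 (y + x), h2 y]
    exact Finset.prod_congr rfl key

end Pool.Agent.Lib.MP_f44088_fb
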