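import Pool.Agent.Lib.MP_f44088_al.FB3.Spec2

set_option autoImplicit false

namespace Pool.Agent.Lib.MP_f44088_fb

namespace Tr3Aux

/-- decomposition of `1` -/
theorem dec (n : ℕ) (hn : Squarefree n) (hn1 : n ≠ 1) :
    ∃ m : ℕ → ℤ, ∑ r ∈ n.primeFactors, m r = 1 ∧
      ∀ r ∈ n.primeFactors, ∃ c : ℤ, m r * (r : ℤ) = (n : ℤ) * c := by
  classical
  have hn0 : n ≠ 0 := hn.ne_zero
  have hne : n.primeFactors.Nonempty := Nat.nonempty_primeFactors.2 (by omega)
  have hpw : Pairwise (Function.onFun IsCoprime fun i : n.primeFactors => ((i : ℕ) : ℤ)) := by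
    intro i j hij
    have hi := Nat.prime_of_mem_primeFactors i.2
    have hj := Nat.prime_of_mem_primeFactors j.2
    have h : Nat.Coprime i.1 j.1 := (Nat.coprime_primes hi hj).2 fun h => hij (Subtype.ext h)
    exact Nat.isCoprime_iff_coprime.2 h
  obtain ⟨μ, hμ⟩ := (exists_sum_eq_one_iff_pairwise_coprime (s := fun i : ℕ => (i : ℤ)) hne).2 hpw
  refine ⟨fun r => μ r * ∏ j ∈ n.primeFactors \ {r}, (j : ℤ), hμ, fun r hr => ⟨μ r, ?_⟩⟩
  have h1 : (∏ j ∈ n.primeFactors \ {r}, (j : ℤ)) * (r : ℤ) = ∏ j ∈ n.primeFactors, (j : ℤ) := by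
    rw [Finset.sdiff_singleton_eq_erase, Finset.prod_erase_mul _ _ hr]
  have h2 : ∏ j ∈ n.primeFactors, (j : ℤ) = (n : ℤ) := by
    rw [← Nat.cast_prod, Nat.prod_primeFactors_of_squarefree hn]
  rw [mul_assoc, h1, h2, mul_comm]

theorem charOne {k : Type} [Field k] (p : ℕ) [CharP k p] (hp : p.Prime) (z : kˣ) (h : z ^ p = 1) :
    z = 1 := by
  have : Fact p.Prime := ⟨hp⟩
  have h1 : frobenius k p (z : k) = frobenius k p 1 := by
    rw [frobenius_def, frobenius_def, one_pow, ← Units.val_pow_eq_pow_val, h, Units.val_one]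
  exact Units.ext (frobenius_inj k p h1)

theorem zs {G : Type} [CommGroup G] (a : G) (s : Finset ℕ) (m : ℕ → ℤ) :
    ∏ r ∈ s, a ^ m r = a ^ ∑ r ∈ s, m r := by
  classical
  induction s using Finset.induction_on with
  | empty => simp
  | insert b s h ih => rw [Finset.prod_insert h, Finset.sum_insert h, zpow_add, ih]

end Tr3Aux

theorem Tr3 : S_Tr3 := by
  classical
  intro n p hn hp k _ _ e he K₁ K₂ _ _ A₁ A₂ h₁ h₂ φ hφ hc
  refine ⟨φ, hφ, fun f hf => ?_⟩
  by_cases hn1 : n = 1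
  · refine ⟨1, A₂.one_mem, fun y => ?_⟩
    have h := h₁.expA f hf y
    rw [hn1, pow_one] at h
    rw [h]
    rfl
  obtain ⟨m, hm, hmr⟩ := Tr3Aux.dec n hn hn1
  have hpw : ∀ r ∈ n.primeFactors, ∀ y, (f y ^ m r) ^ r = 1 := by
    intro r hr y
    obtain ⟨c, hc⟩ := hmr r hr
    have h := h₁.expA f hf y
    rw [← zpow_natCast, ← zpow_mul, hc, zpow_mul, zpow_natCast, h, one_zpow]
  have key : ∀ r ∈ n.primeFactors.erase p, ∃ g : K₂ → ZMod r, g ∈ Dof e A₂ r ∧
      ∀ y, f y ^ m r = Additive.toMul (e r (g (φ y))) := by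
    intro r hr
    have hr' := Finset.mem_of_mem_erase hr
    choose t ht using fun y => (he r hr).2 (f y ^ m r) (hpw r hr' y)
    have h1 : t ∈ Dof e A₁ r := by
      change (fun y => Additive.toMul (e r (t y))) ∈ A₁
      have e1 : (fun y => Additive.toMul (e r (t y))) = f ^ m r := by
        funext y
        rw [ht, Pi.pow_apply]
      rw [e1]
      exact A₁.zpow_mem hf _
    obtain ⟨g, hg, hgt⟩ := hc r hr t h1
    exact ⟨g, hg, fun y => by rw [← hgt, ht]⟩
  let G : ℕ → K₂ → kˣ := fun r => if hr : r ∈ n.primeFactors.erase p then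
    fun y => Additive.toMul (e r ((key r hr).choose y)) else 1
  refine ⟨∏ r ∈ n.primeFactors.erase p, G r, ?_, fun y => ?_⟩
  · refine A₂.prod_mem fun r hr => ?_
    simp only [G, dif_pos hr]
    exact (key r hr).choose_spec.1
  · have h2 : f y = ∏ r ∈ n.primeFactors, f y ^ m r := by
      rw [Tr3Aux.zs, hm, zpow_one]
    have h3 : ∏ r ∈ n.primeFactors, f y ^ m r = ∏ r ∈ n.primeFactors.erase p, f y ^ m r := by
      by_cases hpn : p ∈ n.primeFactors
      · rw [← Finset.mul_prod_erase _ _ hpn, Tr3Aux.charOne p hp _ (hpw p hpn y), one_mul]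
      · rw [Finset.erase_eq_of_notMem hpn]
    rw [h2, h3, Finset.prod_apply]
    refine Finset.prod_congr rfl fun r hr => ?_
    simp only [G, dif_pos hr]
    exact (key r hr).choose_spec.2 y

end Pool.Agent.Lib.MP_f44088_fb
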