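import Pool.Agent.Lib.MP_f44088_al.FB3.Spec

/-! Project FB3 (MP_f44088_al): the two variable laws are finitely based. -/

set_option autoImplicit false

namespace Pool.Agent.Lib.MP_f44088_fb

namespace TwoAux

/-- the elements of the free group of rank 2 killed by all homomorphisms to groups with the laws `W` -/
def U (W : Set (FreeGroup ℕ)) : Subgroup (FreeGroup (Fin 2)) where
  carrier := {u | ∀ (G : Type) [Group G], Sat W G → ∀ φ : FreeGroup (Fin 2) →* G, φ u = 1}
  mul_mem' := by
    intro a b ha hb G _ hG φ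
    rw [map_mul, ha G hG φ, hb G hG φ, one_mul]
  one_mem' := by
    intro G _ _ φ
    exact map_one φ
  inv_mem' := by
    intro a ha G _ hG φ
    rw [map_inv, ha G hG φ, inv_one]

theorem mem_U (W : Set (FreeGroup ℕ)) (u : FreeGroup (Fin 2)) :
    u ∈ U W ↔ ∀ (G : Type) [Group G], Sat W G → ∀ φ : FreeGroup (Fin 2) →* G, φ u = 1 := Iff.rfl

instance normal_U (W : Set (FreeGroup ℕ)) : (U W).Normal := by
  constructor
  intro a ha g
  rw [mem_U] at ha ⊢
  intro G _ hG φ
  rw [map_mul, map_mul, ha G hG φ, map_inv, mul_one, mul_inv_cancel]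

/-- naturality of `lift` -/
theorem lift_hom {α : Type} {G₁ G₂ : Type} [Group G₁] [Group G₂] (φ : G₁ →* G₂) (f : α → G₁)
    (w : FreeGroup α) : FreeGroup.lift (fun i => φ (f i)) w = φ (FreeGroup.lift f w) := by
  have h2 : (FreeGroup.lift (fun i => φ (f i)) : FreeGroup α →* G₂) =
      φ.comp (FreeGroup.lift f) := by
    ext i
    simp
  rw [h2]
  rfl

theorem lift_map {α β : Type} {G : Type} [Group G] (f : β → G) (g : α → β)
    (w : FreeGroup α) : FreeGroup.lift f (FreeGroup.map g w) = FreeGroup.lift (fun i => f (g i)) w := by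
  have h2 : (FreeGroup.lift (fun i => f (g i)) : FreeGroup α →* G) =
      (FreeGroup.lift f).comp (FreeGroup.map g) := by
    ext i
    simp
  rw [h2]
  rfl

theorem lift_mem {W : Set (FreeGroup ℕ)} {w : FreeGroup ℕ} (hw : w ∈ W)
    (g : ℕ → FreeGroup (Fin 2)) : FreeGroup.lift g w ∈ U W := by
  rw [mem_U]
  intro G _ hG φ
  rw [← lift_hom]
  exact hG w hw _

theorem sat_quot (W : Set (FreeGroup ℕ)) : Sat W (FreeGroup (Fin 2) ⧸ U W) := by
  intro w hw f
  choose g hg using fun i => QuotientGroup.mk'_surjective (U W) (f i)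
  have h : f = fun i => QuotientGroup.mk' (U W) (g i) := by
    funext i
    exact (hg i).symm
  rw [h, lift_hom]
  exact (QuotientGroup.eq_one_iff _).2 (lift_mem hw g)

theorem closure_gen (N : Subgroup (FreeGroup (Fin 2))) [N.Normal] :
    Subgroup.closure (Set.range fun i : Fin 2 => QuotientGroup.mk' N (FreeGroup.of i)) = ⊤ := by
  have h1 : (Set.range fun i : Fin 2 => QuotientGroup.mk' N (FreeGroup.of i)) =
      (QuotientGroup.mk' N) '' Set.range (FreeGroup.of : Fin 2 → FreeGroup (Fin 2)) := by
    rw [← Set.range_comp]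
    rfl
  rw [h1, ← MonoidHom.map_closure, FreeGroup.closure_range_of]
  exact Subgroup.map_top_of_surjective _ (QuotientGroup.mk'_surjective N)

theorem fg_U {n : ℕ} {W : Set (FreeGroup ℕ)} (h : Hyp n W) : (U W).FG := by
  classical
  have h1 := (h (FreeGroup (Fin 2) ⧸ U W) (sat_quot W)).1
    (Finset.univ.image fun i : Fin 2 => QuotientGroup.mk' (U W) (FreeGroup.of i))
  have h2 : Subgroup.closure ((Finset.univ.image fun i : Fin 2 =>
      QuotientGroup.mk' (U W) (FreeGroup.of i) : Finset (FreeGroup (Fin 2) ⧸ U W)) :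
      Set (FreeGroup (Fin 2) ⧸ U W)) = ⊤ := by
    rw [Finset.coe_image, Finset.coe_univ, Set.image_univ]
    exact closure_gen (U W)
  rw [h2] at h1
  have h3 : Finite (FreeGroup (Fin 2) ⧸ U W) :=
    Finite.of_equiv _ (Subgroup.topEquiv (G := FreeGroup (Fin 2) ⧸ U W)).toEquiv
  have h4 : (U W).index ≠ 0 := Subgroup.index_ne_zero_of_finite
  have h5 : (U W).FiniteIndex := ⟨h4⟩
  exact (Group.fg_iff_subgroup_fg _).1 (Subgroup.fg_of_index_ne_zero (U W))

end TwoAux

open TwoAux in
/-- (Two) -/
theorem Two : S_Two := by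
  classical
  intro n W hyp
  obtain ⟨S, hS⟩ := fg_U hyp
  refine ⟨S.image (FreeGroup.map (Fin.val : Fin 2 → ℕ)), ?_, ?_⟩
  · intro G _ hG w hw f
    rw [Finset.coe_image] at hw
    obtain ⟨s, hs, rfl⟩ := hw
    have h1 : s ∈ U W := by
      rw [← hS]
      exact Subgroup.subset_closure hs
    rw [lift_map]
    exact h1 G hG (FreeGroup.lift fun i : Fin 2 => f i)
  · intro G _ hG x y w hw f
    obtain ⟨h, hh⟩ : ∃ h : FreeGroup (Fin 2) →* G, h = FreeGroup.lift ![x, y] := ⟨_, rfl⟩
    have hU : U W ≤ h.ker := by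
      rw [← hS, Subgroup.closure_le]
      intro s hs
      have h1 := hG (FreeGroup.map (Fin.val : Fin 2 → ℕ) s) (by
        rw [Finset.coe_image]
        exact ⟨s, hs, rfl⟩) (fun i => if i = 0 then x else y)
      rw [lift_map] at h1
      have h2 : (fun i : Fin 2 => if (i : ℕ) = 0 then x else y) = ![x, y] := by
        funext i
        fin_cases i <;> simp
      rw [h2, ← hh] at h1
      exact h1
    have hr : h.range = Subgroup.closure ({x, y} : Set G) := by
      rw [hh, FreeGroup.range_lift_eq_closure]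
      congr 1
      simp [Set.pair_comm]
    have hex : ∀ i, ∃ g : FreeGroup (Fin 2), h g = (f i : G) := by
      intro i
      have h1 : (f i : G) ∈ h.range := by
        rw [hr]
        exact (f i).2
      exact h1
    choose g hg using hex
    apply Subtype.ext
    have h3 : ((FreeGroup.lift f w : Subgroup.closure ({x, y} : Set G)) : G) =
        h (FreeGroup.lift g w) := by
      rw [← lift_hom]
      rw [show (fun i => h (g i)) = fun i => (Subgroup.closure ({x, y} : Set G)).subtype (f i) from
        funext fun i => hg i, lift_hom]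
      rfl
    rw [h3]
    exact hU (lift_mem hw g)

end Pool.Agent.Lib.MP_f44088_fb
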