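import Mathlib
import Pool.Agent.Lib.MP_f44088_al.FB3.Spec2

/-! Project FB3 (MP_f44088_al): well quasi order of the codes. -/

set_option autoImplicit false

namespace Pool.Agent.Lib.MP_f44088_fb

theorem WC : S_Tr1 → S_Tr2 → S_Tr3 → S_WD → S_WC := by
  intro h1 h2 h3 hw n hn p hp k _ _ _ c
  obtain ⟨e, he⟩ := h1 n p hp k
  let d : ℕ → DCode n (n.primeFactors.erase p) := fun i =>
    { K := (c i).K
      grp := (c i).grp
      fin := (c i).fin
      D := Dof e (c i).A
      ok := h2 n p hn hp k e he (c i).K (c i).A (c i).ok }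
  obtain ⟨i, j, hij, φ, hφ, hD⟩ := hw n hn (n.primeFactors.erase p) (Finset.erase_subset _ _) d
  exact ⟨i, j, hij, h3 n p hn hp k e he (c i).K (c j).K (c i).A (c j).A (c i).ok (c j).ok φ hφ hD⟩

end Pool.Agent.Lib.MP_f44088_fb
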