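import Mathlib
import Pool.Agent.Lib.MP_f44088_al.FB3.Spec2

/-! Project FB3 (MP_f44088_al), module WD: well quasi order of the additive codes. -/

set_option autoImplicit false

namespace Pool.Agent.Lib.MP_f44088_fb

namespace WDAux

/-- a finite dimensional space is a direct summand of `ℕ →₀ F` -/
theorem emb (F V : Type) [Field F] [AddCommGroup V] [Module F V] [FiniteDimensional F V] :
    ∃ (ε : V →ₗ[F] (ℕ →₀ F)) (ρ : (ℕ →₀ F) →ₗ[F] V), ∀ v, ρ (ε v) = v := by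
  let b := Module.finBasis F V
  let ε : V →ₗ[F] (ℕ →₀ F) :=
    (Finsupp.lmapDomain F F (Fin.val : Fin (Module.finrank F V) → ℕ)).comp b.repr.toLinearMap
  have hinj : Function.Injective ε := by
    intro x y hxy
    have h1 := Finsupp.mapDomain_injective Fin.val_injective hxy
    exact b.repr.injective h1
  obtain ⟨ρ, hρ⟩ := ε.exists_leftInverse_of_injective (LinearMap.ker_eq_bot.2 hinj)
  exact ⟨ε, ρ, fun v => LinearMap.congr_fun hρ v⟩

theorem finHom (K : Type) [AddCommGroup K] [Finite K] (q : ℕ) [NeZero q] : Finite (K →+ ZMod q) :=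
  Finite.of_injective (fun f : K →+ ZMod q => (f : K → ZMod q)) DFunLike.coe_injective

theorem embHom (K : Type) [AddCommGroup K] [Finite K] (q : ℕ) [Fact q.Prime] :
    ∃ (ε : (K →+ ZMod q) →ₗ[ZMod q] (ℕ →₀ ZMod q)) (ρ : (ℕ →₀ ZMod q) →ₗ[ZMod q] (K →+ ZMod q)),
      ∀ v, ρ (ε v) = v := by
  have := finHom K q
  have : FiniteDimensional (ZMod q) (K →+ ZMod q) := Module.Finite.of_finite
  exact emb (ZMod q) (K →+ ZMod q)

end WDAux

open WDAux in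
/-- **(WD)** Well quasi order of the additive codes. -/
theorem WD : S_LW → S_Dual → S_Ch → S_F1 → S_F2 → S_WD := by
  intro hLW hDual hCh hF1 hF2 n hn Q hQ d
  have hpι : ∀ q : {q // q ∈ n.primeFactors}, Fact q.1.Prime := fun q =>
    ⟨Nat.prime_of_mem_primeFactors q.2⟩
  have hpC : ∀ r : {r // r ∈ Q}, Fact r.1.Prime := fun r => ⟨Nat.prime_of_mem_primeFactors (hQ r.2)⟩
  have hCh' : ∀ r : {r // r ∈ Q}, ∃ E : ∀ q : ℕ, ZMod q → AlgebraicClosure (ZMod r.1),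
      ∀ (K : Type) [AddCommGroup K] [Finite K], (∀ x : K, n • x = 0) →
      ∀ c : K → AlgebraicClosure (ZMod r.1), IsChar c →
      ∃ l : ∀ q : ℕ, K →+ ZMod q, ∀ y, c y = ∏ q ∈ n.primeFactors, E q (l q y) :=
    fun r => hCh n hn r.1 (hpC r).out (AlgebraicClosure (ZMod r.1))
  choose E hE using hCh'
  have hlog : ∀ (i : ℕ) (r : {r // r ∈ Q})
      (c : Lam (F := AlgebraicClosure (ZMod r.1)) ((d i).D r.1)),
      ∃ l : ∀ q : ℕ, (d i).K →+ ZMod q, ∀ y, c.1 y = ∏ q ∈ n.primeFactors, E r q (l q y) :=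
    fun i r c => hE r (d i).K (d i).ok.expK c.1 c.2.1
  choose l hl using hlog
  have hemb : ∀ (i : ℕ) (q : {q // q ∈ n.primeFactors}),
      ∃ (ε : ((d i).K →+ ZMod q.1) →ₗ[ZMod q.1] (ℕ →₀ ZMod q.1))
        (ρ : (ℕ →₀ ZMod q.1) →ₗ[ZMod q.1] ((d i).K →+ ZMod q.1)), ∀ v, ρ (ε v) = v :=
    fun i q => embHom (d i).K q.1
  choose ε ρ hρ using hemb
  obtain ⟨i, j, hij, π, hπ⟩ := hLW {q // q ∈ n.primeFactors} (fun q => ZMod q.1)
    (fun q => ℕ →₀ ZMod q.1) {r // r ∈ Q}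
    (fun i r => Set.range (fun c : Lam (F := AlgebraicClosure (ZMod r.1)) ((d i).D r.1) =>
      fun q => ε i q (l i r c q.1)))
    (fun i r => by
      have h1 : ∀ q : {q // q ∈ n.primeFactors}, Finite ((d i).K →+ ZMod q.1) := fun q =>
        finHom (d i).K q.1
      refine (Set.finite_range (fun (m : ∀ q : {q // q ∈ n.primeFactors}, (d i).K →+ ZMod q.1) =>
        fun q => ε i q (m q))).subset ?_
      rintro z ⟨c, rfl⟩
      exact ⟨fun q => l i r c q.1, rfl⟩)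
  obtain ⟨φ, hφ⟩ := hDual n hn (d i).K (d j).K (d i).ok.expK (d j).ok.expK
    (fun q => if h : q ∈ n.primeFactors then
      (ρ i ⟨q, h⟩).comp ((π ⟨q, h⟩).comp (ε j ⟨q, h⟩)) else 0)
  have key : ∀ r ∈ Q, ∀ f ∈ (d i).D r, ∃ g ∈ (d j).D r, ∀ y, f y = g (φ y) := by
    intro r hr
    have hrp := hpC ⟨r, hr⟩
    refine hF2 r hrp.out (AlgebraicClosure (ZMod r)) (d i).K (d j).K φ ((d i).D r) ((d j).D r) ?_ ?_
    · exact hF1 n hn r hrp.out (AlgebraicClosure (ZMod r)) (d i).K (d i).ok.expK ((d i).D r)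
        ((d i).ok.tr r hr) ((d i).ok.rinv r hr)
    · intro c hc
      obtain ⟨z', ⟨c', rfl⟩, hz'⟩ := hπ ⟨r, hr⟩ _ ⟨⟨c, hc⟩, rfl⟩
      refine ⟨c'.1, c'.2, fun y => ?_⟩
      have e1 := hl i ⟨r, hr⟩ ⟨c, hc⟩ y
      have e2 := hl j ⟨r, hr⟩ c' (φ y)
      change c y = _ at e1
      rw [e1, e2]
      refine Finset.prod_congr rfl fun q hq => ?_
      have e3 := hφ q hq (l j ⟨r, hr⟩ c' q) y
      rw [dif_pos hq] at e3
      have e4 := hz' ⟨q, hq⟩
      have e5 : (ρ i ⟨q, hq⟩) ((π ⟨q, hq⟩) ((ε j ⟨q, hq⟩) (l j ⟨r, hr⟩ c' q))) =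
          l i ⟨r, hr⟩ ⟨c, hc⟩ q := by
        have e6 := congrArg (ρ i ⟨q, hq⟩) e4
        rw [hρ] at e6
        exact e6
      have e7 : (l i ⟨r, hr⟩ ⟨c, hc⟩ q) y = (l j ⟨r, hr⟩ c' q) (φ y) := by
        rw [← e3, ← e5]
        rfl
      rw [e7]
  refine ⟨i, j, hij, φ, ?_, key⟩
  rw [injective_iff_map_eq_zero]
  intro x hx
  refine (d i).ok.ff x fun r hr f hf y => ?_
  obtain ⟨g, _, hg⟩ := key r hr f hf
  rw [hg, hg, map_add, hx, add_zero]

end Pool.Agent.Lib.MP_f44088_fb
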