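import Pool.Agent.Lib.MP_f44088_al.FB3.FgF
import Pool.Agent.Lib.MP_f44088_al.FB3.D3
import Pool.Agent.Lib.MP_f44088_al.FB3.Two
import Pool.Agent.Lib.MP_f44088_al.FB3.Seq
import Pool.Agent.Lib.MP_f44088_al.FB3.Fa
import Pool.Agent.Lib.MP_f44088_al.FB3.Fb
import Pool.Agent.Lib.MP_f44088_al.FB3.Fit
import Pool.Agent.Lib.MP_f44088_al.FB3.MinN
import Pool.Agent.Lib.MP_f44088_al.FB3.Hm
import Pool.Agent.Lib.MP_f44088_al.FB3.MaxA
import Pool.Agent.Lib.MP_f44088_al.FB3.Conj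
import Pool.Agent.Lib.MP_f44088_al.FB3.EU
import Pool.Agent.Lib.MP_f44088_al.FB3.Lr
import Pool.Agent.Lib.MP_f44088_al.FB3.Kin
import Pool.Agent.Lib.MP_f44088_al.FB3.Spl
import Pool.Agent.Lib.MP_f44088_al.FB3.Eig
import Pool.Agent.Lib.MP_f44088_al.FB3.Emb
import Pool.Agent.Lib.MP_f44088_al.FB3.Lin
import Pool.Agent.Lib.MP_f44088_al.FB3.Spn
import Pool.Agent.Lib.MP_f44088_al.FB3.Rep
import Pool.Agent.Lib.MP_f44088_al.FB3.Cod
import Pool.Agent.Lib.MP_f44088_al.FB3.Sec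
import Pool.Agent.Lib.MP_f44088_al.FB3.RM
import Pool.Agent.Lib.MP_f44088_al.FB3.Str
import Pool.Agent.Lib.MP_f44088_al.FB3.Joint
import Pool.Agent.Lib.MP_f44088_al.FB3.Ger
import Pool.Agent.Lib.MP_f44088_al.FB3.LW
import Pool.Agent.Lib.MP_f44088_al.FB3.Dual
import Pool.Agent.Lib.MP_f44088_al.FB3.Ch
import Pool.Agent.Lib.MP_f44088_al.FB3.F1
import Pool.Agent.Lib.MP_f44088_al.FB3.F2
import Pool.Agent.Lib.MP_f44088_al.FB3.WD
import Pool.Agent.Lib.MP_f44088_al.FB3.Tr1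
import Pool.Agent.Lib.MP_f44088_al.FB3.Tr2
import Pool.Agent.Lib.MP_f44088_al.FB3.Tr3
import Pool.Agent.Lib.MP_f44088_al.FB3.WC
import Pool.Agent.Lib.MP_f44088_al.FB3.Main
import Pool.Agent.Lib.MP_f44088_al.FB3.Fin

/-! Project FB3 (MP_f44088_al): assembly. -/

set_option autoImplicit false

namespace Pool.Agent.Lib.MP_f44088_fb

theorem all_FgF : S_FgF := FgF
theorem all_D3 : S_D3 := D3
theorem all_Two : S_Two := Two
theorem all_Seq : S_Seq := Seq all_FgF all_D3 all_Two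
theorem all_Fa : S_Fa := Fa
theorem all_Fb : S_Fb := Fb
theorem all_Fit : S_Fit := Fit all_Fa all_Fb
theorem all_MinN : S_MinN := MinN
theorem all_Hm : S_Hm := Hm
theorem all_MaxA : S_MaxA := MaxA
theorem all_Conj : S_Conj := Conj
theorem all_EU : S_EU := EU
theorem all_Lr : S_Lr := Lr all_Conj all_EU
theorem all_Kin : S_Kin := Kin
theorem all_Spl : S_Spl := Spl all_MaxA all_Lr all_Kin
theorem all_Eig : S_Eig := Eig
theorem all_Emb : S_Emb := Emb
theorem all_Lin : S_Lin := Lin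
theorem all_Spn : S_Spn := Spn
theorem all_Rep : S_Rep := Rep all_Eig all_Emb all_Lin all_Spn
theorem all_Cod : S_Cod := Cod all_Fit all_MinN all_Hm all_Spl all_Rep
theorem all_Sec : S_Sec := Sec
theorem all_RM : S_RM := RM
theorem all_Str : S_Str := Str all_RM
theorem all_Joint : S_Joint := Joint all_RM
theorem all_Ger : S_Ger := Ger
theorem all_LW : S_LW := LW all_Str all_RM all_Joint all_Ger
theorem all_Dual : S_Dual := Dual
theorem all_Ch : S_Ch := Ch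
theorem all_F1 : S_F1 := F1
theorem all_F2 : S_F2 := F2
theorem all_WD : S_WD := WD all_LW all_Dual all_Ch all_F1 all_F2
theorem all_Tr1 : S_Tr1 := Tr1
theorem all_Tr2 : S_Tr2 := Tr2
theorem all_Tr3 : S_Tr3 := Tr3
theorem all_WC : S_WC := WC all_Tr1 all_Tr2 all_Tr3 all_WD
theorem all_Main : S_Main := Main all_Cod all_Sec all_WC
theorem all_Fin : S_Fin := Fin all_Seq all_Main

end Pool.Agent.Lib.MP_f44088_fb
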