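import Mathlib
import Pool.Agent.Lib.MP_f44088_al.FB3.Spec

/-!
# Project FB3 (MP_f44088_al): conjugacy of complements, abelian case (Conj)
-/

set_option autoImplicit false

namespace Pool.Agent.Lib.MP_f44088_fb

namespace ConjAux

variable {E : Type} [Group E]

/-- the decomposition of a complement -/
theorem exists_dec {B V : Subgroup E} (h : Subgroup.IsComplement' B V) (g : E) :
    ∃ b ∈ B, ∃ v ∈ V, g = b * v := by
  obtain ⟨⟨b, v⟩, hbv⟩ := h.2 g
  exact ⟨b, b.2, v, v.2, hbv.symm⟩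

/-- uniqueness of the decomposition -/
theorem dec_unique {B V : Subgroup E} (h : Subgroup.IsComplement' B V) {b b' v v' : E} (hb : b ∈ B)
    (hb' : b' ∈ B) (hv : v ∈ V) (hv' : v' ∈ V) (he : b * v = b' * v') : b = b' := by
  have h0 := h.1
  have h1 := @h0 (⟨b, hb⟩, ⟨v, hv⟩) (⟨b', hb'⟩, ⟨v', hv'⟩) he
  exact congrArg (fun z => (z.1 : E)) h1

/-- the root of the product of all cocycle values splits the cocycle -/
theorem split [Finite E] {B U : Subgroup E} [hB : B.Normal] (hc : ∀ x ∈ B, ∀ y ∈ B, x * y = y * x)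
    (hcop : (Nat.card B).Coprime (Nat.card U)) (β : E → B)
    (hβ : ∀ u ∈ U, ∀ v ∈ U, β (u * v) = β u * MulAut.conjNormal u (β v)) :
    ∃ d : B, ∀ u ∈ U, d = β u * MulAut.conjNormal u d := by
  classical
  let _ : CommGroup B := { (inferInstance : Group B) with
    mul_comm := fun x y => Subtype.ext (hc _ x.2 _ y.2) }
  let _ : Fintype U := Fintype.ofFinite U
  have hcard : Fintype.card U = Nat.card U := Nat.card_eq_fintype_card.symm
  obtain ⟨d, hd⟩ := (powCoprime hcop).surjective (∏ v : U, β v)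
  have hd' : d ^ Nat.card U = ∏ v : U, β v := hd
  refine ⟨d, fun u hu => ?_⟩
  apply (powCoprime hcop).injective
  change d ^ Nat.card U = (β u * MulAut.conjNormal u d) ^ Nat.card U
  rw [mul_pow, ← map_pow, hd']
  have h1 : ∏ v : U, β ((⟨u, hu⟩ * v : U) : E) = ∏ v : U, β v :=
    Fintype.prod_equiv (Equiv.mulLeft (⟨u, hu⟩ : U)) _ _ fun v => rfl
  have h2 : ∏ v : U, β ((⟨u, hu⟩ * v : U) : E) =
      ∏ v : U, (β u * MulAut.conjNormal u (β v)) :=
    Finset.prod_congr rfl fun v _ => hβ u hu v v.2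
  have h3 : ∏ v : U, MulAut.conjNormal u (β v) = MulAut.conjNormal u (∏ v : U, β v) :=
    (map_prod (MulAut.conjNormal u) _ _).symm
  rw [← h3]
  refine h1.symm.trans (h2.trans ?_)
  rw [Finset.prod_mul_distrib, Finset.prod_const, Finset.card_univ, hcard]

end ConjAux

open ConjAux in
theorem Conj : S_Conj := by
  intro E _ _ B U U' hB hc hU hU' hcop
  choose β hβ θ hθ he using fun g : E => exists_dec hU' g
  have key : ∀ u ∈ U, ∀ v ∈ U, (⟨β (u * v), hβ _⟩ : B) =
      ⟨β u, hβ u⟩ * MulAut.conjNormal u ⟨β v, hβ v⟩ := by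
    intro u _ v _
    apply Subtype.ext
    rw [Subgroup.coe_mul, MulAut.conjNormal_apply]
    have hm : u * β v * u⁻¹ ∈ B := hB.conj_mem _ (hβ v) u
    refine dec_unique hU' (hβ _) (B.mul_mem (hβ u) hm) (hθ (u * v)) (U'.mul_mem (hθ u) (hθ v)) ?_
    rw [← he (u * v)]
    change u * v = β u * (u * β v * u⁻¹) * (θ u * θ v)
    rw [hc _ (hβ u) _ hm]
    calc u * v = u * (β v * θ v) := by rw [← he v]
      _ = u * β v * u⁻¹ * u * θ v := by group
      _ = u * β v * u⁻¹ * (β u * θ u) * θ v := by rw [← he u]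
      _ = u * β v * u⁻¹ * β u * (θ u * θ v) := by group
  obtain ⟨d, hd⟩ := split hc hcop (fun g => (⟨β g, hβ g⟩ : B)) key
  refine ⟨(d : E)⁻¹, B.inv_mem d.2, fun u hu => ?_⟩
  have h1 : (d : E) = β u * (u * d * u⁻¹) := by
    have h2 := congrArg (fun z : B => (z : E)) (hd u hu)
    simpa only [Subgroup.coe_mul, MulAut.conjNormal_apply] using h2
  have hm : u * (d : E) * u⁻¹ ∈ B := hB.conj_mem _ d.2 u
  have h3 : (d : E)⁻¹ * u * ((d : E)⁻¹)⁻¹ = θ u := by
    have h4 : (d : E)⁻¹ * β u * (u * d * u⁻¹) = 1 := by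
      rw [mul_assoc, ← h1]
      group
    have h5 : (d : E)⁻¹ * (u * d * u⁻¹) * β u = 1 := by
      rw [mul_assoc, hc _ hm _ (hβ u), ← mul_assoc, h4]
    calc (d : E)⁻¹ * u * ((d : E)⁻¹)⁻¹ = (d : E)⁻¹ * (u * d * u⁻¹) * u := by group
      _ = (d : E)⁻¹ * (u * d * u⁻¹) * (β u * θ u) := by rw [← he u]
      _ = (d : E)⁻¹ * (u * d * u⁻¹) * β u * θ u := by group
      _ = θ u := by rw [h5, one_mul]
  rw [h3]
  exact hθ u

end Pool.Agent.Lib.MP_f44088_fb
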