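import Mathlib
import Pool.Agent.Lib.MP_f44088_al.FB3.Spec

/-! Project FB3 (MP_f44088_al), module FgF: a finitely generated soluble group of finite exponent is finite. -/

set_option autoImplicit false

namespace Pool.Agent.Lib.MP_f44088_fb

namespace FgFAux

theorem map_derived (G : Type) [Group G] (m : ℕ) :
    (derivedSeries (commutator G) m).map (commutator G).subtype = derivedSeries G (m + 1) := by
  induction m with
  | zero =>
    rw [derivedSeries_zero, ← MonoidHom.range_eq_map, Subgroup.range_subtype, zero_add,
      derivedSeries_one]
  | succ m ih =>
    rw [derivedSeries_succ, Subgroup.map_commutator, ih, ← derivedSeries_succ]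

theorem finite_of_subgroup {G : Type} [Group G] (H : Subgroup G) [Finite H] [Finite (G ⧸ H)] :
    Finite G := by
  refine Nat.finite_of_card_ne_zero ?_
  rw [Subgroup.card_eq_card_quotient_mul_card_subgroup H]
  exact Nat.mul_ne_zero Nat.card_pos.ne' Nat.card_pos.ne'

end FgFAux

open FgFAux in
theorem FgF : S_FgF := by
  intro m n hn
  induction m with
  | zero =>
    intro G _ _ _ h
    rw [derivedSeries_zero] at h
    have h1 : Subsingleton G := by
      refine ⟨fun a b => ?_⟩
      have ha : a ∈ (⊤ : Subgroup G) := Subgroup.mem_top a
      have hb : b ∈ (⊤ : Subgroup G) := Subgroup.mem_top b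
      rw [h, Subgroup.mem_bot] at ha hb
      rw [ha, hb]
    exact Finite.of_subsingleton
  | succ m ih =>
    intro G _ hG he h
    have hA : Group.FG (Abelianization G) :=
      Group.fg_of_surjective (f := (Abelianization.of : G →* Abelianization G))
        QuotientGroup.mk_surjective
    have ht : IsMulTorsion (Abelianization G) := by
      intro x
      obtain ⟨g, rfl⟩ : ∃ g : G, Abelianization.of g = x := QuotientGroup.mk_surjective x
      rw [isOfFinOrder_iff_pow_eq_one]
      exact ⟨n, hn, by rw [← map_pow, he, map_one]⟩
    have hf : Finite (Abelianization G) := CommGroup.finite_of_fg_isMulTorsion _ ht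
    have hq : Finite (G ⧸ commutator G) := hf
    have hi : (commutator G).FiniteIndex := Subgroup.finiteIndex_of_finite_quotient
    have hc : Group.FG (commutator G) := Subgroup.fg_of_index_ne_zero _
    have hd : derivedSeries (commutator G) m = ⊥ := by
      have h1 := map_derived G m
      rw [h, Subgroup.map_eq_bot_iff_of_injective _ (commutator G).subtype_injective] at h1
      exact h1
    have hfc : Finite (commutator G) := ih (commutator G) hc (fun x => by
      apply Subtype.ext
      rw [Subgroup.coe_pow, he, Subgroup.coe_one]) hd
    exact finite_of_subgroup (commutator G)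

end Pool.Agent.Lib.MP_f44088_fb
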