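import Mathlib
import Pool.Agent.Lib.MP_f44088_al.FB3.Spec

/-! Project FB3 (MP_f44088_al): below implies section. -/

set_option autoImplicit false

namespace Pool.Agent.Lib.MP_f44088_fb

namespace SecAux

variable {k K₁ K₂ : Type} [Field k] [AddCommGroup K₁] [AddCommGroup K₂]

/-- the subgroup of `GA A₂` of the elements which restrict to `K₁` -/
def S (A₁ : Subgroup (K₁ → kˣ)) (A₂ : Subgroup (K₂ → kˣ)) (φ : K₁ →+ K₂) : Subgroup (GA A₂) where
  carrier := {u | (∃ x : K₁, φ x = u.1.x) ∧ ∀ z : K₁, (fun y => u.1.a (φ (y + z))) ∈ A₁}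
  mul_mem' := by
    rintro u v ⟨⟨x, hx⟩, hu⟩ ⟨⟨x', hx'⟩, hv⟩
    refine ⟨⟨x + x', ?_⟩, fun z => ?_⟩
    · rw [map_add, hx, hx']
      rfl
    · have h := A₁.mul_mem (hu z) (hv (z + x))
      have e : (fun y => (u * v).1.a (φ (y + z))) =
          (fun y => u.1.a (φ (y + z))) * (fun y => v.1.a (φ (y + (z + x)))) := by
        funext y
        have e1 : φ (y + (z + x)) = φ (y + z) + u.1.x := by
          rw [← hx, ← map_add, add_assoc]
        rw [Pi.mul_apply, e1]
        rfl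
      rw [e]
      exact h
  one_mem' := by
    refine ⟨⟨0, ?_⟩, fun z => ?_⟩
    · rw [map_zero]
      rfl
    · have e : (fun y : K₁ => (1 : GA A₂).1.a (φ (y + z))) = 1 := by
        funext y
        rfl
      rw [e]
      exact A₁.one_mem
  inv_mem' := by
    rintro u ⟨⟨x, hx⟩, hu⟩
    refine ⟨⟨-x, ?_⟩, fun z => ?_⟩
    · rw [map_neg, hx]
      rfl
    · have h := A₁.inv_mem (hu (z - x))
      have e : (fun y => (u⁻¹).1.a (φ (y + z))) = (fun y => u.1.a (φ (y + (z - x))))⁻¹ := by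
        funext y
        have e1 : φ (y + (z - x)) = φ (y + z) - u.1.x := by
          rw [← hx, ← map_sub, add_sub_assoc]
        rw [Pi.inv_apply, e1]
        rfl
      rw [e]
      exact h

/-- the restriction to `K₁` -/
noncomputable def res (A₁ : Subgroup (K₁ → kˣ)) (A₂ : Subgroup (K₂ → kˣ)) (φ : K₁ →+ K₂)
    (hφ : Function.Injective φ) : S A₁ A₂ φ →* GA A₁ :=
  MonoidHom.mk'
    (fun u => ⟨⟨fun y => u.1.1.m (φ y), fun y => u.1.1.a (φ y), u.2.1.choose⟩, fun z => u.2.2 z⟩)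
    (by
      intro u v
      apply Subtype.ext
      have hu := u.2.1.choose_spec
      have hv := v.2.1.choose_spec
      have huv := (u * v).2.1.choose_spec
      apply Big.ext
      · funext y
        have e1 : φ (y + u.2.1.choose) = φ y + u.1.1.x := by rw [map_add, hu]
        change (u * v).1.1.m (φ y) = u.1.1.m (φ y) + (u.1.1.a (φ y) : k) * v.1.1.m (φ (y + u.2.1.choose))
        rw [e1]
        rfl
      · funext y
        have e1 : φ (y + u.2.1.choose) = φ y + u.1.1.x := by rw [map_add, hu]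
        change (u * v).1.1.a (φ y) = u.1.1.a (φ y) * v.1.1.a (φ (y + u.2.1.choose))
        rw [e1]
        rfl
      · apply hφ
        change φ ((u * v).2.1.choose) = φ (u.2.1.choose + v.2.1.choose)
        rw [huv, map_add, hu, hv]
        rfl)

theorem res_surj (A₁ : Subgroup (K₁ → kˣ)) (A₂ : Subgroup (K₂ → kˣ)) (φ : K₁ →+ K₂)
    (hφ : Function.Injective φ) (htr : ∀ f ∈ A₂, ∀ z : K₂, (fun y => f (y + z)) ∈ A₂)
    (hb : ∀ f ∈ A₁, ∃ g ∈ A₂, ∀ y, f y = g (φ y)) : Function.Surjective (res A₁ A₂ φ hφ) := by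
  intro w
  have hf : w.1.a ∈ A₁ := by
    have h := w.2 0
    simpa using h
  obtain ⟨g, hg, hgf⟩ := hb _ hf
  let u : GA A₂ := ⟨⟨Function.extend φ w.1.m 0, g, φ w.1.x⟩, fun z => htr g hg z⟩
  have hu : u ∈ S A₁ A₂ φ := by
    refine ⟨⟨w.1.x, rfl⟩, fun z => ?_⟩
    have e : (fun y => u.1.a (φ (y + z))) = (fun y => w.1.a (y + z)) := by
      funext y
      exact (hgf (y + z)).symm
    rw [e]
    exact w.2 z
  refine ⟨⟨u, hu⟩, ?_⟩
  apply Subtype.ext
  apply Big.ext
  · funext y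
    change Function.extend φ w.1.m 0 (φ y) = w.1.m y
    rw [hφ.extend_apply]
  · funext y
    exact (hgf y).symm
  · apply hφ
    exact hu.1.choose_spec

end SecAux

open SecAux in
theorem Sec : S_Sec := by
  intro k K₁ K₂ _ _ _ A₁ A₂ htr hb
  obtain ⟨φ, hφ, hb⟩ := hb
  have h1 : InVar (GA A₁) (S A₁ A₂ φ) := inVar_of_surjective (res A₁ A₂ φ hφ)
    (res_surj A₁ A₂ φ hφ htr hb)
  have h2 : InVar (S A₁ A₂ φ) (GA A₂) := inVar_of_injective (S A₁ A₂ φ).subtype
    (S A₁ A₂ φ).subtype_injective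
  exact h1.trans h2

end Pool.Agent.Lib.MP_f44088_fb
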