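import Mathlib
import Pool.Agent.Lib.MP_f44088_al.FB3.Spec2

set_option autoImplicit false

namespace Pool.Agent.Lib.MP_f44088_fb.Tr1Aux

theorem exists_exp (p r : ℕ) (hp : p.Prime) (hr : r.Prime) (hrp : r ≠ p) (k : Type) [Field k]
    [IsAlgClosed k] [CharP k p] :
    ∃ e : ZMod r →+ Additive kˣ, Function.Injective e ∧
      ∀ z : kˣ, z ^ r = 1 → ∃ t : ZMod r, Additive.toMul (e t) = z := by
  haveI : NeZero r := ⟨hr.ne_zero⟩
  haveI : NeZero ((r : ℕ) : k) := by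
    refine ⟨fun h => ?_⟩
    have h1 : p ∣ r := (CharP.cast_eq_zero_iff k p r).1 h
    exact hrp ((Nat.prime_dvd_prime_iff_eq hp hr).1 h1).symm
  obtain ⟨ζ, hζ⟩ := HasEnoughRootsOfUnity.exists_primitiveRoot k r
  obtain ⟨u, hu⟩ := hζ.isUnit hr.ne_zero
  have hu' : IsPrimitiveRoot u r := by
    rw [← IsPrimitiveRoot.coe_units_iff, hu]
    exact hζ
  refine ⟨(MonoidHom.toAdditive (Subgroup.zpowers u).subtype).comp
    hu'.zmodEquivZPowers.toAddMonoidHom, ?_, ?_⟩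
  · intro a b hab
    apply hu'.zmodEquivZPowers.injective
    apply Additive.toMul.injective
    apply Subtype.ext
    exact hab
  · intro z hz
    have hz' : z ∈ Subgroup.zpowers u := by
      rw [hu'.zpowers_eq]
      exact hz
    refine ⟨hu'.zmodEquivZPowers.symm (Additive.ofMul ⟨z, hz'⟩), ?_⟩
    show (((Additive.toMul (hu'.zmodEquivZPowers
      (hu'.zmodEquivZPowers.symm (Additive.ofMul ⟨z, hz'⟩)))) : Subgroup.zpowers u) : kˣ) = z
    rw [AddEquiv.apply_symm_apply]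
    rfl

end Pool.Agent.Lib.MP_f44088_fb.Tr1Aux

namespace Pool.Agent.Lib.MP_f44088_fb

theorem Tr1 : S_Tr1 := by
  intro n p hp k _ _ _
  have h : ∀ r : ℕ, ∃ e : ZMod r →+ Additive kˣ, (r.Prime → r ≠ p →
      (Function.Injective e ∧
        ∀ z : kˣ, z ^ r = 1 → ∃ t : ZMod r, Additive.toMul (e t) = z)) := by
    intro r
    by_cases h : r.Prime ∧ r ≠ p
    · obtain ⟨e, he⟩ := Tr1Aux.exists_exp p r hp h.1 h.2 k
      exact ⟨e, fun _ _ => he⟩
    · exact ⟨0, fun h1 h2 => absurd ⟨h1, h2⟩ h⟩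
  choose e he using h
  refine ⟨e, fun r hr => ?_⟩
  rw [Finset.mem_erase] at hr
  exact he r (Nat.prime_of_mem_primeFactors hr.2) hr.1

end Pool.Agent.Lib.MP_f44088_fb
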